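import Pool.Agent.Lib.MP_f31b39_co.FX.Defs

/-!
# FX-Bs: the order of the group
-/

namespace TightIndep.FX

open Finset

private theorem low (r m : ℕ) (hm : 2 * r ≤ m) : m ^ r ≤ r.factorial * (m.choose r * 2 ^ r) := by
  have h1 : r.factorial * (m.choose r * 2 ^ r) = ∏ i ∈ range r, (2 * (m - i)) := by
    rw [← mul_assoc, ← Nat.descFactorial_eq_factorial_mul_choose, Nat.descFactorial_eq_prod_range,
      prod_mul_distrib, prod_const, card_range, mul_comm]
  rw [h1]
  calc m ^ r = ∏ _i ∈ range r, m := by rw [prod_const, card_range]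
    _ ≤ ∏ i ∈ range r, (2 * (m - i)) := prod_le_prod' fun i hi => by
        have := mem_range.1 hi
        omega

private theorem three (r : ℕ) (s : Finset ℕ) : ∑ i ∈ s, r.choose i * 2 ^ i ≤ 3 ^ r := by
  have h1 : (3 : ℕ) ^ r = ∑ i ∈ range (r + 1), r.choose i * 2 ^ i := by
    have h2 := add_pow (2 : ℕ) 1 r
    rw [show (2 + 1 : ℕ) = 3 by norm_num] at h2
    rw [h2]
    refine sum_congr rfl fun i _ => ?_
    rw [one_pow, mul_one, mul_comm]
    simp
  rw [h1]
  have h3 : ∑ i ∈ s, r.choose i * 2 ^ i = ∑ i ∈ s.filter (fun i => i ≤ r), r.choose i * 2 ^ i := by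
    rw [sum_filter]
    refine sum_congr rfl fun i _ => ?_
    by_cases h : i ≤ r
    · rw [if_pos h]
    · rw [if_neg h, Nat.choose_eq_zero_of_lt (by omega), zero_mul]
  rw [h3]
  refine sum_le_sum_of_subset fun i hi => ?_
  have := (mem_filter.1 hi).2
  exact mem_range.2 (by omega)

private theorem ch_le (m r i : ℕ) (hi : i ≤ r) : m.choose i ≤ (m + 1) ^ r :=
  calc m.choose i ≤ m ^ i := Nat.choose_le_pow m i
    _ ≤ (m + 1) ^ i := Nat.pow_le_pow_left (Nat.le_succ m) i
    _ ≤ (m + 1) ^ r := Nat.pow_le_pow_right (Nat.succ_pos m) hi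

theorem bs_even (r m : ℕ) (hm : 2 * r ≤ m) :
    m ^ r ≤ r.factorial * bound m (2 * r) ∧ bound m (2 * r) ≤ 3 ^ (r + 1) * (m + 1) ^ r := by
  have hb : bound m (2 * r) = ∑ i ∈ range (m + 1), m.choose i * r.choose i * 2 ^ i := by
    unfold bound
    rw [if_pos (even_two_mul r), Nat.mul_div_cancel_left r two_pos]
  rw [hb]
  constructor
  · refine (low r m hm).trans (Nat.mul_le_mul_left _ ?_)
    have h1 : m.choose r * 2 ^ r = m.choose r * r.choose r * 2 ^ r := by
      rw [Nat.choose_self, mul_one]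
    rw [h1]
    exact single_le_sum (f := fun i => m.choose i * r.choose i * 2 ^ i) (fun _ _ => Nat.zero_le _)
      (mem_range.2 (by omega))
  · calc ∑ i ∈ range (m + 1), m.choose i * r.choose i * 2 ^ i ≤
          ∑ i ∈ range (m + 1), (m + 1) ^ r * (r.choose i * 2 ^ i) := sum_le_sum fun i _ => by
          by_cases h : i ≤ r
          · rw [mul_assoc]
            exact Nat.mul_le_mul_right _ (ch_le m r i h)
          · rw [Nat.choose_eq_zero_of_lt (show r < i by omega)]
            simp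
      _ = (m + 1) ^ r * ∑ i ∈ range (m + 1), r.choose i * 2 ^ i := by rw [mul_sum]
      _ ≤ (m + 1) ^ r * 3 ^ r := Nat.mul_le_mul_left _ (three r _)
      _ ≤ 3 ^ (r + 1) * (m + 1) ^ r := by
          rw [mul_comm]
          exact Nat.mul_le_mul_right _ (Nat.pow_le_pow_right (by norm_num) (Nat.le_succ r))

theorem bs_odd (r m : ℕ) (hm : 2 * r ≤ m) :
    m ^ r ≤ r.factorial * bound (m + 1) (2 * r + 1) ∧ bound (m + 1) (2 * r + 1) ≤ 3 ^ (r + 1) * (m + 1) ^ r := by
  have hb : bound (m + 1) (2 * r + 1) = ∑ i ∈ Icc 1 (m + 1), m.choose (i - 1) * (r + 1).choose i * 2 ^ i := by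
    have h1 : ¬ Even (2 * r + 1) := by
      rw [Nat.not_even_iff_odd]
      exact ⟨r, rfl⟩
    have h2 : (2 * r + 1 + 1) / 2 = r + 1 := by omega
    unfold bound
    rw [if_neg h1, h2, Nat.add_sub_cancel]
  rw [hb]
  constructor
  · refine (low r m hm).trans (Nat.mul_le_mul_left _ ?_)
    have h1 : m.choose r * 2 ^ r ≤ m.choose (r + 1 - 1) * (r + 1).choose (r + 1) * 2 ^ (r + 1) := by
      rw [Nat.choose_self, mul_one, Nat.add_sub_cancel]
      exact Nat.mul_le_mul_left _ (Nat.pow_le_pow_right (by norm_num) (Nat.le_succ r))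
    refine h1.trans ?_
    exact single_le_sum (f := fun i => m.choose (i - 1) * (r + 1).choose i * 2 ^ i) (fun _ _ => Nat.zero_le _)
      (mem_Icc.2 (by omega))
  · calc ∑ i ∈ Icc 1 (m + 1), m.choose (i - 1) * (r + 1).choose i * 2 ^ i ≤
          ∑ i ∈ Icc 1 (m + 1), (m + 1) ^ r * ((r + 1).choose i * 2 ^ i) := sum_le_sum fun i _ => by
          by_cases h : i ≤ r + 1
          · rw [mul_assoc]
            exact Nat.mul_le_mul_right _ (ch_le m r (i - 1) (by omega))
          · rw [Nat.choose_eq_zero_of_lt (show r + 1 < i by omega)]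
            simp
      _ = (m + 1) ^ r * ∑ i ∈ Icc 1 (m + 1), (r + 1).choose i * 2 ^ i := by rw [mul_sum]
      _ ≤ (m + 1) ^ r * 3 ^ (r + 1) := Nat.mul_le_mul_left _ (three (r + 1) _)
      _ = 3 ^ (r + 1) * (m + 1) ^ r := mul_comm _ _

end TightIndep.FX
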