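import Pool.Agent.Lib.MP_f31b39_co.FX.Defs

/-!
# FX-Or: the correlation of `j` and `3 j`
-/

namespace TightIndep.FX

open Finset

theorem ball_le (m s : ℕ) : (ball m s).card ≤ (2 * m + 1) ^ s := by
  classical
  induction s with
  | zero =>
    rw [pow_zero, Finset.card_le_one]
    intro a ha b hb
    rw [mem_ball] at ha hb
    rw [eq_zero_of_nrm (Nat.le_zero.1 ha), eq_zero_of_nrm (Nat.le_zero.1 hb)]
  | succ s ih =>
    have hsub : ball m (s + 1) ⊆ ball m s ∪ (univ : Finset (Fin m × Bool)).biUnion
        fun d => (ball m s).image fun v => v + ud d := by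
      intro v hv
      rw [mem_ball] at hv
      rw [mem_union, mem_biUnion]
      by_cases h : nrm v ≤ s
      · exact Or.inl (mem_ball.2 h)
      · right
        obtain ⟨d, hd⟩ : ∃ d, 1 ≤ comp v d := by
          by_contra hcon
          push Not at hcon
          have h1 : nrm v = 0 := by
            rw [nrm_eq]
            exact Finset.sum_eq_zero fun d _ => by have := hcon d; omega
          omega
        refine ⟨d, mem_univ d, mem_image.2 ⟨v - ud d, ?_, sub_add_cancel _ _⟩⟩
        have h1 := nrm_sub_ov v (ud d)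
        rw [ov_ud, nrm_ud, Nat.min_eq_right hd] at h1
        rw [mem_ball]
        omega
    calc (ball m (s + 1)).card ≤ _ := card_le_card hsub
      _ ≤ (ball m s).card + ∑ d : Fin m × Bool, ((ball m s).image fun v => v + ud d).card :=
          (card_union_le _ _).trans (Nat.add_le_add_left card_biUnion_le _)
      _ ≤ (ball m s).card + ∑ d : Fin m × Bool, (ball m s).card :=
          Nat.add_le_add_left (sum_le_sum fun d _ => card_image_le) _
      _ = (2 * m + 1) * (ball m s).card := by
          rw [sum_const, card_univ, Fintype.card_prod, Fintype.card_fin, Fintype.card_bool,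
            smul_eq_mul]
          ring
      _ ≤ (2 * m + 1) * (2 * m + 1) ^ s := Nat.mul_le_mul_left _ ih
      _ = (2 * m + 1) ^ (s + 1) := by rw [pow_succ, mul_comm]

private theorem inj_r {n m r : ℕ} [NeZero n] (a : Fin m → ZMod n)
    (h : ∀ v ∈ rel a, v ≠ 0 → 2 * r + 1 ≤ nrm v) (u u' : Fin m → ℤ) (hu : nrm u ≤ r)
    (hu' : nrm u' ≤ r) (he : ∑ i, u i • a i = ∑ i, u' i • a i) : u = u' := by
  by_contra hne
  have h3 : u - u' ∈ rel a := by
    show ∑ i, (u - u') i • a i = 0
    simp only [Pi.sub_apply, sub_smul, Finset.sum_sub_distrib]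
    exact sub_eq_zero.2 he
  have h4 := h _ h3 (sub_ne_zero.2 hne)
  have h5 := nrm_sub_le u u'
  omega

private theorem three_card {n : ℕ} [NeZero n] (s : ZMod n) :
    (univ.filter fun y : ZMod n => s + 3 * y = 0).card ≤ 3 := by
  classical
  rcases (univ.filter fun y : ZMod n => s + 3 * y = 0).eq_empty_or_nonempty with h0 | ⟨y0, hy0⟩
  · rw [h0]; simp
  · have hy0' : s + 3 * y0 = 0 := (mem_filter.1 hy0).2
    have h1 : (univ.filter fun x : ZMod n => 3 • x = 0).card ≤ 3 :=
      IsAddCyclic.card_nsmul_eq_zero_le (by norm_num)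
    refine le_trans ?_ h1
    refine card_le_card_of_injOn (fun y => y - y0) ?_ ?_
    · intro y hy
      have hy' : s + 3 * y = 0 := (mem_filter.1 (mem_coe.1 hy)).2
      rw [mem_coe, mem_filter]
      refine ⟨mem_univ _, ?_⟩
      rw [nsmul_eq_mul]
      push_cast
      linear_combination hy' - hy0'
    · intro y _ y' _ he
      exact sub_left_injective he

theorem orth {n m r k l : ℕ} [NeZero n] (a : Fin m → ZMod n) (h : ∀ v ∈ rel a, v ≠ 0 → 2 * r + 1 ≤ nrm v)
    (hk : k ≤ r) (hl : l ≤ r) (V W : Finset (Fin m → ℤ)) (hV : V ⊆ ball m k) (hW : W ⊆ ball m l) :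
    ∃ c : ℕ, ∑ j : ZMod n, (∑ v ∈ V, (ZMod.stdAddChar (j * ∑ i, v i • a i) : ℂ)) *
      ∑ v ∈ W, (ZMod.stdAddChar (3 * j * ∑ i, v i • a i) : ℂ) = (n : ℂ) * c ∧
      c ≤ 3 * (2 * m + 1) ^ min k l := by
  classical
  refine ⟨((V ×ˢ W).filter fun p => ∑ i, p.1 i • a i + 3 * ∑ i, p.2 i • a i = 0).card, ?_, ?_⟩
  · have h1 : ∀ j : ZMod n, (∑ v ∈ V, (ZMod.stdAddChar (j * ∑ i, v i • a i) : ℂ)) *
        ∑ v ∈ W, (ZMod.stdAddChar (3 * j * ∑ i, v i • a i) : ℂ) =
        ∑ p ∈ V ×ˢ W, (ZMod.stdAddChar (j * (∑ i, p.1 i • a i + 3 * ∑ i, p.2 i • a i)) : ℂ) := by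
      intro j
      rw [sum_mul_sum, ← sum_product']
      refine sum_congr rfl fun p _ => ?_
      rw [← AddChar.map_add_eq_mul]
      congr 1
      ring
    rw [sum_congr rfl fun j _ => h1 j, sum_comm]
    have h2 : ∀ p ∈ V ×ˢ W, ∑ j : ZMod n,
        (ZMod.stdAddChar (j * (∑ i, p.1 i • a i + 3 * ∑ i, p.2 i • a i)) : ℂ) =
        if ∑ i, p.1 i • a i + 3 * ∑ i, p.2 i • a i = 0 then (n : ℂ) else 0 := by
      intro p _
      rw [AddChar.sum_mulShift _ (ZMod.isPrimitive_stdAddChar n), ZMod.card]
      split_ifs <;> simp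
    rw [sum_congr rfl h2, ← sum_filter, sum_const, nsmul_eq_mul, mul_comm]
  · rcases le_total l k with hkl | hkl
    · rw [Nat.min_eq_right hkl]
      calc _ ≤ W.card := by
            refine card_le_card_of_injOn (fun p => p.2) ?_ ?_
            · intro p hp
              exact mem_coe.2 (mem_product.1 (mem_filter.1 (mem_coe.1 hp)).1).2
            · intro p hp q hq he
              have hp1 := mem_filter.1 (mem_coe.1 hp)
              have hq1 := mem_filter.1 (mem_coe.1 hq)
              have hp2 := mem_ball.1 (hV (mem_product.1 hp1.1).1)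
              have hq2 := mem_ball.1 (hV (mem_product.1 hq1.1).1)
              have he' : p.2 = q.2 := he
              refine Prod.ext ?_ he'
              refine inj_r a h _ _ (hp2.trans hk) (hq2.trans hk) ?_
              have e1 := hp1.2
              have e2 := hq1.2
              rw [he'] at e1
              exact add_right_cancel (e1.trans e2.symm)
        _ ≤ (2 * m + 1) ^ l := (card_le_card hW).trans (ball_le m l)
        _ ≤ 3 * (2 * m + 1) ^ l := Nat.le_mul_of_pos_left _ (by norm_num)
    · rw [Nat.min_eq_left hkl]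
      calc _ = ∑ u ∈ V, (W.filter fun v => ∑ i, u i • a i + 3 * ∑ i, v i • a i = 0).card := by
            rw [card_filter, sum_product]
            exact sum_congr rfl fun u _ => (card_filter _ _).symm
        _ ≤ ∑ u ∈ V, 3 := by
            refine sum_le_sum fun u _ => ?_
            refine le_trans ?_ (three_card (∑ i, u i • a i))
            refine card_le_card_of_injOn (fun v => ∑ i, v i • a i) ?_ ?_
            · intro v hv
              exact mem_coe.2 (mem_filter.2 ⟨mem_univ _, (mem_filter.1 (mem_coe.1 hv)).2⟩)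
            · intro v hv w hw he
              have hv1 := mem_ball.1 (hW (mem_filter.1 (mem_coe.1 hv)).1)
              have hw1 := mem_ball.1 (hW (mem_filter.1 (mem_coe.1 hw)).1)
              exact inj_r a h _ _ (hv1.trans hl) (hw1.trans hl) he
        _ = 3 * V.card := by rw [sum_const, smul_eq_mul, mul_comm]
        _ ≤ 3 * (2 * m + 1) ^ k := Nat.mul_le_mul_left _ ((card_le_card hV).trans (ball_le m k))

end TightIndep.FX
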