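import Pool.Agent.Lib.MP_f31b39_co.FX.RpE
import Pool.Agent.Lib.MP_f31b39_co.FX.Or
import Pool.Agent.Lib.MP_f31b39_co.FX.Bs

/-!
# FX-DE: the data of a tight `2 r`-independent family
-/

namespace TightIndep.FX

open Finset

private theorem DE_char {n : ℕ} [NeZero n] (j : ZMod n) (hj : j ≠ 0) :
    ∑ g : ZMod n, (ZMod.stdAddChar (j * g) : ℂ) = 0 := by
  have h := AddChar.sum_mulShift (R := ZMod n) (R' := ℂ) j (ZMod.isPrimitive_stdAddChar n)
  rw [if_neg hj, Nat.cast_zero] at h
  rw [← h]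
  exact sum_congr rfl fun g _ => by rw [mul_comm]

private theorem DE_sum {n m r : ℕ} [NeZero n] (a : Fin m → ZMod n)
    (h : ∀ v ∈ rel a, v ≠ 0 → 2 * r + 1 ≤ nrm v) (hG : Fintype.card (ZMod n) = bound m (2 * r))
    (f : ZMod n → ℂ) : ∑ u ∈ ball m r, f (∑ i, u i • a i) = ∑ g, f g := by
  refine (sum_image_fam (2 * r) a h (ball m r) ?_ ?_).2 f
  · intro u hu u' hu'
    rw [mem_ball] at hu hu'
    have h3 := nrm_sub_le u u'
    omega
  · rw [hG, card_ball, ← bound_even m r]

theorem datE {n m r : ℕ} [NeZero n] (hr : 2 ≤ r) (hm : 2 * r ≤ m) (a : Fin m → ZMod n)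
    (h : ∀ v ∈ rel a, v ≠ 0 → 2 * r + 1 ≤ nrm v) (hG : Fintype.card (ZMod n) = bound m (2 * r)) :
    ∃ x : ZMod n → ℝ, Dat r n m (NO.sg a) x := by
  obtain ⟨x, hx, hcc⟩ := rpE a
  have hn : n = bound m (2 * r) := by rw [← hG, ZMod.card]
  have hcard : Fintype.card (Option (Fin m × Bool)) = 2 * m + 1 := by
    rw [Fintype.card_option, Fintype.card_prod, Fintype.card_fin, Fintype.card_bool, Nat.mul_comm]
  have h5 : ∀ v ∈ rel a, v ≠ 0 → 5 ≤ nrm v := fun v hv h0 => by
    have := h v hv h0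
    omega
  refine ⟨x, ?_, ?_, ?_, ?_, ?_, hx, ?_, ?_⟩
  · rw [hcard]
    omega
  · rw [hcard]
    omega
  · have := (bs_even r m hm).1
    rwa [← hn] at this
  · have := (bs_even r m hm).2
    rwa [← hn] at this
  · intro g hg
    rcases (univ.filter fun p : Option (Fin m × Bool) × Option (Fin m × Bool) =>
      NO.sg a p.1 - NO.sg a p.2 = g).eq_empty_or_nonempty with h0 | ⟨⟨i, k⟩, hik⟩
    · rw [h0, card_empty]
      omega
    · have hik' : NO.sg a i - NO.sg a k = g := (mem_filter.1 hik).2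
      have hne : i ≠ k := by
        rintro rfl
        rw [sub_self] at hik'
        exact hg hik'.symm
      have := NO.sg_diff a h5 i k hne
      rwa [hik'] at this
  · intro j hj
    have hj0 : j ≠ 0 := by
      rintro rfl
      exact hj (mul_zero 2)
    rw [hcc j r, DE_sum a h hG fun g => (ZMod.stdAddChar (j * g) : ℂ)]
    exact DE_char j hj0
  · intro k l hk hl
    obtain ⟨c, hc, hb⟩ := orth a h hk hl (ball m k) (ball m l) (Subset.refl _) (Subset.refl _)
    refine ⟨c, ?_, hb.trans ?_⟩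
    · rw [← hc]
      exact sum_congr rfl fun j _ => by rw [hcc j k, hcc (3 * j) l]
    · exact Nat.mul_le_mul_left 3 (Nat.pow_le_pow_left (by omega) _)

end TightIndep.FX
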