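import Pool.Agent.Lib.MP_f31b39_co.FX.RpO
import Pool.Agent.Lib.MP_f31b39_co.FX.Or
import Pool.Agent.Lib.MP_f31b39_co.FX.Bs
import Pool.Agent.Lib.MP_f31b39_co.AS.Even2

/-!
# FX-DO: the data of a tight `(2 r + 1)`-independent family
-/

namespace TightIndep.FX

open Finset

private theorem do_sum {G : Type} [AddCommGroup G] [Fintype G] {m r : ℕ} (a : Fin (m + 1) → G)
    (h : ∀ v ∈ rel a, v ≠ 0 → 2 * r + 2 ≤ nrm v) (hG : Fintype.card G = bound (m + 1) (2 * r + 1))
    (d : Fin (m + 1) × Bool) :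
    (∀ g : G, ∃ u ∈ dball (r + 1) d, ∑ i, u i • a i = g) ∧
      ∀ f : G → ℂ, ∑ u ∈ dball (r + 1) d, f (∑ i, u i • a i) = ∑ g, f g := by
  apply sum_image_fam (2 * r + 1) a h
  · intro u hu u' hu'
    rw [mem_dball] at hu hu'
    have h3 := nrm_sub_le u u'
    have h4 := nrm_sub_le (u + ud d) (u' + ud d)
    rw [add_sub_add_right_eq_sub] at h4
    have h5 : nrm (u' + ud d - ud d) ≤ nrm (u' + ud d) + nrm (ud d) := nrm_sub_le _ _
    have h6 : nrm (u + ud d - ud d) ≤ nrm (u + ud d) + nrm (ud d) := nrm_sub_le _ _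
    rw [add_sub_cancel_right, nrm_ud] at h5 h6
    omega
  · have h1 := bound_odd m (r + 1) (by omega)
    rw [show 2 * (r + 1) - 1 = 2 * r + 1 by omega] at h1
    rw [hG, card_dball, h1]

private theorem do_mon {G : Type} [AddCommGroup G] {m : ℕ} (a : Fin m → G) (χ : AddChar G ℂ)
    (v : Fin m → ℤ) : mon (fun i => χ (a i)) v = χ (∑ i, v i • a i) := by
  unfold mon
  rw [addChar_map_sum]
  refine prod_congr rfl fun i _ => ?_
  rw [AddChar.map_zsmul_eq_zpow]

private theorem do_eq {G : Type} [AddCommGroup G] [Fintype G] {m r : ℕ} (a : Fin (m + 1) → G)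
    (h : ∀ v ∈ rel a, v ≠ 0 → 2 * r + 2 ≤ nrm v) (hG : Fintype.card G = bound (m + 1) (2 * r + 1))
    (χ : AddChar G ℂ) (hχ : ∃ g, χ g ^ 2 ≠ 1) :
    cc (pw m fun k => ∑ i, (χ (a i) ^ k + (χ (a i))⁻¹ ^ k)) r = 0 := by
  have hx : ∀ i, χ (a i) ≠ 0 := by
    intro i h0
    have h1 : χ (a i + -a i) = 1 := by rw [add_neg_cancel, AddChar.map_zero_eq_one]
    rw [AddChar.map_add_eq_mul, h0, zero_mul] at h1
    exact zero_ne_one h1
  have hχ1 : χ ≠ 1 := by
    rintro rfl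
    obtain ⟨g, hg⟩ := hχ
    apply hg
    rw [AddChar.one_apply, one_pow]
  have hsum : ∀ d : Fin (m + 1) × Bool, ∑ v ∈ dball (r + 1) d, mon (fun i => χ (a i)) v = 0 := by
    intro d
    rw [← AddChar.sum_eq_zero_of_ne_one hχ1, ← (do_sum a h hG d).2 (fun g => χ g)]
    exact sum_congr rfl fun v _ => do_mon a χ v
  have hi : ∃ i, χ (a i) ^ 2 ≠ 1 := by
    by_contra hno
    push Not at hno
    obtain ⟨g, hg⟩ := hχ
    apply hg
    obtain ⟨u, -, hu⟩ := (do_sum a h hG (0, true)).1 g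
    rw [← hu, addChar_map_sum, ← prod_pow]
    refine prod_eq_one fun i _ => ?_
    rw [AddChar.map_zsmul_eq_zpow, ← zpow_natCast, ← zpow_mul, mul_comm, zpow_mul, zpow_natCast,
      hno i, one_zpow]
  obtain ⟨i, hi⟩ := hi
  have hc : PowerSeries.coeff r (EE (fun i => χ (a i)) * geo2) = 0 := by
    have h3 := coeff_geo2 (fun i => χ (a i)) i r (hx i)
    rw [← dball_diff (fun i => χ (a i)) i r (hx i), hsum, hsum, sub_zero] at h3
    rcases mul_eq_zero.1 h3 with h4 | h4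
    · exfalso
      apply hi
      have h5 : χ (a i) = (χ (a i))⁻¹ := sub_eq_zero.1 h4
      rw [pow_two]
      nth_rw 2 [h5]
      exact mul_inv_cancel₀ (hx i)
    · exact h4
  rwa [newton_odd _ hx] at hc

private theorem do_pow {n : ℕ} [NeZero n] (k : ℕ) (j g : ZMod n) :
    (ZMod.stdAddChar (j * g) : ℂ) ^ k = ZMod.stdAddChar ((k : ZMod n) * j * g) := by
  rw [← AddChar.map_nsmul_eq_pow, nsmul_eq_mul, mul_assoc]

private theorem do_one {n : ℕ} [NeZero n] {g : ZMod n} (hg : g ≠ 0) :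
    (ZMod.stdAddChar g : ℂ) ≠ 1 := by
  intro h
  apply hg
  apply ZMod.injective_stdAddChar
  rw [h, AddChar.map_zero_eq_one]

private theorem do_xs {n m : ℕ} [NeZero n] (a : Fin (m + 1) → ZMod n) (x : ZMod n → ℝ)
    (hx : ∀ j, (x j : ℂ) = ∑ i, ZMod.stdAddChar (j * NO.sg a (some i))) (j : ZMod n) :
    xs x j = fun k => ∑ i, ((ZMod.stdAddChar (j * a i) : ℂ) ^ k + (ZMod.stdAddChar (j * a i) : ℂ)⁻¹ ^ k) := by
  funext k
  unfold xs
  rw [hx, Fintype.sum_prod_type]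
  refine sum_congr rfl fun i _ => ?_
  rw [Fintype.sum_bool]
  show (ZMod.stdAddChar ((k : ZMod n) * j * a i) : ℂ) + ZMod.stdAddChar ((k : ZMod n) * j * -a i) = _
  rw [mul_neg, AddChar.map_neg_eq_inv, ← do_pow, inv_pow]

theorem datO {n m r : ℕ} [NeZero n] (hr : 2 ≤ r) (hm : 2 * r ≤ m) (a : Fin (m + 1) → ZMod n)
    (h : ∀ v ∈ rel a, v ≠ 0 → 2 * r + 2 ≤ nrm v) (hG : Fintype.card (ZMod n) = bound (m + 1) (2 * r + 1)) :
    ∃ x : ZMod n → ℝ, Dat r n m (fun i => NO.sg a (some i)) x := by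
  obtain ⟨x, hx, hc⟩ := rpO a
  have hn : n = bound (m + 1) (2 * r + 1) := by rw [← hG, ZMod.card]
  have hcard : Fintype.card (Fin (m + 1) × Bool) = 2 * (m + 1) := by
    rw [Fintype.card_prod, Fintype.card_fin, Fintype.card_bool, mul_comm]
  refine ⟨x, ⟨by rw [hcard]; omega, by rw [hcard]; omega, ?_, ?_, ?_, hx, ?_, ?_⟩⟩
  · rw [hn]; exact (bs_odd r m hm).1
  · rw [hn]; exact (bs_odd r m hm).2
  · intro g hg
    rcases (univ.filter fun p : (Fin (m + 1) × Bool) × (Fin (m + 1) × Bool) =>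
      NO.sg a (some p.1) - NO.sg a (some p.2) = g).eq_empty_or_nonempty with h0 | ⟨p, hp⟩
    · rw [h0, card_empty]; omega
    · have hp2 := (mem_filter.1 hp).2
      have h5 : ∀ v ∈ rel a, v ≠ 0 → 5 ≤ nrm v := fun v hv hv0 => by
        have := h v hv hv0
        omega
      have hne : p.1 ≠ p.2 := by
        intro he
        apply hg
        rw [← hp2, he, sub_self]
      have := NO.sg_diff' a h5 p.1 p.2 hne
      rwa [hp2] at this
  · intro j hj
    rw [do_xs a x hx j]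
    have hχ : ∃ g, (ZMod.stdAddChar.mulShift j : AddChar (ZMod n) ℂ) g ^ 2 ≠ 1 := by
      refine ⟨1, ?_⟩
      rw [AddChar.mulShift_apply, do_pow]
      apply do_one
      simpa using hj
    have he := do_eq a h hG (ZMod.stdAddChar.mulShift j) hχ
    simpa only [AddChar.mulShift_apply] using he
  · intro k l hk hl
    obtain ⟨c, hc1, hc2⟩ := orth (r := r) a (fun v hv hv0 => by have := h v hv hv0; omega) hk hl
      ((ball (m + 1) k).filter (fun v => nrm v % 2 = k % 2)) ((ball (m + 1) l).filter (fun v => nrm v % 2 = l % 2))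
      (filter_subset _ _) (filter_subset _ _)
    refine ⟨c, ?_, ?_⟩
    · rw [← hc1]
      refine sum_congr rfl fun j _ => ?_
      rw [hc, hc]
    · rwa [show 2 * (m + 1) + 1 = 2 * m + 3 by ring] at hc2

end TightIndep.FX
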