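import Pool.Agent.Lib.MP_f31b39_co.FX.Defs

/-!
# FX-R11: the polynomial of the radius 11
-/

namespace TightIndep.FX

open Finset

private theorem R11_rec (k : ℕ) (y : ℂ) :
    (GG (k + 2)).eval y = (y * (GG (k + 1)).eval y - 2 * (GG k).eval y) / ((k : ℂ) + 2) := by
  rw [GG]
  simp only [Polynomial.eval_mul, Polynomial.eval_sub, Polynomial.eval_C, Polynomial.eval_X, Polynomial.eval_ofNat]
  ring

private noncomputable def R11_P : Polynomial ℝ :=
  Polynomial.C 1 - Polynomial.C (5 / 6) * Polynomial.X ^ 2 + Polynomial.C (1 / 6) * Polynomial.X ^ 4 -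
    Polynomial.C (1 / 84) * Polynomial.X ^ 6 + Polynomial.C (1 / 3024) * Polynomial.X ^ 8 -
    Polynomial.C (1 / 332640) * Polynomial.X ^ 10

private theorem R11_eval (y : ℝ) : R11_P.eval y =
    1 - 5 / 6 * y ^ 2 + 1 / 6 * y ^ 4 - 1 / 84 * y ^ 6 + 1 / 3024 * y ^ 8 - 1 / 332640 * y ^ 10 := by
  simp only [R11_P, Polynomial.eval_sub, Polynomial.eval_add, Polynomial.eval_mul, Polynomial.eval_C, Polynomial.eval_pow,
    Polynomial.eval_X]

private theorem R11_deg : R11_P.natDegree ≤ 10 := by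
  unfold R11_P
  compute_degree

private noncomputable def R11_c : ℕ → ℝ
  | 0 => 256 / 693
  | 2 => -128 / 693
  | 4 => 64 / 231
  | 6 => -160 / 231
  | 8 => 80 / 33
  | 10 => -120 / 11
  | _ => 0

theorem rad11 : ∃ (κ : ℝ) (P : Polynomial ℝ) (c : ℕ → ℝ), Rad 11 (256 / 693) κ P c := by
  have g0 : ∀ y : ℂ, (GG 0).eval y = 1 := fun y => by simp [GG]
  have g1 : ∀ y : ℂ, (GG 1).eval y = y := fun y => by simp [GG]
  have g2 : ∀ y : ℂ, (GG 2).eval y = -1 + y ^ 2 / 2 := fun y => by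
    rw [R11_rec 0, g1, g0]
    push_cast
    ring
  have g3 : ∀ y : ℂ, (GG 3).eval y = -y + y ^ 3 / 6 := fun y => by
    rw [R11_rec 1, g2, g1]
    push_cast
    ring
  have g4 : ∀ y : ℂ, (GG 4).eval y = 1 / 2 - y ^ 2 / 2 + y ^ 4 / 24 := fun y => by
    rw [R11_rec 2, g3, g2]
    push_cast
    ring
  have g5 : ∀ y : ℂ, (GG 5).eval y = y / 2 - y ^ 3 / 6 + y ^ 5 / 120 := fun y => by
    rw [R11_rec 3, g4, g3]
    push_cast
    ring
  have g6 : ∀ y : ℂ, (GG 6).eval y = -1 / 6 + y ^ 2 / 4 - y ^ 4 / 24 + y ^ 6 / 720 := fun y => by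
    rw [R11_rec 4, g5, g4]
    push_cast
    ring
  have g7 : ∀ y : ℂ, (GG 7).eval y = -y / 6 + y ^ 3 / 12 - y ^ 5 / 120 + y ^ 7 / 5040 := fun y => by
    rw [R11_rec 5, g6, g5]
    push_cast
    ring
  have g8 : ∀ y : ℂ, (GG 8).eval y = 1 / 24 - y ^ 2 / 12 + y ^ 4 / 48 - y ^ 6 / 720 + y ^ 8 / 40320 := fun y => by
    rw [R11_rec 6, g7, g6]
    push_cast
    ring
  have g9 : ∀ y : ℂ, (GG 9).eval y = y / 24 - y ^ 3 / 36 + y ^ 5 / 240 - y ^ 7 / 5040 + y ^ 9 / 362880 := fun y => by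
    rw [R11_rec 7, g8, g7]
    push_cast
    ring
  have g10 : ∀ y : ℂ, (GG 10).eval y = -1 / 120 + y ^ 2 / 48 - y ^ 4 / 144 + y ^ 6 / 1440 - y ^ 8 / 40320 + y ^ 10 / 3628800 := fun y => by
    rw [R11_rec 8, g9, g8]
    push_cast
    ring
  have g11 : ∀ y : ℂ, (GG 11).eval y = -y / 120 + y ^ 3 / 144 - y ^ 5 / 720 + y ^ 7 / 10080 - y ^ 9 / 362880 + y ^ 11 / 39916800 := fun y => by
    rw [R11_rec 9, g10, g9]
    push_cast
    ring
  refine ⟨-1 / 120, R11_P, R11_c, by norm_num, ?_, ?_, rfl, ?_, ?_⟩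
  · rw [R11_eval]
    norm_num
  · have h := R11_deg
    omega
  · intro y
    rw [g11, R11_eval]
    push_cast
    ring
  · intro y
    rw [R11_eval]
    simp only [Finset.sum_range_succ, Finset.sum_range_zero, R11_c, g0, g1, g2, g3, g4, g5, g6, g7, g8, g9, g10]
    push_cast
    ring

end TightIndep.FX
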