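import Pool.Agent.Lib.MP_f31b39_co.FX.Defs

/-!
# FX-R7: the polynomial of the radius 7
-/

namespace TightIndep.FX

open Finset

private theorem R7_rec (k : ℕ) (y : ℂ) : (GG (k + 2)).eval y = 1 / ((k : ℂ) + 2) * (y * (GG (k + 1)).eval y - 2 * (GG k).eval y) := by
  rw [GG, Polynomial.eval_mul, Polynomial.eval_C, Polynomial.eval_sub, Polynomial.eval_mul, Polynomial.eval_X, Polynomial.eval_mul]
  norm_num

private theorem R7_0 (y : ℂ) : (GG 0).eval y = 1 := by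
  rw [GG, Polynomial.eval_one]

private theorem R7_1 (y : ℂ) : (GG 1).eval y = y := by
  rw [GG, Polynomial.eval_X]

private theorem R7_2 (y : ℂ) : (GG 2).eval y = y ^ 2 / 2 - 1 := by
  rw [R7_rec 0 y, R7_1, R7_0]
  push_cast
  ring

private theorem R7_3 (y : ℂ) : (GG 3).eval y = y ^ 3 / 6 - y := by
  rw [R7_rec 1 y, R7_2, R7_1]
  push_cast
  ring

private theorem R7_4 (y : ℂ) : (GG 4).eval y = y ^ 4 / 24 - y ^ 2 / 2 + 1 / 2 := by
  rw [R7_rec 2 y, R7_3, R7_2]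
  push_cast
  ring

private theorem R7_5 (y : ℂ) : (GG 5).eval y = y ^ 5 / 120 - y ^ 3 / 6 + y / 2 := by
  rw [R7_rec 3 y, R7_4, R7_3]
  push_cast
  ring

private theorem R7_6 (y : ℂ) : (GG 6).eval y = y ^ 6 / 720 - y ^ 4 / 24 + y ^ 2 / 4 - 1 / 6 := by
  rw [R7_rec 4 y, R7_5, R7_4]
  push_cast
  ring

private theorem R7_7 (y : ℂ) : (GG 7).eval y = y ^ 7 / 5040 - y ^ 5 / 120 + y ^ 3 / 12 - y / 6 := by
  rw [R7_rec 5 y, R7_6, R7_5]
  push_cast
  ring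

theorem rad7 : ∃ (κ : ℝ) (P : Polynomial ℝ) (c : ℕ → ℝ), Rad 7 (16 / 35) κ P c := by
  have hP : ∀ y : ℝ, (1 - Polynomial.C (1 / 2 : ℝ) * Polynomial.X ^ 2 + Polynomial.C (1 / 20 : ℝ) * Polynomial.X ^ 4 -
      Polynomial.C (1 / 840 : ℝ) * Polynomial.X ^ 6).eval y = 1 - 1 / 2 * y ^ 2 + 1 / 20 * y ^ 4 - 1 / 840 * y ^ 6 := by
    intro y
    simp only [Polynomial.eval_sub, Polynomial.eval_add, Polynomial.eval_mul, Polynomial.eval_C, Polynomial.eval_pow,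
      Polynomial.eval_X, Polynomial.eval_one]
  refine ⟨-(1 / 6), 1 - Polynomial.C (1 / 2 : ℝ) * Polynomial.X ^ 2 + Polynomial.C (1 / 20 : ℝ) * Polynomial.X ^ 4 -
    Polynomial.C (1 / 840 : ℝ) * Polynomial.X ^ 6,
    fun k => if k = 0 then 16 / 35 else if k = 2 then -(8 / 35) else if k = 4 then 12 / 35 else if k = 6 then -(6 / 7) else 0,
    by norm_num, ?_, ?_, ?_, ?_, ?_⟩
  · rw [hP]
    norm_num
  · have h : (1 - Polynomial.C (1 / 2 : ℝ) * Polynomial.X ^ 2 + Polynomial.C (1 / 20 : ℝ) * Polynomial.X ^ 4 -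
      Polynomial.C (1 / 840 : ℝ) * Polynomial.X ^ 6).natDegree ≤ 6 := by
      compute_degree
    omega
  · simp
  · intro y
    rw [hP, R7_7]
    push_cast
    ring
  · intro y
    rw [hP]
    simp only [Finset.sum_range_succ, Finset.sum_range_zero, R7_0, R7_1, R7_2, R7_3, R7_4, R7_5, R7_6]
    norm_num
    ring

end TightIndep.FX
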