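import Pool.Agent.Lib.MP_f31b39_co.FX.Defs

/-!
# FX-R9: the polynomial of the radius 9
-/

namespace TightIndep.FX

open Finset

private theorem g0 (z : ℂ) : (GG 0).eval z = 1 := by
  rw [GG, Polynomial.eval_one]

private theorem g1 (z : ℂ) : (GG 1).eval z = z := by
  rw [GG, Polynomial.eval_X]

private theorem gs (k : ℕ) (z : ℂ) :
    (GG (k + 2)).eval z = (1 / ((k : ℂ) + 2)) * (z * (GG (k + 1)).eval z - 2 * (GG k).eval z) := by
  rw [GG]
  simp only [Polynomial.eval_mul, Polynomial.eval_sub, Polynomial.eval_C, Polynomial.eval_X,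
    Polynomial.eval_ofNat]

private theorem g2 (z : ℂ) : (GG 2).eval z = -1 + z ^ 2 / 2 := by
  rw [gs 0, g1, g0]; push_cast; ring

private theorem g3 (z : ℂ) : (GG 3).eval z = -z + z ^ 3 / 6 := by
  rw [gs 1, g2, g1]; push_cast; ring

private theorem g4 (z : ℂ) : (GG 4).eval z = 1 / 2 - z ^ 2 / 2 + z ^ 4 / 24 := by
  rw [gs 2, g3, g2]; push_cast; ring

private theorem g5 (z : ℂ) : (GG 5).eval z = z / 2 - z ^ 3 / 6 + z ^ 5 / 120 := by
  rw [gs 3, g4, g3]; push_cast; ring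

private theorem g6 (z : ℂ) : (GG 6).eval z = -1 / 6 + z ^ 2 / 4 - z ^ 4 / 24 + z ^ 6 / 720 := by
  rw [gs 4, g5, g4]; push_cast; ring

private theorem g7 (z : ℂ) : (GG 7).eval z = -z / 6 + z ^ 3 / 12 - z ^ 5 / 120 + z ^ 7 / 5040 := by
  rw [gs 5, g6, g5]; push_cast; ring

private theorem g8 (z : ℂ) :
    (GG 8).eval z = 1 / 24 - z ^ 2 / 12 + z ^ 4 / 48 - z ^ 6 / 720 + z ^ 8 / 40320 := by
  rw [gs 6, g7, g6]; push_cast; ring

private theorem g9 (z : ℂ) :
    (GG 9).eval z = z / 24 - z ^ 3 / 36 + z ^ 5 / 240 - z ^ 7 / 5040 + z ^ 9 / 362880 := by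
  rw [gs 7, g8, g7]; push_cast; ring

/-- the polynomial -/
private noncomputable def P9 : Polynomial ℝ :=
  Polynomial.C 1 + Polynomial.C (-2 / 3) * Polynomial.X ^ 2 + Polynomial.C (1 / 10) * Polynomial.X ^ 4 +
    Polynomial.C (-1 / 210) * Polynomial.X ^ 6 + Polynomial.C (1 / 15120) * Polynomial.X ^ 8

private theorem P9_eval (y : ℝ) :
    P9.eval y = 1 - 2 * y ^ 2 / 3 + y ^ 4 / 10 - y ^ 6 / 210 + y ^ 8 / 15120 := by
  simp only [P9, Polynomial.eval_add, Polynomial.eval_mul, Polynomial.eval_C, Polynomial.eval_pow,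
    Polynomial.eval_X]
  ring

theorem rad9 : ∃ (κ : ℝ) (P : Polynomial ℝ) (c : ℕ → ℝ), Rad 9 (128 / 315) κ P c := by
  refine ⟨1 / 24, P9, fun k => if k = 0 then 128 / 315 else if k = 2 then -64 / 315 else
    if k = 4 then 32 / 105 else if k = 6 then -16 / 21 else if k = 8 then 8 / 3 else 0,
    ⟨by norm_num, ?_, ?_, by norm_num, fun y => ?_, fun y => ?_⟩⟩
  · rw [P9_eval]; norm_num
  · have h : P9.natDegree ≤ 8 := by
      unfold P9
      compute_degree
    omega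
  · rw [g9, P9_eval]
    push_cast
    ring
  · rw [P9_eval]
    simp only [Finset.sum_range_succ, Finset.sum_range_zero, g0, g1, g2, g3, g4, g5, g6, g7, g8]
    norm_num
    ring

end TightIndep.FX
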