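import Pool.Agent.Lib.MP_f31b39_co.FX.Fi
import Pool.Agent.Lib.MP_f31b39_co.FX.DE
import Pool.Agent.Lib.MP_f31b39_co.FX.DO
import Pool.Agent.Lib.MP_f31b39_co.FX.R7
import Pool.Agent.Lib.MP_f31b39_co.FX.R9
import Pool.Agent.Lib.MP_f31b39_co.FX.R11

/-!
# FX-All: tight `t`-independent sets in cyclic groups, `t = 14, 15, 18, 19, 22, 23`
-/

namespace TightIndep.FX

open Finset

/-- tight `2 r`- and `(2 r + 1)`-independent sets, `r` odd with a good weight -/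
private theorem rad_all (r : ℕ) (hr : Odd r) (hr3 : 3 ≤ r) (w : ℝ) (hw : 1 / 2 < w + w ^ 2)
    (hR : ∃ (κ : ℝ) (P : Polynomial ℝ) (c : ℕ → ℝ), Rad r w κ P c) :
    ∃ M : ℕ, ∀ (n : ℕ) [NeZero n] (A : Finset (ZMod n)), Tight (2 * r) A ∨ Tight (2 * r + 1) A → A.card ≤ M := by
  obtain ⟨κ, P, c, hR⟩ := hR
  obtain ⟨M, hM⟩ := fi r hr hr3 w κ P c hR hw
  refine ⟨M + 2 * r + 1, fun n _ A hA => ?_⟩
  by_contra hcon
  push Not at hcon
  rcases hA with ⟨hI, hG⟩ | ⟨hI, hG⟩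
  · obtain ⟨a, ha⟩ := fam_rel (2 * r) A hI
    obtain ⟨x, hx⟩ := datE (r := r) (by omega) (by omega) a (fun v hv hv0 => ha v hv hv0) hG
    have := hM n A.card _ _ x hx
    omega
  · obtain ⟨a, ha⟩ := fam_rel (2 * r + 1) A hI
    obtain ⟨m, hm⟩ : ∃ m, A.card = m + 1 := ⟨A.card - 1, by omega⟩
    clear hI
    revert a
    generalize A.card = k at *
    subst hm
    intro a ha
    obtain ⟨x, hx⟩ := datO (r := r) (by omega) (by omega) a (fun v hv hv0 => ha v hv hv0) hG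
    have := hM n m _ _ x hx
    omega

/-- `t = 14, 15, 18, 19, 22, 23` -/
theorem odd_radius : ∃ M : ℕ, ∀ t : ℕ, (t = 14 ∨ t = 15 ∨ t = 18 ∨ t = 19 ∨ t = 22 ∨ t = 23) →
    ∀ (n : ℕ) [NeZero n] (A : Finset (ZMod n)), Tight t A → A.card ≤ M := by
  obtain ⟨M7, h7⟩ := rad_all 7 (by decide) (by norm_num) (16 / 35) (by norm_num) rad7
  obtain ⟨M9, h9⟩ := rad_all 9 (by decide) (by norm_num) (128 / 315) (by norm_num) rad9
  obtain ⟨M11, h11⟩ := rad_all 11 (by decide) (by norm_num) (256 / 693) (by norm_num) rad11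
  refine ⟨M7 + M9 + M11, fun t ht => ?_⟩
  rcases ht with h | h | h | h | h | h <;> subst h <;> intro n _ A hA
  · exact (h7 n A (Or.inl hA)).trans (by omega)
  · exact (h7 n A (Or.inr hA)).trans (by omega)
  · exact (h9 n A (Or.inl hA)).trans (by omega)
  · exact (h9 n A (Or.inr hA)).trans (by omega)
  · exact (h11 n A (Or.inl hA)).trans (by omega)
  · exact (h11 n A (Or.inr hA)).trans (by omega)

end TightIndep.FX
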