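import Pool.Agent.Lib.MP_f31b39_co.FX.Defs

/-!
# FX-Ch: the characters of a quotient
-/

namespace TightIndep.FX

open Finset

theorem chr {n d : ℕ} [NeZero n] [NeZero d] (hd : d ∣ n) (c : ZMod d) (y : ZMod n) :
    (ZMod.stdAddChar ((((n / d * c.val : ℕ)) : ZMod n) * y) : ℂ) =
      ZMod.stdAddChar (c * ZMod.castHom hd (ZMod d) y) := by
  obtain ⟨m, hm⟩ : ∃ m : ℕ, y = (m : ZMod n) := ⟨y.val, (ZMod.natCast_zmod_val y).symm⟩
  obtain ⟨a, ha⟩ : ∃ a : ℕ, a = c.val := ⟨_, rfl⟩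
  have hc : c = (a : ZMod d) := by rw [ha, ZMod.natCast_zmod_val]
  obtain ⟨e, he⟩ := hd
  have hd0 : d ≠ 0 := NeZero.ne d
  have hn0 : n ≠ 0 := NeZero.ne n
  have he' : n / d = e := by rw [he]; exact Nat.mul_div_cancel_left e (Nat.pos_of_ne_zero hd0)
  have he0 : e ≠ 0 := by
    rintro rfl
    exact hn0 (by rw [he, mul_zero])
  have h1 : (((n / d * c.val : ℕ)) : ZMod n) * y = ((((e * a * m : ℕ) : ℤ)) : ZMod n) := by
    rw [hm, ← ha, he']
    push_cast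
    ring
  have h2 : c * ZMod.castHom ⟨e, he⟩ (ZMod d) y = ((((a * m : ℕ) : ℤ)) : ZMod d) := by
    rw [hm, map_natCast, hc]
    push_cast
    ring
  rw [h1, h2, ZMod.stdAddChar_coe, ZMod.stdAddChar_coe]
  congr 1
  have hdC : (d : ℂ) ≠ 0 := by exact_mod_cast hd0
  have heC : (e : ℂ) ≠ 0 := by exact_mod_cast he0
  have hnC : (n : ℂ) = d * e := by exact_mod_cast he
  rw [hnC]
  push_cast
  field_simp

end TightIndep.FX
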