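import Pool.Agent.Lib.MP_f31b39_co.FX.Defs

/-!
# FX-Lp: the polynomial near and off its small root
-/

namespace TightIndep.FX

open Finset

private theorem lpd_aux (P : Polynomial ℝ) (d : ℕ) (hd : P.natDegree ≤ d) : ∃ S : ℝ, 0 ≤ S ∧
    ∀ y : ℝ, |P.eval y| ≤ S * (1 + |y|) ^ d := by
  refine ⟨∑ i ∈ range (P.natDegree + 1), |P.coeff i|, sum_nonneg fun i _ => abs_nonneg _, fun y => ?_⟩
  rw [Polynomial.eval_eq_sum_range, sum_mul]
  refine (abs_sum_le_sum_abs _ _).trans (sum_le_sum fun i hi => ?_)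
  rw [abs_mul, abs_pow]
  refine mul_le_mul_of_nonneg_left ?_ (abs_nonneg _)
  have h1 : 0 ≤ |y| := abs_nonneg y
  have h2 : i ≤ d := by
    rw [mem_range] at hi
    omega
  calc |y| ^ i ≤ (1 + |y|) ^ i := pow_le_pow_left₀ h1 (by linarith) i
    _ ≤ (1 + |y|) ^ d := pow_le_pow_right₀ (by linarith) h2

theorem lp (P : Polynomial ℝ) (h0 : P.eval 0 = 1) (K C : ℝ) : ∃ A B : ℝ, 1 ≤ A ∧ 0 ≤ B ∧
    (∀ y : ℝ, |y| ≤ K → |P.eval y| ≤ B) ∧
    ∀ q y : ℝ, 1 ≤ q → |y| ≤ K → |y * P.eval y| ≤ C / q →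
      (|y| * q ≤ A ∧ 0 ≤ P.eval y ∧ P.eval y ≤ 1 + B / q) ∨ |P.eval y| ≤ B / q := by
  obtain ⟨S, hS0, hS⟩ := lpd_aux P.divX P.divX.natDegree le_rfl
  have hP : ∀ y : ℝ, P.eval y = P.divX.eval y * y + 1 := by
    intro y
    have h : P.coeff 0 = 1 := by rw [Polynomial.coeff_zero_eq_eval_zero, h0]
    conv_lhs => rw [← Polynomial.divX_mul_X_add P]
    rw [Polynomial.eval_add, Polynomial.eval_mul, Polynomial.eval_X, Polynomial.eval_C, h]
  set d := P.divX.natDegree with hd
  set L : ℝ := S * (1 + |K|) ^ d + 1 with hL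
  have hK0 : 0 ≤ |K| := abs_nonneg K
  have hC0 : 0 ≤ |C| := abs_nonneg C
  have hL1 : 1 ≤ L := by
    have : 0 ≤ S * (1 + |K|) ^ d := by positivity
    linarith
  have hL0 : 0 < L := by linarith
  have hR : ∀ y : ℝ, |y| ≤ K → |P.divX.eval y| ≤ L := by
    intro y hy
    refine (hS y).trans ?_
    have h1 : (1 + |y|) ^ d ≤ (1 + |K|) ^ d := pow_le_pow_left₀ (by positivity) (by linarith [le_abs_self K]) d
    have h2 := mul_le_mul_of_nonneg_left h1 hS0
    linarith
  have hPL : ∀ y : ℝ, |y| ≤ K → |P.eval y - 1| ≤ L * |y| := by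
    intro y hy
    rw [hP y, add_sub_cancel_right, abs_mul]
    exact mul_le_mul_of_nonneg_right (hR y hy) (abs_nonneg y)
  refine ⟨2 * |C| + 1, 1 + L * |K| + 2 * L * |C|, by linarith, by positivity, fun y hy => ?_, fun q y hq hy h => ?_⟩
  · have h1 := hPL y hy
    have h2 : L * |y| ≤ L * |K| := mul_le_mul_of_nonneg_left (hy.trans (le_abs_self K)) hL0.le
    have h3 : 0 ≤ 2 * L * |C| := by positivity
    have h4 : |P.eval y| ≤ |P.eval y - 1| + 1 := by
      have := abs_add_le (P.eval y - 1) 1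
      rw [sub_add_cancel, abs_one] at this
      exact this
    linarith
  · have hq0 : 0 < q := by linarith
    have hCq : C / q ≤ |C| / q := div_le_div_of_nonneg_right (le_abs_self C) hq0.le
    have h' : |y| * |P.eval y| ≤ |C| / q := by
      rw [← abs_mul]
      exact h.trans hCq
    have hB : 2 * L * |C| / q ≤ (1 + L * |K| + 2 * L * |C|) / q := by
      refine div_le_div_of_nonneg_right ?_ hq0.le
      have : 0 ≤ L * |K| := by positivity
      linarith
    have h1 := abs_le.1 (hPL y hy)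
    rcases le_or_gt (2 * L * |y|) 1 with hs | hs
    · left
      have h2 : 1 / 2 ≤ P.eval y := by linarith [h1.1]
      have h3 : |P.eval y| = P.eval y := abs_of_nonneg (by linarith)
      have h4 : |y| * (1 / 2) ≤ |C| / q := by
        refine le_trans ?_ h'
        rw [h3]
        exact mul_le_mul_of_nonneg_left h2 (abs_nonneg y)
      have h5 : |y| ≤ 2 * |C| / q := by
        have : 2 * |C| / q = 2 * (|C| / q) := by ring
        linarith
      refine ⟨?_, by linarith, ?_⟩
      · rw [le_div_iff₀ hq0] at h5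
        linarith
      · have h6 : L * |y| ≤ 2 * L * |C| / q := by
          have := mul_le_mul_of_nonneg_left h5 hL0.le
          have e : L * (2 * |C| / q) = 2 * L * |C| / q := by ring
          linarith
        linarith [h1.2]
    · right
      have hy0 : 0 ≤ |P.eval y| := abs_nonneg _
      refine le_trans ?_ hB
      have h2 : |P.eval y| ≤ 2 * L * (|y| * |P.eval y|) := by nlinarith
      have h3 := mul_le_mul_of_nonneg_left h' (by positivity : (0 : ℝ) ≤ 2 * L)
      have e : 2 * L * (|C| / q) = 2 * L * |C| / q := by ring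
      linarith

theorem lpd (P : Polynomial ℝ) (d : ℕ) (hd : P.natDegree ≤ d) : ∃ S : ℝ, 0 ≤ S ∧
    ∀ y : ℝ, |P.eval y| ≤ S * (1 + |y|) ^ d :=
  lpd_aux P d hd

end TightIndep.FX
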