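import Pool.Agent.Lib.MP_f31b39_co.FX.Sz
import Pool.Agent.Lib.MP_f31b39_co.AS.Approx

/-!
# FX-Nr: the equation of the main term
-/

namespace TightIndep.FX

open Finset

theorem nr (r : ℕ) (hr : 2 ≤ r) (w κ : ℝ) (P : Polynomial ℝ) (c : ℕ → ℝ) (hR : Rad r w κ P c) :
    ∃ C K : ℝ, 0 ≤ C ∧ 1 ≤ K ∧ ∀ (n N : ℕ) [NeZero n] (ι : Type) [Fintype ι] [DecidableEq ι]
    (g : ι → ZMod n) (x : ZMod n → ℝ), Dat r n N g x → 1 ≤ N → ∀ j : ZMod n, j ∉ Exc r n →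
      ∀ j' : ZMod n, (j' = j ∨ j' = 3 * j) →
        |x j' / √N| ≤ K ∧ |x j' / √N * P.eval (x j' / √N)| ≤ C / √N := by
  obtain ⟨K, hK1, hK⟩ := szb r (by omega)
  obtain ⟨C0, hC0, hC⟩ := cc_approx r K (by linarith)
  have hκ : 0 < |κ| := abs_pos.2 hR.kap
  refine ⟨C0 / |κ|, K, by positivity, hK1, ?_⟩
  intro n N _ ι _ _ g x hD hN j hj j' hj'
  obtain ⟨h2, h3, h4⟩ := hK n N ι g x hD hN j hj j' hj'
  have hN' : (1 : ℝ) ≤ N := by exact_mod_cast hN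
  have hq1 : 1 ≤ √(N : ℝ) := Real.one_le_sqrt.2 hN'
  have hq2 : √(N : ℝ) ^ 2 = N := Real.sq_sqrt (by linarith)
  generalize hq : √(N : ℝ) = q at *
  have hq0 : 0 < q := by linarith
  have hU : ∀ i, 1 ≤ i → i ≤ r → ‖xs x j' i‖ ≤ K * q := by
    intro i h1 h5
    unfold xs
    rw [Complex.norm_real]
    exact h4 i h1 h5
  have key := hC q (xs x j') hq1 hU
  have e1 : ((q ^ 2 : ℝ) : ℂ) = (N : ℂ) := by
    rw [hq2]
    rfl
  have e2 : xs x j' 1 / (q : ℂ) = ((x j' / q : ℝ) : ℂ) := by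
    unfold xs
    rw [Nat.cast_one, one_mul]
    push_cast
    rfl
  have e3 : ‖(q : ℂ) ^ r‖ = q ^ r := by
    rw [norm_pow, Complex.norm_real, Real.norm_eq_abs, abs_of_pos hq0]
  rw [e1, hD.eqn j' h2, e2, hR.fac, zero_sub, norm_neg, norm_mul, e3, Complex.norm_real, Real.norm_eq_abs, abs_mul] at key
  refine ⟨?_, ?_⟩
  · rw [abs_div, abs_of_pos hq0, div_le_iff₀ hq0]
    exact h3
  · rw [div_div, le_div_iff₀ (by positivity)]
    have h5 : 0 < q ^ r := by positivity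
    refine le_of_mul_le_mul_right ?_ h5
    calc |x j' / q * P.eval (x j' / q)| * (|κ| * q) * q ^ r
        = q * (q ^ r * (|κ| * |x j' / q * P.eval (x j' / q)|)) := by ring
      _ ≤ C0 * q ^ r := key

end TightIndep.FX
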