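import Pool.Agent.Lib.MP_f31b39_co.FX.Me
import Pool.Agent.Lib.MP_f31b39_co.FX.Nr
import Pool.Agent.Lib.MP_f31b39_co.FX.Lp

/-!
# FX-Cn: many small character sums
-/

namespace TightIndep.FX

open Finset

private theorem Cn_sum {n : ℕ} [NeZero n] (F : ZMod n → ℝ) (T E : Finset (ZMod n)) (b e : ℝ) (he : 0 ≤ e)
    (m : ℝ) (hE : (E.card : ℝ) ≤ m) (h1 : ∀ j, j ∉ E → F j ≤ (if j ∈ T then 1 else 0) + b)
    (hb : 0 ≤ b) (h2 : ∀ j ∈ E, F j ≤ e) : ∑ j : ZMod n, F j ≤ (T.card : ℝ) + n * b + m * e := by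
  have h3 : ∀ j : ZMod n, F j ≤ ((if j ∈ T then (1 : ℝ) else 0) + b) + (if j ∈ E then e else 0) := by
    intro j
    by_cases hj : j ∈ E
    · rw [if_pos hj]
      have h4 := h2 j hj
      have h5 : (0 : ℝ) ≤ (if j ∈ T then (1 : ℝ) else 0) := by split_ifs <;> norm_num
      linarith
    · rw [if_neg hj, add_zero]
      exact h1 j hj
  calc ∑ j : ZMod n, F j ≤ ∑ j : ZMod n, (((if j ∈ T then (1 : ℝ) else 0) + b) + (if j ∈ E then e else 0)) :=
        Finset.sum_le_sum fun j _ => h3 j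
    _ = (T.card : ℝ) + n * b + (E.card : ℝ) * e := by
        rw [Finset.sum_add_distrib, Finset.sum_add_distrib, Finset.sum_ite_mem, Finset.sum_ite_mem,
          Finset.univ_inter, Finset.univ_inter, Finset.sum_const, Finset.sum_const, Finset.sum_const,
          Finset.card_univ, ZMod.card, nsmul_eq_mul, nsmul_eq_mul, nsmul_eq_mul, mul_one]
    _ ≤ (T.card : ℝ) + n * b + m * e := by
        have := mul_le_mul_of_nonneg_right hE he
        linarith

theorem cn (r : ℕ) (hr : 2 ≤ r) (w κ : ℝ) (P : Polynomial ℝ) (c : ℕ → ℝ) (hR : Rad r w κ P c) :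
    ∃ A C : ℝ, 1 ≤ A ∧ 0 ≤ C ∧ ∀ (n N : ℕ) [NeZero n] (ι : Type) [Fintype ι] [DecidableEq ι]
    (g : ι → ZMod n) (x : ZMod n → ℝ), Dat r n N g x → 1 ≤ N →
      w * n - C * n / √N ≤ ((univ.filter fun j : ZMod n => |x j| ≤ A).card : ℝ) ∧
      w ^ 2 * n - C * n / √N ≤ ((univ.filter fun j : ZMod n => |x j| ≤ A ∧ |x (3 * j)| ≤ A).card : ℝ) := by
  obtain ⟨C1, hC1, hme⟩ := me r hr w κ P c hR
  obtain ⟨C2, K, hC2, hK, hnr⟩ := nr r hr w κ P c hR
  obtain ⟨A, B, hA, hB, hPB, hlp⟩ := lp P hR.one K C2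
  obtain ⟨S, hS, hlpd⟩ := lpd P (r - 1) (by have := hR.deg; omega)
  obtain ⟨S5, hS5⟩ : ∃ S5 : ℝ, S5 = S * 5 ^ (r - 1) := ⟨_, rfl⟩
  have hS50 : 0 ≤ S5 := by rw [hS5]; positivity
  obtain ⟨E, hE⟩ : ∃ E : ℝ, E = (S5 + S5 ^ 2) * (r.factorial : ℝ) := ⟨_, rfl⟩
  have hE0 : 0 ≤ E := by rw [hE]; positivity
  refine ⟨A, C1 + (2 * B + 2 * B ^ 2) + (6 * (r : ℝ)) ^ 2 * E, hA, by positivity, ?_⟩
  intro n N _ ι _ _ g x hD hN
  obtain ⟨m1, m2⟩ := hme n N ι g x hD hN
  have hnr' := hnr n N ι g x hD hN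
  have hx4 := fun j => x_le hD hN j
  obtain ⟨q, hq⟩ : ∃ q : ℝ, q = √(N : ℝ) := ⟨_, rfl⟩
  rw [← hq] at m1 m2 hnr' ⊢
  have hN1 : (1 : ℝ) ≤ (N : ℝ) := by exact_mod_cast hN
  have hq1 : 1 ≤ q := by
    rw [hq, Real.one_le_sqrt]
    exact hN1
  have hq0 : 0 < q := by linarith
  have hq2 : q ^ 2 = (N : ℝ) := by
    rw [hq]
    exact Real.sq_sqrt (by linarith)
  have hn0 : (0 : ℝ) ≤ (n : ℝ) := Nat.cast_nonneg n
  have hyq : ∀ j : ZMod n, |x j| = |x j / q| * q := by
    intro j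
    rw [abs_div, abs_of_pos hq0, div_mul_cancel₀ _ hq0.ne']
  -- the exceptional characters
  have hqr : q ^ (2 * r - 2) ≤ (r.factorial : ℝ) * n / q := by
    rw [le_div_iff₀ hq0]
    have h1 : q ^ (2 * r) ≤ (r.factorial : ℝ) * n := by
      rw [pow_mul, hq2]
      exact_mod_cast hD.nlo
    refine le_trans ?_ h1
    calc q ^ (2 * r - 2) * q = q ^ (2 * r - 2 + 1) := (pow_succ _ _).symm
      _ ≤ q ^ (2 * r) := pow_le_pow_right₀ hq1 (by omega)
  have hP5 : ∀ j : ZMod n, |P.eval (x j / q)| ≤ S5 * q ^ (r - 1) := by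
    intro j
    refine (hlpd _).trans ?_
    have h1 : |x j / q| ≤ 4 * q := by
      rw [abs_div, abs_of_pos hq0, div_le_iff₀ hq0]
      have := hx4 j
      rw [← hq2] at this
      calc |x j| ≤ 4 * q ^ 2 := this
        _ = 4 * q * q := by ring
    have h2 : (1 + |x j / q|) ^ (r - 1) ≤ (5 * q) ^ (r - 1) :=
      pow_le_pow_left₀ (by positivity) (by linarith) _
    calc S * (1 + |x j / q|) ^ (r - 1) ≤ S * (5 * q) ^ (r - 1) := mul_le_mul_of_nonneg_left h2 hS
      _ = S5 * q ^ (r - 1) := by rw [hS5, mul_pow]; ring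
  have hex1 : ∀ j : ZMod n, P.eval (x j / q) ≤ E * n / q := by
    intro j
    calc P.eval (x j / q) ≤ |P.eval (x j / q)| := le_abs_self _
      _ ≤ S5 * q ^ (r - 1) := hP5 j
      _ ≤ S5 * q ^ (2 * r - 2) := mul_le_mul_of_nonneg_left (pow_le_pow_right₀ hq1 (by omega)) hS50
      _ ≤ (S5 + S5 ^ 2) * q ^ (2 * r - 2) := by
          apply mul_le_mul_of_nonneg_right _ (by positivity)
          have := sq_nonneg S5
          linarith
      _ ≤ (S5 + S5 ^ 2) * ((r.factorial : ℝ) * n / q) := mul_le_mul_of_nonneg_left hqr (by positivity)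
      _ = E * n / q := by rw [hE]; ring
  have hex2 : ∀ j : ZMod n, P.eval (x j / q) * P.eval (x (3 * j) / q) ≤ E * n / q := by
    intro j
    calc P.eval (x j / q) * P.eval (x (3 * j) / q) ≤ |P.eval (x j / q) * P.eval (x (3 * j) / q)| := le_abs_self _
      _ = |P.eval (x j / q)| * |P.eval (x (3 * j) / q)| := abs_mul _ _
      _ ≤ (S5 * q ^ (r - 1)) * (S5 * q ^ (r - 1)) :=
          mul_le_mul (hP5 j) (hP5 (3 * j)) (abs_nonneg _) (by positivity)
      _ = S5 ^ 2 * q ^ (2 * r - 2) := by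
          have h1 : 2 * r - 2 = (r - 1) + (r - 1) := by omega
          rw [h1, pow_add]
          ring
      _ ≤ (S5 + S5 ^ 2) * q ^ (2 * r - 2) := by
          apply mul_le_mul_of_nonneg_right _ (by positivity)
          linarith
      _ ≤ (S5 + S5 ^ 2) * ((r.factorial : ℝ) * n / q) := mul_le_mul_of_nonneg_left hqr (by positivity)
      _ = E * n / q := by rw [hE]; ring
  have hEc : ((Exc r n).card : ℝ) ≤ (6 * (r : ℝ)) ^ 2 := by exact_mod_cast exc_card r n
  have hBq : 0 ≤ B / q := by positivity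
  -- the other characters
  have hcase : ∀ j : ZMod n, j ∉ Exc r n → ∀ j' : ZMod n, (j' = j ∨ j' = 3 * j) →
      |P.eval (x j' / q)| ≤ B ∧
        ((|x j'| ≤ A ∧ 0 ≤ P.eval (x j' / q) ∧ P.eval (x j' / q) ≤ 1 + B / q) ∨ |P.eval (x j' / q)| ≤ B / q) := by
    intro j hj j' hj'
    obtain ⟨h1, h2⟩ := hnr' j hj j' hj'
    refine ⟨hPB _ h1, ?_⟩
    rcases hlp q (x j' / q) hq1 h1 h2 with ⟨h3, h4, h5⟩ | h3
    · left
      refine ⟨?_, h4, h5⟩
      rw [hyq j']
      exact h3
    · right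
      exact h3
  have e1 : n * ((2 * B + 2 * B ^ 2) / q) + (6 * (r : ℝ)) ^ 2 * (E * n / q) =
      ((2 * B + 2 * B ^ 2) + (6 * (r : ℝ)) ^ 2 * E) * n / q := by ring
  have e2 : (C1 + (2 * B + 2 * B ^ 2) + (6 * (r : ℝ)) ^ 2 * E) * n / q =
      C1 * n / q + ((2 * B + 2 * B ^ 2) + (6 * (r : ℝ)) ^ 2 * E) * n / q := by ring
  have hb0 : 0 ≤ (2 * B + 2 * B ^ 2) / q := by positivity
  have hBb : B / q ≤ (2 * B + 2 * B ^ 2) / q := by
    apply div_le_div_of_nonneg_right _ hq0.le
    have := sq_nonneg B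
    linarith
  have hen : 0 ≤ E * n / q := by positivity
  constructor
  · have h1 := Cn_sum (fun j : ZMod n => P.eval (x j / q)) (univ.filter fun j : ZMod n => |x j| ≤ A)
      (Exc r n) ((2 * B + 2 * B ^ 2) / q) (E * n / q) hen _ hEc (by
        intro j hj
        obtain ⟨-, h2⟩ := hcase j hj j (Or.inl rfl)
        rcases h2 with ⟨h3, -, h5⟩ | h3
        · have hm : j ∈ (univ.filter fun j : ZMod n => |x j| ≤ A) := by
            rw [Finset.mem_filter]
            exact ⟨Finset.mem_univ _, h3⟩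
          rw [if_pos hm]
          linarith
        · have h4 : (0 : ℝ) ≤ (if j ∈ (univ.filter fun j : ZMod n => |x j| ≤ A) then (1 : ℝ) else 0) := by
            split_ifs <;> norm_num
          have h5 := le_abs_self (P.eval (x j / q))
          linarith) hb0 (fun j _ => hex1 j)
    rw [e2]
    linarith [h1, m1, e1]
  · have h1 := Cn_sum (fun j : ZMod n => P.eval (x j / q) * P.eval (x (3 * j) / q))
      (univ.filter fun j : ZMod n => |x j| ≤ A ∧ |x (3 * j)| ≤ A)
      (Exc r n) ((2 * B + 2 * B ^ 2) / q) (E * n / q) hen _ hEc (by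
        intro j hj
        obtain ⟨b1, h2⟩ := hcase j hj j (Or.inl rfl)
        obtain ⟨b2, h2'⟩ := hcase j hj (3 * j) (Or.inr rfl)
        have h4 : (0 : ℝ) ≤ (if j ∈ (univ.filter fun j : ZMod n => |x j| ≤ A ∧ |x (3 * j)| ≤ A) then (1 : ℝ) else 0) := by
          split_ifs <;> norm_num
        have hBB : B * B / q ≤ (2 * B + 2 * B ^ 2) / q := by
          apply div_le_div_of_nonneg_right _ hq0.le
          have h12 := sq_nonneg B
          have h13 : B * B = B ^ 2 := (sq B).symm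
          linarith
        have hab := le_abs_self (P.eval (x j / q) * P.eval (x (3 * j) / q))
        rw [abs_mul] at hab
        rcases h2 with ⟨h3, h5, h6⟩ | h3
        · rcases h2' with ⟨h3', h5', h6'⟩ | h3'
          · have hm : j ∈ (univ.filter fun j : ZMod n => |x j| ≤ A ∧ |x (3 * j)| ≤ A) := by
              rw [Finset.mem_filter]
              exact ⟨Finset.mem_univ _, h3, h3'⟩
            rw [if_pos hm]
            have h7 : P.eval (x j / q) * P.eval (x (3 * j) / q) ≤ (1 + B / q) * (1 + B / q) :=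
              mul_le_mul h6 h6' h5' (by positivity)
            have h8 : (B / q) * (B / q) ≤ B ^ 2 / q := by
              have h9 : (B / q) * (B / q) = B ^ 2 / q / q := by ring
              rw [h9]
              exact div_le_self (by positivity) hq1
            have h10 : (2 * B + 2 * B ^ 2) / q = 2 * (B / q) + 2 * (B ^ 2 / q) := by ring
            have h11 : 0 ≤ B ^ 2 / q := by positivity
            have h12 : (1 + B / q) * (1 + B / q) = 1 + 2 * (B / q) + (B / q) * (B / q) := by ring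
            linarith
          · have h7 : |P.eval (x j / q)| * |P.eval (x (3 * j) / q)| ≤ B * (B / q) :=
              mul_le_mul b1 h3' (abs_nonneg _) hB
            have h8 : B * (B / q) = B * B / q := by ring
            linarith
        · have h7 : |P.eval (x j / q)| * |P.eval (x (3 * j) / q)| ≤ (B / q) * B :=
            mul_le_mul h3 b2 (abs_nonneg _) hBq
          have h8 : (B / q) * B = B * B / q := by ring
          linarith) hb0 (fun j _ => hex2 j)
    rw [e2]
    linarith [h1, m2, e1]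

end TightIndep.FX
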