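import Pool.Agent.Lib.MP_f31b39_co.NO.Defs

/-!
# Board FX (tight sets of odd radius, all characters): definitions
-/

namespace TightIndep.FX

open Finset

/-- the power sums belonging to the character `j` -/
noncomputable def xs {n : ℕ} (x : ZMod n → ℝ) (j : ZMod n) (i : ℕ) : ℂ := ((x ((i : ZMod n) * j) : ℝ) : ℂ)

/-- the real character sums of a tight `2 r`- or `(2 r + 1)`-independent family in `ZMod n` -/
structure Dat (r n N : ℕ) [NeZero n] {ι : Type} [Fintype ι] [DecidableEq ι] (g : ι → ZMod n) (x : ZMod n → ℝ) :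
    Prop where
  lo : 2 * N ≤ Fintype.card ι
  hi : Fintype.card ι ≤ 2 * N + 2
  nlo : N ^ r ≤ r.factorial * n
  nhi : n ≤ 3 ^ (r + 1) * (N + 1) ^ r
  dif : ∀ h : ZMod n, h ≠ 0 → (univ.filter fun p : ι × ι => g p.1 - g p.2 = h).card ≤ 2
  hx : ∀ j, (x j : ℂ) = ∑ i, ZMod.stdAddChar (j * g i)
  eqn : ∀ j : ZMod n, 2 * j ≠ 0 → cc (pw N (xs x j)) r = 0
  orth : ∀ k l : ℕ, k ≤ r → l ≤ r → ∃ c : ℕ,
    ∑ j : ZMod n, cc (pw N (xs x j)) k * cc (pw N (xs x (3 * j))) l = (n : ℂ) * c ∧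
    c ≤ 3 * (2 * N + 3) ^ min k l

open Classical in
/-- the exceptional characters: those of order at most `6 r` -/
noncomputable def Exc (r n : ℕ) [NeZero n] : Finset (ZMod n) :=
  univ.filter fun j => ∃ k ∈ Icc 1 (6 * r), ((k : ℕ) : ZMod n) * j = 0

/-- the polynomial of the radius `r`: `GG r = κ y P(y)`, `P(0) = 1`, and its expansion `P = ∑ k < r, c k * GG k` with `c 0 = w` -/
structure Rad (r : ℕ) (w κ : ℝ) (P : Polynomial ℝ) (c : ℕ → ℝ) : Prop where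
  kap : κ ≠ 0
  one : P.eval 0 = 1
  deg : P.natDegree + 1 ≤ r
  wei : c 0 = w
  fac : ∀ y : ℝ, (GG r).eval (y : ℂ) = ((κ * (y * P.eval y) : ℝ) : ℂ)
  exp : ∀ y : ℝ, ((P.eval y : ℝ) : ℂ) = ∑ k ∈ range r, (c k : ℂ) * (GG k).eval (y : ℂ)

end TightIndep.FX
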