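import Mathlib

/-!
# FX-Ds: a sum over divisors
-/

namespace TightIndep.FX

open Finset

private lemma Ds_mul (a b : ℕ) (h : a.Coprime b) :
    ∑ e ∈ (a * b).divisors, 1 / √(e : ℝ) =
      (∑ e ∈ a.divisors, 1 / √(e : ℝ)) * ∑ e ∈ b.divisors, 1 / √(e : ℝ) := by
  have h1 : (a * b).divisors = (a.divisors ×ˢ b.divisors).image (fun p => p.1 * p.2) := by
    rw [Nat.divisors_mul]
    rfl
  rw [h1, Finset.sum_image h.mul_injOn_divisors, Finset.sum_product, Finset.sum_mul_sum]
  refine Finset.sum_congr rfl fun x _ => Finset.sum_congr rfl fun y _ => ?_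
  simp only [Nat.cast_mul]
  rw [Real.sqrt_mul (Nat.cast_nonneg _), one_div_mul_one_div]

private lemma Ds_term (p i : ℕ) (hp : 2 ≤ p) : 1 / √((p ^ i : ℕ) : ℝ) ≤ (3 / 4 : ℝ) ^ i := by
  have h2 : (2 : ℝ) ≤ p := by exact_mod_cast hp
  have h1 : (4 / 3 : ℝ) ^ i ≤ √((p ^ i : ℕ) : ℝ) := by
    apply Real.le_sqrt_of_sq_le
    rw [← pow_mul, mul_comm, pow_mul]
    push_cast
    exact pow_le_pow_left₀ (by positivity) (by norm_num; linarith) i
  have h3 : (3 / 4 : ℝ) ^ i = 1 / (4 / 3 : ℝ) ^ i := by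
    rw [← one_div_pow]
    norm_num
  rw [h3]
  exact one_div_le_one_div_of_le (by positivity) h1

private lemma Ds_geom (n : ℕ) : ∑ i ∈ range n, (3 / 4 : ℝ) ^ i = 4 - 4 * (3 / 4) ^ n := by
  induction n with
  | zero => simp
  | succ n ih =>
    rw [Finset.sum_range_succ, ih, pow_succ]
    ring

theorem ds (n : ℕ) (hn : 0 < n) : ∑ e ∈ n.divisors, 1 / √(e : ℝ) ≤ 4 ^ n.primeFactors.card := by
  induction n using Nat.recOnPosPrimePosCoprime with
  | prime_pow p k hp hk =>
    rw [Nat.sum_divisors_prime_pow hp, Nat.primeFactors_prime_pow hk.ne' hp, Finset.card_singleton,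
      pow_one]
    calc ∑ x ∈ range (k + 1), 1 / √((p ^ x : ℕ) : ℝ)
        ≤ ∑ x ∈ range (k + 1), (3 / 4 : ℝ) ^ x :=
          Finset.sum_le_sum fun x _ => Ds_term p x hp.two_le
      _ = 4 - 4 * (3 / 4) ^ (k + 1) := Ds_geom (k + 1)
      _ ≤ 4 := by
          have : (0 : ℝ) ≤ (3 / 4) ^ (k + 1) := by positivity
          linarith
  | zero => exact absurd hn (lt_irrefl 0)
  | one => simp
  | coprime a b ha hb hab iha ihb =>
    rw [Ds_mul a b hab, hab.primeFactors_mul,
      Finset.card_union_of_disjoint hab.disjoint_primeFactors, pow_add]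
    exact mul_le_mul (iha (by omega)) (ihb (by omega))
      (Finset.sum_nonneg fun e _ => by positivity) (by positivity)

end TightIndep.FX
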