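import Pool.Agent.Lib.MP_f31b39_co.FX.Defs

/-!
# FX-Ec: the number of the exceptional characters
-/

namespace TightIndep.FX

open Finset

private theorem fib (n k : ℕ) [NeZero n] (hk : 0 < k) :
    (univ.filter fun j : ZMod n => ((k : ℕ) : ZMod n) * j = 0).card ≤ k := by
  classical
  have h := IsAddCyclic.card_nsmul_eq_zero_le (α := ZMod n) hk
  refine le_trans (le_of_eq ?_) h
  congr 1
  refine Finset.filter_congr fun j _ => ?_
  rw [nsmul_eq_mul]

theorem exc_card (r n : ℕ) [NeZero n] : (Exc r n).card ≤ (6 * r) ^ 2 := by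
  classical
  have h1 : Exc r n ⊆ (Icc 1 (6 * r)).biUnion fun k => univ.filter fun j : ZMod n => ((k : ℕ) : ZMod n) * j = 0 := by
    intro j hj
    simp only [Exc, mem_filter] at hj
    obtain ⟨-, k, hk, hkj⟩ := hj
    exact mem_biUnion.2 ⟨k, hk, mem_filter.2 ⟨mem_univ _, hkj⟩⟩
  have h2 : ∑ k ∈ Icc 1 (6 * r), (univ.filter fun j : ZMod n => ((k : ℕ) : ZMod n) * j = 0).card ≤ ∑ _k ∈ Icc 1 (6 * r), 6 * r := by
    refine Finset.sum_le_sum fun k hk => ?_
    have hk' := Finset.mem_Icc.1 hk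
    exact (fib n k (by omega)).trans hk'.2
  refine (Finset.card_le_card h1).trans (Finset.card_biUnion_le.trans (h2.trans (le_of_eq ?_)))
  rw [Finset.sum_const, Nat.card_Icc, smul_eq_mul, Nat.add_sub_cancel]
  ring

end TightIndep.FX
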