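import Pool.Agent.Lib.MP_f31b39_co.FX.Defs

/-!
# FX-Gb: trivial bounds
-/

namespace TightIndep.FX

open Finset

private theorem Gb_pair (k : ℕ) : (∃ S : ℝ, 0 ≤ S ∧ ∀ z : ℂ, ‖(GG k).eval z‖ ≤ S * (1 + ‖z‖) ^ k) ∧
    ∃ S : ℝ, 0 ≤ S ∧ ∀ z : ℂ, ‖(GG (k + 1)).eval z‖ ≤ S * (1 + ‖z‖) ^ (k + 1) := by
  induction k with
  | zero =>
    refine ⟨⟨1, zero_le_one, fun z => ?_⟩, ⟨1, zero_le_one, fun z => ?_⟩⟩
    · rw [GG, Polynomial.eval_one, norm_one, pow_zero, mul_one]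
    · rw [zero_add, GG, Polynomial.eval_X, pow_one, one_mul]
      linarith
  | succ k ih =>
    obtain ⟨⟨S, hS, h⟩, ⟨T, hT, h'⟩⟩ := ih
    refine ⟨⟨T, hT, h'⟩, ⟨T + 2 * S, by positivity, fun z => ?_⟩⟩
    have e : (GG (k + 1 + 1)).eval z = (1 / ((k : ℂ) + 2)) * (z * (GG (k + 1)).eval z - 2 * (GG k).eval z) := by
      show (GG (k + 2)).eval z = _
      rw [GG]
      simp only [Polynomial.eval_mul, Polynomial.eval_C, Polynomial.eval_sub, Polynomial.eval_X, Polynomial.eval_ofNat]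
    have hk : ‖(1 / ((k : ℂ) + 2))‖ ≤ 1 := by
      have h2 : ((k : ℂ) + 2) = ((k + 2 : ℕ) : ℂ) := by push_cast; ring
      rw [h2, norm_div, norm_one, Complex.norm_natCast]
      rw [div_le_one (by positivity)]
      exact_mod_cast (by omega : 1 ≤ k + 2)
    have hz : 0 ≤ ‖z‖ := norm_nonneg z
    have h1 : (1 : ℝ) ≤ 1 + ‖z‖ := by linarith
    have hp : 0 ≤ (1 + ‖z‖) ^ k := by positivity
    rw [e, norm_mul]
    have h3 : ‖z * (GG (k + 1)).eval z - 2 * (GG k).eval z‖ ≤ ‖z‖ * (T * (1 + ‖z‖) ^ (k + 1)) + 2 * (S * (1 + ‖z‖) ^ k) := by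
      refine (norm_sub_le _ _).trans ?_
      rw [norm_mul, norm_mul, Complex.norm_ofNat]
      exact add_le_add (mul_le_mul_of_nonneg_left (h' z) hz) (mul_le_mul_of_nonneg_left (h z) (by norm_num))
    have h4 : ‖z‖ * (T * (1 + ‖z‖) ^ (k + 1)) ≤ T * (1 + ‖z‖) ^ (k + 1 + 1) := by
      have : ‖z‖ * (T * (1 + ‖z‖) ^ (k + 1)) ≤ (1 + ‖z‖) * (T * (1 + ‖z‖) ^ (k + 1)) :=
        mul_le_mul_of_nonneg_right (by linarith) (by positivity)
      calc _ ≤ _ := this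
        _ = _ := by ring
    have h5 : 2 * (S * (1 + ‖z‖) ^ k) ≤ 2 * S * (1 + ‖z‖) ^ (k + 1 + 1) := by
      have : (1 + ‖z‖) ^ k ≤ (1 + ‖z‖) ^ (k + 1 + 1) := pow_le_pow_right₀ h1 (by omega)
      have h6 := mul_le_mul_of_nonneg_left this (by positivity : (0 : ℝ) ≤ 2 * S)
      linarith
    calc _ ≤ 1 * ‖z * (GG (k + 1)).eval z - 2 * (GG k).eval z‖ :=
          mul_le_mul_of_nonneg_right hk (norm_nonneg _)
      _ ≤ _ := by
          rw [one_mul, add_mul]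
          linarith

theorem gb (k : ℕ) : ∃ S : ℝ, 0 ≤ S ∧ ∀ z : ℂ, ‖(GG k).eval z‖ ≤ S * (1 + ‖z‖) ^ k := (Gb_pair k).1

theorem cb (k : ℕ) : ∃ S : ℝ, 0 ≤ S ∧ ∀ (N : ℕ) (U : ℕ → ℂ), 1 ≤ N → (∀ i, ‖U i‖ ≤ 4 * N) →
    ‖cc (pw N U) k‖ ≤ S * (N : ℝ) ^ k := by
  refine ⟨6 ^ k, by positivity, fun N U hN hU => ?_⟩
  have hN' : (1 : ℝ) ≤ N := by exact_mod_cast hN
  have hP : ∀ i, ‖pw N U i‖ ≤ 6 * N := by
    intro i
    rw [pw]
    refine (norm_sub_le _ _).trans ?_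
    have h1 := hU i
    have h2 : ‖(if Even i then 2 * (N : ℂ) else 0)‖ ≤ 2 * N := by
      split_ifs
      · rw [norm_mul, Complex.norm_natCast, Complex.norm_ofNat]
      · rw [norm_zero]; positivity
    linarith
  rw [← mul_pow]
  induction k using Nat.strong_induction_on with
  | _ k ih =>
    rcases k with _ | k
    · rw [cc_zero, norm_one, pow_zero]
    · have hk : (0 : ℝ) < (k : ℝ) + 1 := by positivity
      have e : ‖((k : ℂ) + 1)‖ = (k : ℝ) + 1 := by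
        have h2 : ((k : ℂ) + 1) = ((k + 1 : ℕ) : ℂ) := by push_cast; ring
        rw [h2, Complex.norm_natCast]
        push_cast
        ring
      rw [cc_succ, norm_div, e, div_le_iff₀ hk]
      refine (norm_sum_le _ _).trans ?_
      have : ∀ i ∈ range (k + 1), ‖pw N U (i + 1) * cc (pw N U) (k - i)‖ ≤ (6 * (N : ℝ)) ^ (k + 1) := by
        intro i hi
        rw [norm_mul, pow_succ']
        refine mul_le_mul (hP _) ?_ (norm_nonneg _) (by positivity)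
        refine (ih (k - i) (by omega)).trans ?_
        exact pow_le_pow_right₀ (by linarith) (by omega)
      refine (sum_le_sum this).trans ?_
      rw [sum_const, card_range, nsmul_eq_mul]
      push_cast
      linarith

theorem x_le {r n N : ℕ} [NeZero n] {ι : Type} [Fintype ι] [DecidableEq ι] {g : ι → ZMod n} {x : ZMod n → ℝ}
    (hD : Dat r n N g x) (hN : 1 ≤ N) (j : ZMod n) : |x j| ≤ 4 * N := by
  have h1 : |x j| = ‖(x j : ℂ)‖ := by rw [Complex.norm_real, Real.norm_eq_abs]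
  rw [h1, hD.hx j]
  refine (norm_sum_le _ _).trans ?_
  have h2 : ∀ i ∈ (univ : Finset ι), ‖(ZMod.stdAddChar (j * g i) : ℂ)‖ ≤ 1 := by
    intro i _
    rw [AddChar.norm_apply]
  refine (sum_le_sum h2).trans ?_
  rw [sum_const, nsmul_eq_mul, mul_one, card_univ]
  have h3 : ((Fintype.card ι : ℕ) : ℝ) ≤ 2 * N + 2 := by exact_mod_cast hD.hi
  have h4 : (1 : ℝ) ≤ N := by exact_mod_cast hN
  linarith

end TightIndep.FX
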