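import Pool.Agent.Lib.MP_f31b39_co.FX.Sz
import Pool.Agent.Lib.MP_f31b39_co.FX.Ec
import Pool.Agent.Lib.MP_f31b39_co.FX.Gb
import Pool.Agent.Lib.MP_f31b39_co.AS.Approx

/-!
# FX-Ex: the means of the products `GG k (y j) GG l (y (3 j))`
-/

namespace TightIndep.FX

open Finset

private theorem ex_prod {a b a' b' : ℂ} {e1 e2 A B : ℝ} (h1 : ‖a - a'‖ ≤ e1) (h2 : ‖b - b'‖ ≤ e2)
    (hA : ‖a‖ ≤ A) (hB : ‖b‖ ≤ B) : ‖a * b - a' * b'‖ ≤ e1 * B + (A + e1) * e2 := by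
  have e : a * b - a' * b' = (a - a') * b + a' * (b - b') := by ring
  have ha' : ‖a'‖ ≤ A + e1 := by
    have h3 : a' = a - (a - a') := by ring
    have h4 : ‖a - (a - a')‖ ≤ ‖a‖ + ‖a - a'‖ := norm_sub_le _ _
    rw [h3]
    linarith
  rw [e]
  refine (norm_add_le _ _).trans ?_
  rw [norm_mul, norm_mul]
  have h0 : 0 ≤ e1 := (norm_nonneg _).trans h1
  exact add_le_add (mul_le_mul h1 hB (norm_nonneg _) h0)
    (mul_le_mul ha' h2 (norm_nonneg _) ((norm_nonneg _).trans ha'))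

private theorem ex_good {k : ℕ} {K q Ca Sg : ℝ} {N : ℕ} {n : ℕ} [NeZero n] {x : ZMod n → ℝ} (hK : 0 ≤ K)
    (hq : 1 ≤ q) (hqN : q ^ 2 = N) (hSg0 : 0 ≤ Sg)
    (hCa : ∀ (q : ℝ) (U : ℕ → ℂ), 1 ≤ q → (∀ i, 1 ≤ i → i ≤ k → ‖U i‖ ≤ K * q) →
      q * ‖cc (pw ((q ^ 2 : ℝ) : ℂ) U) k - q ^ k * (GG k).eval (U 1 / q)‖ ≤ Ca * q ^ k)
    (hSg : ∀ z : ℂ, ‖(GG k).eval z‖ ≤ Sg * (1 + ‖z‖) ^ k) {j : ZMod n}
    (hx1 : |x j| ≤ K * q) (hx : ∀ i : ℕ, 1 ≤ i → i ≤ k → |x ((i : ZMod n) * j)| ≤ K * q) :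
    ‖(GG k).eval ((x j / q : ℝ) : ℂ) - ((q : ℂ) ^ k)⁻¹ * cc (pw N (xs x j)) k‖ ≤ Ca / q ∧
      ‖(GG k).eval ((x j / q : ℝ) : ℂ)‖ ≤ Sg * (1 + K) ^ k := by
  have hq0 : 0 < q := by linarith
  have hqc : (q : ℂ) ≠ 0 := by exact_mod_cast hq0.ne'
  have hxs : ∀ i, ‖xs x j i‖ = |x ((i : ZMod n) * j)| := fun i => by
    unfold xs
    rw [Complex.norm_real, Real.norm_eq_abs]
  have h1 := hCa q (xs x j) hq fun i hi hik => by
    rw [hxs]
    exact hx i hi hik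
  have e1 : (((q ^ 2 : ℝ)) : ℂ) = (N : ℂ) := by
    rw [hqN]
    norm_cast
  have e2 : xs x j 1 / (q : ℂ) = ((x j / q : ℝ) : ℂ) := by
    unfold xs
    rw [Nat.cast_one, one_mul, Complex.ofReal_div]
  rw [e1, e2] at h1
  constructor
  · have e3 : (GG k).eval ((x j / q : ℝ) : ℂ) - ((q : ℂ) ^ k)⁻¹ * cc (pw N (xs x j)) k =
        -(((q : ℂ) ^ k)⁻¹ * (cc (pw N (xs x j)) k - (q : ℂ) ^ k * (GG k).eval ((x j / q : ℝ) : ℂ))) := by
      have : (q : ℂ) ^ k ≠ 0 := pow_ne_zero _ hqc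
      field_simp
      ring
    rw [e3, norm_neg, norm_mul, norm_inv, norm_pow, Complex.norm_real, Real.norm_of_nonneg hq0.le,
      le_div_iff₀ hq0]
    have hqk : 0 < q ^ k := by positivity
    calc (q ^ k)⁻¹ * ‖cc (pw N (xs x j)) k - (q : ℂ) ^ k * (GG k).eval ((x j / q : ℝ) : ℂ)‖ * q
        = (q ^ k)⁻¹ * (q * ‖cc (pw N (xs x j)) k - (q : ℂ) ^ k * (GG k).eval ((x j / q : ℝ) : ℂ)‖) := by ring
      _ ≤ (q ^ k)⁻¹ * (Ca * q ^ k) := mul_le_mul_of_nonneg_left h1 (by positivity)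
      _ = Ca := by field_simp
  · refine (hSg _).trans (mul_le_mul_of_nonneg_left ?_ hSg0)
    refine pow_le_pow_left₀ (by positivity) ?_ _
    rw [Complex.norm_real, Real.norm_eq_abs, abs_div, abs_of_pos hq0]
    have h2 : |x j| / q ≤ K := by
      rw [div_le_iff₀ hq0]
      exact hx1
    linarith

private theorem ex_bad {k : ℕ} {q Sc Sg : ℝ} {N : ℕ} {n : ℕ} [NeZero n] {x : ZMod n → ℝ}
    (hq : 1 ≤ q) (hqN : q ^ 2 = N) (hN : 1 ≤ N) (hSg0 : 0 ≤ Sg)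
    (hSc : ∀ (N : ℕ) (U : ℕ → ℂ), 1 ≤ N → (∀ i, ‖U i‖ ≤ 4 * N) → ‖cc (pw N U) k‖ ≤ Sc * (N : ℝ) ^ k)
    (hSg : ∀ z : ℂ, ‖(GG k).eval z‖ ≤ Sg * (1 + ‖z‖) ^ k)
    (hx : ∀ j : ZMod n, |x j| ≤ 4 * N) (j : ZMod n) :
    ‖(GG k).eval ((x j / q : ℝ) : ℂ)‖ ≤ Sg * 5 ^ k * q ^ k ∧
      ‖((q : ℂ) ^ k)⁻¹ * cc (pw N (xs x j)) k‖ ≤ Sc * q ^ k := by
  have hq0 : 0 < q := by linarith
  have hxs : ∀ i, ‖xs x j i‖ = |x ((i : ZMod n) * j)| := fun i => by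
    unfold xs
    rw [Complex.norm_real, Real.norm_eq_abs]
  constructor
  · rw [mul_assoc, ← mul_pow]
    refine (hSg _).trans (mul_le_mul_of_nonneg_left ?_ hSg0)
    refine pow_le_pow_left₀ (by positivity) ?_ _
    rw [Complex.norm_real, Real.norm_eq_abs, abs_div, abs_of_pos hq0]
    have h2 : |x j| / q ≤ 4 * q := by
      rw [div_le_iff₀ hq0]
      have := hx j
      rw [← hqN] at this
      linarith
    linarith
  · have h1 := hSc N (xs x j) hN fun i => by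
      rw [hxs]
      exact hx _
    rw [norm_mul, norm_inv, norm_pow, Complex.norm_real, Real.norm_of_nonneg hq0.le]
    have hqk : 0 < q ^ k := by positivity
    calc (q ^ k)⁻¹ * ‖cc (pw N (xs x j)) k‖ ≤ (q ^ k)⁻¹ * (Sc * (N : ℝ) ^ k) :=
          mul_le_mul_of_nonneg_left h1 (by positivity)
      _ = Sc * q ^ k := by
          rw [← hqN, ← pow_mul, mul_comm 2 k, pow_mul, sq]
          field_simp

theorem ex (r : ℕ) (hr : 2 ≤ r) : ∃ C : ℝ, 0 ≤ C ∧ ∀ (n N : ℕ) [NeZero n] (ι : Type) [Fintype ι] [DecidableEq ι]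
    (g : ι → ZMod n) (x : ZMod n → ℝ), Dat r n N g x → 1 ≤ N → ∀ k l : ℕ, k < r → l < r →
      ‖∑ j : ZMod n, (GG k).eval (((x j / √N : ℝ)) : ℂ) * (GG l).eval (((x (3 * j) / √N : ℝ)) : ℂ) -
        ((√N : ℂ) ^ (k + l))⁻¹ * ∑ j : ZMod n, cc (pw N (xs x j)) k * cc (pw N (xs x (3 * j))) l‖ ≤ C * n / √N := by
  classical
  obtain ⟨K, hK1, hK⟩ := szb r (by omega)
  have hK0 : 0 ≤ K := by linarith
  choose Ca hCa0 hCa using fun k => cc_approx k K hK0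
  choose Sg hSg0 hSg using gb
  choose Sc hSc0 hSc using cb
  -- the constants
  obtain ⟨W1, hW1⟩ : ∃ W : ℕ → ℕ → ℝ, W = fun k l => Ca k * (Sg l * (1 + K) ^ l) +
    (Sg k * (1 + K) ^ k + Ca k) * Ca l := ⟨_, rfl⟩
  obtain ⟨W2, hW2⟩ : ∃ W : ℕ → ℕ → ℝ, W = fun k l => (Sg k * 5 ^ k) * (Sg l * 5 ^ l) + Sc k * Sc l := ⟨_, rfl⟩
  have hW1p : ∀ k l, 0 ≤ W1 k l := fun k l => by
    rw [hW1]
    have := hCa0 k
    have := hCa0 l
    have := hSg0 k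
    have := hSg0 l
    positivity
  have hW2p : ∀ k l, 0 ≤ W2 k l := fun k l => by
    rw [hW2]
    have := hSc0 k
    have := hSc0 l
    have := hSg0 k
    have := hSg0 l
    positivity
  obtain ⟨V, hV⟩ : ∃ V : ℕ → ℕ → ℝ, V = fun k l => W1 k l + ((6 * r) ^ 2 : ℕ) * (W2 k l * r.factorial) := ⟨_, rfl⟩
  have hVp : ∀ k l, 0 ≤ V k l := fun k l => by
    rw [hV]
    have := hW1p k l
    have := hW2p k l
    positivity
  refine ⟨∑ k ∈ range r, ∑ l ∈ range r, V k l, sum_nonneg fun k _ => sum_nonneg fun l _ => hVp k l, ?_⟩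
  intro n N _ ι _ _ g x hD hN k l hk hl
  set q : ℝ := √(N : ℝ) with hqd
  have hN1 : (1 : ℝ) ≤ N := by exact_mod_cast hN
  have hq : 1 ≤ q := by
    rw [hqd]
    exact Real.one_le_sqrt.2 hN1
  have hq0 : 0 < q := by linarith
  have hqN : q ^ 2 = N := Real.sq_sqrt (by linarith)
  have hVC : V k l ≤ ∑ k ∈ range r, ∑ l ∈ range r, V k l := by
    have h1 : V k l ≤ ∑ l ∈ range r, V k l :=
      single_le_sum (f := fun l => V k l) (fun l _ => hVp k l) (mem_range.2 hl)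
    have h2 : ∑ l ∈ range r, V k l ≤ ∑ k ∈ range r, ∑ l ∈ range r, V k l :=
      single_le_sum (f := fun k => ∑ l ∈ range r, V k l) (fun k _ => sum_nonneg fun l _ => hVp k l) (mem_range.2 hk)
    exact h1.trans h2
  have hn0 : (0 : ℝ) ≤ n := Nat.cast_nonneg _
  have hx4 : ∀ j : ZMod n, |x j| ≤ 4 * N := x_le hD hN
  have hqc : (q : ℂ) ≠ 0 := by exact_mod_cast hq0.ne'
  -- the terms
  obtain ⟨t, ht⟩ : ∃ t : ZMod n → ℂ, t = fun j => (GG k).eval (((x j / q : ℝ)) : ℂ) * (GG l).eval (((x (3 * j) / q : ℝ)) : ℂ) -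
    (((q : ℂ) ^ k)⁻¹ * cc (pw N (xs x j)) k) * (((q : ℂ) ^ l)⁻¹ * cc (pw N (xs x (3 * j))) l) := ⟨_, rfl⟩
  have hsum : ∑ j : ZMod n, (GG k).eval (((x j / q : ℝ)) : ℂ) * (GG l).eval (((x (3 * j) / q : ℝ)) : ℂ) -
        ((q : ℂ) ^ (k + l))⁻¹ * ∑ j : ZMod n, cc (pw N (xs x j)) k * cc (pw N (xs x (3 * j))) l = ∑ j, t j := by
    rw [mul_sum, ← sum_sub_distrib]
    refine sum_congr rfl fun j _ => ?_
    rw [ht, pow_add, mul_inv]
    ring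
  have hgood : ∀ j, j ∉ Exc r n → ‖t j‖ ≤ W1 k l / q := by
    intro j hj
    obtain ⟨-, a1, a2⟩ := hK n N ι g x hD hN j hj j (Or.inl rfl)
    obtain ⟨-, b1, b2⟩ := hK n N ι g x hD hN j hj (3 * j) (Or.inr rfl)
    obtain ⟨p1, p2⟩ := ex_good (k := k) hK0 hq hqN (hSg0 k) (hCa k) (hSg k) a1 fun i hi hik => a2 i hi (by omega)
    obtain ⟨r1, r2⟩ := ex_good (k := l) hK0 hq hqN (hSg0 l) (hCa l) (hSg l) b1 fun i hi hik => b2 i hi (by omega)
    have h1 := ex_prod p1 r1 p2 r2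
    have h2 : Ca k / q ≤ Ca k := div_le_self (hCa0 k) hq
    have h3 : Ca k / q * (Sg l * (1 + K) ^ l) + (Sg k * (1 + K) ^ k + Ca k / q) * (Ca l / q) ≤ W1 k l / q := by
      rw [hW1]
      have h4 : (Sg k * (1 + K) ^ k + Ca k / q) * (Ca l / q) ≤ (Sg k * (1 + K) ^ k + Ca k) * (Ca l / q) :=
        mul_le_mul_of_nonneg_right (by linarith) (div_nonneg (hCa0 l) hq0.le)
      have h5 : (Ca k * (Sg l * (1 + K) ^ l) + (Sg k * (1 + K) ^ k + Ca k) * Ca l) / q =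
          Ca k / q * (Sg l * (1 + K) ^ l) + (Sg k * (1 + K) ^ k + Ca k) * (Ca l / q) := by
        field_simp
      show _ ≤ (Ca k * (Sg l * (1 + K) ^ l) + (Sg k * (1 + K) ^ k + Ca k) * Ca l) / q
      rw [h5]
      linarith
    rw [ht]
    exact h1.trans h3
  have hbad : ∀ j, ‖t j‖ ≤ W2 k l * r.factorial * n / q := by
    intro j
    obtain ⟨p1, p2⟩ := ex_bad (k := k) hq hqN hN (hSg0 k) (hSc k) (hSg k) hx4 j
    obtain ⟨r1, r2⟩ := ex_bad (k := l) hq hqN hN (hSg0 l) (hSc l) (hSg l) hx4 (3 * j)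
    have h1 : ‖t j‖ ≤ W2 k l * q ^ (k + l) := by
      rw [ht, hW2]
      refine (norm_sub_le _ _).trans ?_
      rw [norm_mul, norm_mul]
      have h2 := mul_le_mul p1 r1 (norm_nonneg _) ((norm_nonneg _).trans p1)
      have h3 := mul_le_mul p2 r2 (norm_nonneg _) ((norm_nonneg _).trans p2)
      refine (add_le_add h2 h3).trans (le_of_eq ?_)
      show _ = (Sg k * 5 ^ k * (Sg l * 5 ^ l) + Sc k * Sc l) * q ^ (k + l)
      rw [pow_add]
      ring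
    have h4 : q ^ (k + l) * q ≤ r.factorial * n := by
      have h5 : q ^ (k + l) * q ≤ q ^ (2 * r) := by
        rw [← pow_succ]
        exact pow_le_pow_right₀ hq (by omega)
      have h6 : q ^ (2 * r) = (N : ℝ) ^ r := by rw [pow_mul, hqN]
      have h7 : (N : ℝ) ^ r ≤ r.factorial * n := by exact_mod_cast hD.nlo
      linarith
    rw [le_div_iff₀ hq0]
    calc ‖t j‖ * q ≤ W2 k l * q ^ (k + l) * q := mul_le_mul_of_nonneg_right h1 hq0.le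
      _ = W2 k l * (q ^ (k + l) * q) := by ring
      _ ≤ W2 k l * (r.factorial * n) := mul_le_mul_of_nonneg_left h4 (hW2p k l)
      _ = W2 k l * r.factorial * n := by ring
  show ‖∑ j : ZMod n, (GG k).eval (((x j / q : ℝ)) : ℂ) * (GG l).eval (((x (3 * j) / q : ℝ)) : ℂ) -
        ((q : ℂ) ^ (k + l))⁻¹ * ∑ j : ZMod n, cc (pw N (xs x j)) k * cc (pw N (xs x (3 * j))) l‖ ≤ _
  rw [hsum]
  have hcE : ((Exc r n).card : ℝ) ≤ ((6 * r) ^ 2 : ℕ) := by exact_mod_cast exc_card r n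
  have hcn : (((Exc r n)ᶜ).card : ℝ) ≤ n := by
    have h1 := card_le_univ ((Exc r n)ᶜ)
    rw [ZMod.card] at h1
    exact_mod_cast h1
  calc ‖∑ j, t j‖ ≤ ∑ j, ‖t j‖ := norm_sum_le _ _
    _ = ∑ j ∈ Exc r n, ‖t j‖ + ∑ j ∈ (Exc r n)ᶜ, ‖t j‖ := (sum_add_sum_compl _ _).symm
    _ ≤ ∑ j ∈ Exc r n, W2 k l * r.factorial * n / q + ∑ j ∈ (Exc r n)ᶜ, W1 k l / q :=
        add_le_add (sum_le_sum fun j _ => hbad j) (sum_le_sum fun j hj => hgood j (mem_compl.1 hj))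
    _ = (Exc r n).card * (W2 k l * r.factorial * n / q) + ((Exc r n)ᶜ).card * (W1 k l / q) := by
        rw [sum_const, sum_const, nsmul_eq_mul, nsmul_eq_mul]
    _ ≤ ((6 * r) ^ 2 : ℕ) * (W2 k l * r.factorial * n / q) + n * (W1 k l / q) := by
        have := hW1p k l
        have := hW2p k l
        exact add_le_add (mul_le_mul_of_nonneg_right hcE (by positivity))
          (mul_le_mul_of_nonneg_right hcn (by positivity))
    _ = V k l * n / q := by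
        rw [hV]
        field_simp
        ring
    _ ≤ (∑ k ∈ range r, ∑ l ∈ range r, V k l) * n / q := by
        refine div_le_div_of_nonneg_right ?_ hq0.le
        exact mul_le_mul_of_nonneg_right hVC hn0

end TightIndep.FX
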