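import Pool.Agent.Lib.MP_f31b39_co.FX.Defs

/-!
# FX-Nz: the small root
-/

namespace TightIndep.FX

open Finset Nat

private theorem norm_nat_add_one (k : ℕ) : ‖((k : ℂ) + 1)‖ = (k : ℝ) + 1 := by
  rw [show ((k : ℂ) + 1) = (((k : ℝ) + 1 : ℝ) : ℂ) by push_cast; rfl, Complex.norm_real,
    Real.norm_of_nonneg (by positivity)]

private theorem norm_nat_add_two (k : ℕ) : ‖((k : ℂ) + 2)‖ = (k : ℝ) + 2 := by
  rw [show ((k : ℂ) + 2) = (((k : ℝ) + 2 : ℝ) : ℂ) by push_cast; rfl, Complex.norm_real,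
    Real.norm_of_nonneg (by positivity)]

private theorem pw_bd {r : ℕ} {K q : ℝ} (hK : 0 ≤ K) (hq : 1 ≤ q) {U : ℕ → ℂ}
    (hU : ∀ i, 1 ≤ i → i ≤ r → ‖U i‖ ≤ K * q) {i : ℕ} (hi : 1 ≤ i) (hir : i ≤ r) :
    ‖pw ((q ^ 2 : ℝ) : ℂ) U i‖ ≤ (K + 2) * q ^ 2 := by
  unfold pw
  refine (norm_sub_le _ _).trans ?_
  have h1 := hU i hi hir
  have h2 : ‖(if Even i then 2 * (((q ^ 2 : ℝ)) : ℂ) else 0)‖ ≤ 2 * q ^ 2 := by
    split_ifs
    · rw [norm_mul, Complex.norm_real, Real.norm_of_nonneg (by positivity)]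
      simp
    · rw [norm_zero]
      positivity
  have h3 : K * q ≤ K * q ^ 2 := mul_le_mul_of_nonneg_left (by nlinarith) hK
  linarith

private theorem pw_odd {N : ℂ} {U : ℕ → ℂ} {i : ℕ} (hi : ¬ Even i) : pw N U i = U i := by
  simp [pw, hi]

private theorem pw_one {N : ℂ} {U : ℕ → ℂ} : pw N U 1 = U 1 := by
  simp [pw]

private theorem pw_two {N : ℂ} {U : ℕ → ℂ} : pw N U 2 = U 2 - 2 * N := by
  simp [pw]

private theorem cc_bd {r : ℕ} {K q : ℝ} (hK : 0 ≤ K) (hq : 1 ≤ q) {U : ℕ → ℂ}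
    (hU : ∀ i, 1 ≤ i → i ≤ r → ‖U i‖ ≤ K * q) :
    ∀ k, k ≤ r → ‖cc (pw ((q ^ 2 : ℝ) : ℂ) U) k‖ ≤ ((K + 2) * q) ^ k := by
  have hb1 : 1 ≤ (K + 2) * q := by nlinarith
  have hP : ∀ i, 1 ≤ i → i ≤ r → ‖pw ((q ^ 2 : ℝ) : ℂ) U i‖ ≤ ((K + 2) * q) ^ i := by
    intro i hi hir
    rcases Nat.lt_or_ge i 2 with h2 | h2
    · have h3 : i = 1 := by omega
      rw [h3, pw_one, pow_one]
      have := hU 1 le_rfl (by omega)
      nlinarith
    · have h3 : ((K + 2) * q) ^ 2 ≤ ((K + 2) * q) ^ i := pow_le_pow_right₀ hb1 h2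
      refine (pw_bd hK hq hU hi hir).trans (le_trans ?_ h3)
      rw [mul_pow]
      exact mul_le_mul_of_nonneg_right (by nlinarith) (by positivity)
  intro k
  induction k using Nat.strong_induction_on with
  | _ k ih =>
    intro hk
    rcases k with _ | k
    · rw [cc_zero]
      simp
    · rw [cc_succ, norm_div, norm_nat_add_one, div_le_iff₀ (by positivity)]
      refine (norm_sum_le _ _).trans ?_
      have h1 : ∀ i ∈ range (k + 1), ‖pw ((q ^ 2 : ℝ) : ℂ) U (i + 1) *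
          cc (pw ((q ^ 2 : ℝ) : ℂ) U) (k - i)‖ ≤ ((K + 2) * q) ^ (k + 1) := by
        intro i hi
        have hi' : i ≤ k := by
          have := mem_range.mp hi
          omega
        rw [norm_mul]
        have e : ((K + 2) * q) ^ (k + 1) = ((K + 2) * q) ^ (i + 1) * ((K + 2) * q) ^ (k - i) := by
          rw [← pow_add]
          congr 1
          omega
        rw [e]
        exact mul_le_mul (hP _ (by omega) (by omega)) (ih _ (by omega) (by omega))
          (norm_nonneg _) (by positivity)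
      refine (sum_le_sum h1).trans (le_of_eq ?_)
      rw [sum_const, card_range, nsmul_eq_mul]
      push_cast
      ring

private theorem step_id (P U : ℕ → ℂ) (q2 h0 h1 : ℂ) (k : ℕ) (hP1 : P 1 = U 1)
    (hP2 : P 2 = U 2 - 2 * q2) :
    cc P (k + 2) - (U 1 * h1 - 2 * q2 * h0) / ((k : ℂ) + 2) =
      (U 1 * (cc P (k + 1) - h1) - 2 * q2 * (cc P k - h0) + U 2 * cc P k +
        ∑ i ∈ range k, P (i + 3) * cc P (k - 1 - i)) / ((k : ℂ) + 2) := by
  rw [cc_succ, sum_range_succ', sum_range_succ']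
  have e1 : ((k + 1 : ℕ) : ℂ) + 1 = (k : ℂ) + 2 := by
    push_cast
    ring
  rw [e1, ← sub_div]
  congr 1
  have e2 : ∑ i ∈ range k, P (i + 1 + 1 + 1) * cc P (k + 1 - (i + 1 + 1)) =
      ∑ i ∈ range k, P (i + 3) * cc P (k - 1 - i) := by
    refine sum_congr rfl (fun i _ => ?_)
    congr 2
    omega
  rw [e2]
  have e3 : k + 1 - (0 + 1) = k := by omega
  rw [e3, Nat.sub_zero]
  norm_num
  rw [hP1, hP2]
  ring

/-- the main term `(-q^2)^l / l!` -/
private noncomputable def mt (q : ℝ) (l : ℕ) : ℂ := (-((q ^ 2 : ℝ) : ℂ)) ^ l / (l ! : ℂ)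

private theorem mt_norm {q : ℝ} (hq : 1 ≤ q) (l : ℕ) : ‖mt q l‖ = q ^ (2 * l) / (l ! : ℝ) := by
  unfold mt
  rw [norm_div, norm_pow, norm_neg, Complex.norm_real, Real.norm_of_nonneg (by positivity),
    ← pow_mul, Complex.norm_natCast]

private theorem mt_le {q : ℝ} (hq : 1 ≤ q) (l : ℕ) : ‖mt q l‖ ≤ q ^ (2 * l) := by
  rw [mt_norm hq]
  have h1 : (1 : ℝ) ≤ (l ! : ℝ) := by exact_mod_cast Nat.one_le_iff_ne_zero.2 (Nat.factorial_ne_zero l)
  exact div_le_self (by positivity) h1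

private theorem mt_zero (q : ℝ) : mt q 0 = 1 := by
  simp [mt]

private theorem mt_succ (q : ℝ) (l : ℕ) :
    mt q (l + 1) = -((q ^ 2 : ℝ) : ℂ) * mt q l / ((l : ℂ) + 1) := by
  unfold mt
  rw [Nat.factorial_succ, pow_succ]
  push_cast
  have h1 : (l ! : ℂ) ≠ 0 := by exact_mod_cast Nat.factorial_ne_zero l
  have h2 : (l : ℂ) + 1 ≠ 0 := by exact_mod_cast Nat.succ_ne_zero l
  field_simp

private theorem main (r : ℕ) (K A : ℝ) (hK : 0 ≤ K) (hA : 0 ≤ A) : ∀ l : ℕ, ∃ C : ℝ, 0 ≤ C ∧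
    ∀ (q : ℝ) (U : ℕ → ℂ), 1 ≤ q → (∀ i, 1 ≤ i → i ≤ r → ‖U i‖ ≤ K * q) → ‖U 1‖ ≤ A →
    ∀ l' ≤ l,
      (2 * l' ≤ r → q * ‖cc (pw ((q ^ 2 : ℝ) : ℂ) U) (2 * l') - mt q l'‖ ≤ C * q ^ (2 * l')) ∧
      (2 * l' + 1 ≤ r → q ^ 4 * ‖cc (pw ((q ^ 2 : ℝ) : ℂ) U) (2 * l' + 1) - U 1 * mt q l'‖ ≤
        C * q ^ (2 * l' + 1) * (‖U 1‖ * q ^ 2 + ‖U 3‖ * q + 1)) := by
  intro l
  induction l with
  | zero =>
    refine ⟨0, le_rfl, fun q U hq hU h1 l' hl' => ?_⟩
    have hl0 : l' = 0 := by omega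
    subst hl0
    constructor
    · intro _
      rw [mul_zero, cc_zero, mt_zero]
      simp
    · intro _
      rw [mul_zero, zero_add, cc_succ, mt_zero]
      simp [cc_zero, pw_one]
  | succ l ih =>
    obtain ⟨C, hC, ih⟩ := ih
    set B : ℝ := K + 2 with hB
    have hB1 : 1 ≤ B := by linarith
    have hB0 : 0 ≤ B := by linarith
    set CA : ℝ := A * B ^ (2 * l + 1) + 2 * C + K * B ^ (2 * l) + (2 * l : ℕ) * B ^ (2 * l) with hCA
    have hCA0 : 0 ≤ CA := by positivity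
    set M : ℝ := B ^ (2 * l) + K * B ^ (2 * l) + B * (1 + C) with hM
    have hM0 : 0 ≤ M := by positivity
    set CB : ℝ := CA + 2 * C + K * (1 + C) + (2 * l + 1 : ℕ) * M with hCB
    have hCB0 : 0 ≤ CB := by positivity
    refine ⟨C + CA + CB, by positivity, fun q U hq hU h1 l' hl' => ?_⟩
    have hq0 : 0 < q := by linarith
    set T : ℝ := ‖U 1‖ * q ^ 2 + ‖U 3‖ * q + 1 with hT
    have hT1 : ‖U 1‖ * q ^ 2 ≤ T := by
      have : 0 ≤ ‖U 3‖ * q := by positivity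
      linarith
    have hT3 : ‖U 3‖ * q ≤ T := by
      have : 0 ≤ ‖U 1‖ * q ^ 2 := by positivity
      linarith
    have hT0 : 1 ≤ T := by
      have h2 : 0 ≤ ‖U 1‖ * q ^ 2 := by positivity
      have h3 : 0 ≤ ‖U 3‖ * q := by positivity
      linarith
    have ihq := ih q U hq hU h1
    rcases Nat.lt_or_ge l' (l + 1) with hlt | hge
    · obtain ⟨ha, hb⟩ := ihq l' (by omega)
      constructor
      · intro hr
        refine (ha hr).trans (mul_le_mul_of_nonneg_right (by linarith) (by positivity))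
      · intro hr
        refine (hb hr).trans ?_
        apply mul_le_mul_of_nonneg_right _ (by linarith)
        exact mul_le_mul_of_nonneg_right (by linarith) (by positivity)
    have hl1 : l' = l + 1 := by omega
    subst hl1
    set P := pw ((q ^ 2 : ℝ) : ℂ) U with hP
    have hP1 : P 1 = U 1 := pw_one
    have hP2 : P 2 = U 2 - 2 * ((q ^ 2 : ℝ) : ℂ) := pw_two
    have hcc := cc_bd hK hq hU
    rw [← hP, ← hB] at hcc
    have hpb : ∀ i, 1 ≤ i → i ≤ r → ‖P i‖ ≤ B * q ^ 2 := fun i hi hir => pw_bd hK hq hU hi hir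
    have hpow : ∀ a b : ℕ, a ≤ b → q ^ a ≤ q ^ b := fun a b h => pow_le_pow_right₀ hq h
    have hBpow : ∀ a b : ℕ, a ≤ b → B ^ a ≤ B ^ b := fun a b h => pow_le_pow_right₀ hB1 h
    -- the even step
    have hEven : 2 * (l + 1) ≤ r → q * ‖cc P (2 * (l + 1)) - mt q (l + 1)‖ ≤ CA * q ^ (2 * (l + 1)) := by
      intro hr
      have hs := step_id P U ((q ^ 2 : ℝ) : ℂ) (mt q l) 0 (2 * l) hP1 hP2
      have e1 : (U 1 * 0 - 2 * ((q ^ 2 : ℝ) : ℂ) * mt q l) / (((2 * l : ℕ) : ℂ) + 2) = mt q (l + 1) := by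
        rw [mt_succ]
        have h2 : (l : ℂ) + 1 ≠ 0 := by exact_mod_cast Nat.succ_ne_zero l
        have h3 : ((2 * l : ℕ) : ℂ) + 2 = 2 * ((l : ℂ) + 1) := by push_cast; ring
        rw [h3]
        field_simp
        ring
      rw [e1] at hs
      rw [show 2 * (l + 1) = 2 * l + 2 by ring, hs, norm_div, norm_nat_add_two, mul_div_assoc',
        div_le_iff₀ (by positivity)]
      have n1 : ‖U 1 * (cc P (2 * l + 1) - 0)‖ ≤ A * (B * q) ^ (2 * l + 1) := by
        rw [sub_zero, norm_mul]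
        exact mul_le_mul h1 (hcc _ (by omega)) (norm_nonneg _) hA
      have n2 : q * ‖2 * ((q ^ 2 : ℝ) : ℂ) * (cc P (2 * l) - mt q l)‖ ≤ 2 * q ^ 2 * (C * q ^ (2 * l)) := by
        rw [norm_mul, norm_mul, Complex.norm_real, Real.norm_of_nonneg (by positivity)]
        have h2 := (ihq l le_rfl).1 (by omega)
        calc q * (‖(2 : ℂ)‖ * q ^ 2 * ‖cc P (2 * l) - mt q l‖)
            = 2 * q ^ 2 * (q * ‖cc P (2 * l) - mt q l‖) := by
              rw [show ‖(2 : ℂ)‖ = 2 by simp]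
              ring
          _ ≤ 2 * q ^ 2 * (C * q ^ (2 * l)) := mul_le_mul_of_nonneg_left h2 (by positivity)
      have n3 : ‖U 2 * cc P (2 * l)‖ ≤ K * q * (B * q) ^ (2 * l) := by
        rw [norm_mul]
        exact mul_le_mul (hU 2 (by norm_num) (by omega)) (hcc _ (by omega)) (norm_nonneg _) (by positivity)
      have n4 : q * ‖∑ i ∈ range (2 * l), P (i + 3) * cc P (2 * l - 1 - i)‖ ≤
          (2 * l : ℕ) * (B ^ (2 * l) * q ^ (2 * l + 2)) := by
        have h2 : ∀ i ∈ range (2 * l), ‖P (i + 3) * cc P (2 * l - 1 - i)‖ ≤ B ^ (2 * l) * q ^ (2 * l + 1) := by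
          intro i hi
          have hi' := mem_range.mp hi
          rw [norm_mul]
          refine (mul_le_mul (hpb (i + 3) (by omega) (by omega)) (hcc _ (by omega)) (norm_nonneg _)
            (by positivity)).trans ?_
          rw [mul_pow]
          calc B * q ^ 2 * (B ^ (2 * l - 1 - i) * q ^ (2 * l - 1 - i))
              = B ^ (2 * l - 1 - i + 1) * q ^ (2 * l - 1 - i + 2) := by ring
            _ ≤ B ^ (2 * l) * q ^ (2 * l + 1) := mul_le_mul (hBpow _ _ (by omega)) (hpow _ _ (by omega))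
                (by positivity) (by positivity)
        have h3 := (norm_sum_le _ _).trans (sum_le_sum h2)
        rw [sum_const, card_range, nsmul_eq_mul] at h3
        calc q * ‖∑ i ∈ range (2 * l), P (i + 3) * cc P (2 * l - 1 - i)‖
            ≤ q * ((2 * l : ℕ) * (B ^ (2 * l) * q ^ (2 * l + 1))) := mul_le_mul_of_nonneg_left h3 hq0.le
          _ = _ := by ring
      have n5 : ‖U 1 * (cc P (2 * l + 1) - 0) - 2 * ((q ^ 2 : ℝ) : ℂ) * (cc P (2 * l) - mt q l) + U 2 * cc P (2 * l) +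
          ∑ i ∈ range (2 * l), P (i + 3) * cc P (2 * l - 1 - i)‖ ≤
          ‖U 1 * (cc P (2 * l + 1) - 0)‖ + ‖2 * ((q ^ 2 : ℝ) : ℂ) * (cc P (2 * l) - mt q l)‖ + ‖U 2 * cc P (2 * l)‖ +
          ‖∑ i ∈ range (2 * l), P (i + 3) * cc P (2 * l - 1 - i)‖ := by
        refine (norm_add_le _ _).trans (add_le_add ((norm_add_le _ _).trans (add_le_add (norm_sub_le _ _) le_rfl)) le_rfl)
      have n6 := mul_le_mul_of_nonneg_left n5 hq0.le
      have n7 : q * ‖U 1 * (cc P (2 * l + 1) - 0)‖ ≤ A * B ^ (2 * l + 1) * q ^ (2 * l + 2) := by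
        refine (mul_le_mul_of_nonneg_left n1 hq0.le).trans (le_of_eq ?_)
        ring
      have n8 : q * ‖U 2 * cc P (2 * l)‖ ≤ K * B ^ (2 * l) * q ^ (2 * l + 2) := by
        refine (mul_le_mul_of_nonneg_left n3 hq0.le).trans (le_of_eq ?_)
        ring
      have n9 : q * ‖U 1 * (cc P (2 * l + 1) - 0) - 2 * ((q ^ 2 : ℝ) : ℂ) * (cc P (2 * l) - mt q l) + U 2 * cc P (2 * l) +
          ∑ i ∈ range (2 * l), P (i + 3) * cc P (2 * l - 1 - i)‖ ≤ CA * q ^ (2 * l + 2) := by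
        refine n6.trans ?_
        have e5 : CA * q ^ (2 * l + 2) = A * B ^ (2 * l + 1) * q ^ (2 * l + 2) + 2 * q ^ 2 * (C * q ^ (2 * l)) +
            K * B ^ (2 * l) * q ^ (2 * l + 2) + (2 * l : ℕ) * (B ^ (2 * l) * q ^ (2 * l + 2)) := by
          rw [hCA]
          ring
        rw [e5, mul_add, mul_add, mul_add]
        linarith [n2, n4, n7, n8]
      refine n9.trans ?_
      have h5 : 0 ≤ CA * q ^ (2 * l + 2) := by positivity
      have h6 : (1 : ℝ) ≤ ((2 * l : ℕ) : ℝ) + 2 := by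
        have : (0 : ℝ) ≤ ((2 * l : ℕ) : ℝ) := Nat.cast_nonneg _
        linarith
      exact le_mul_of_one_le_right h5 h6
    constructor
    · intro hr
      exact (hEven hr).trans (mul_le_mul_of_nonneg_right (by linarith) (by positivity))
    · intro hr
      -- bounds of the odd terms
      have hodd : ∀ a ≤ l, q ^ 3 * ‖cc P (2 * a + 1)‖ ≤ (1 + C) * q ^ (2 * a + 1) * T := by
        intro a ha
        have h2 := (ihq a ha).2 (by omega)
        have h3 : ‖cc P (2 * a + 1)‖ ≤ ‖cc P (2 * a + 1) - U 1 * mt q a‖ + ‖U 1‖ * q ^ (2 * a) := by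
          have h4 : ‖cc P (2 * a + 1)‖ ≤ ‖cc P (2 * a + 1) - U 1 * mt q a‖ + ‖U 1 * mt q a‖ := by
            have := norm_add_le (cc P (2 * a + 1) - U 1 * mt q a) (U 1 * mt q a)
            rwa [sub_add_cancel] at this
          refine h4.trans (add_le_add le_rfl ?_)
          rw [norm_mul]
          exact mul_le_mul_of_nonneg_left (mt_le hq a) (norm_nonneg _)
        have h5 : q ^ 3 * ‖cc P (2 * a + 1) - U 1 * mt q a‖ ≤ C * q ^ (2 * a + 1) * T := by
          refine le_trans ?_ h2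
          exact mul_le_mul_of_nonneg_right (hpow 3 4 (by norm_num)) (norm_nonneg _)
        have h6 : q ^ 3 * (‖U 1‖ * q ^ (2 * a)) ≤ q ^ (2 * a + 1) * T := by
          calc q ^ 3 * (‖U 1‖ * q ^ (2 * a)) = q ^ (2 * a + 1) * (‖U 1‖ * q ^ 2) := by ring
            _ ≤ _ := mul_le_mul_of_nonneg_left hT1 (by positivity)
        have h7 := mul_le_mul_of_nonneg_left h3 (show (0 : ℝ) ≤ q ^ 3 by positivity)
        nlinarith [h5, h6, h7]
      have hs := step_id P U ((q ^ 2 : ℝ) : ℂ) (U 1 * mt q l) (mt q (l + 1)) (2 * l + 1) hP1 hP2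
      have e1 : (U 1 * mt q (l + 1) - 2 * ((q ^ 2 : ℝ) : ℂ) * (U 1 * mt q l)) / (((2 * l + 1 : ℕ) : ℂ) + 2) =
          U 1 * mt q (l + 1) := by
        rw [mt_succ]
        have h2 : (l : ℂ) + 1 ≠ 0 := by exact_mod_cast Nat.succ_ne_zero l
        have h3 : ((2 * l + 1 : ℕ) : ℂ) + 2 ≠ 0 := by
          have : ((2 * l + 1 : ℕ) : ℂ) + 2 = ((2 * l + 3 : ℕ) : ℂ) := by push_cast; ring
          rw [this]
          exact_mod_cast (by omega : 2 * l + 3 ≠ 0)
        rw [div_eq_iff h3]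
        push_cast
        field_simp
        ring
      rw [e1] at hs
      rw [show 2 * (l + 1) + 1 = 2 * l + 1 + 2 by ring, hs, norm_div, norm_nat_add_two, mul_div_assoc',
        div_le_iff₀ (by positivity)]
      have n1 : q ^ 4 * ‖U 1 * (cc P (2 * l + 1 + 1) - mt q (l + 1))‖ ≤ CA * q ^ (2 * l + 3) * T := by
        have h2 := hEven (by omega)
        rw [show 2 * l + 1 + 1 = 2 * (l + 1) by ring, norm_mul]
        calc q ^ 4 * (‖U 1‖ * ‖cc P (2 * (l + 1)) - mt q (l + 1)‖)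
            = ‖U 1‖ * q ^ 3 * (q * ‖cc P (2 * (l + 1)) - mt q (l + 1)‖) := by ring
          _ ≤ ‖U 1‖ * q ^ 3 * (CA * q ^ (2 * (l + 1))) := mul_le_mul_of_nonneg_left h2 (by positivity)
          _ = CA * q ^ (2 * l + 3) * (‖U 1‖ * q ^ 2) := by ring
          _ ≤ _ := mul_le_mul_of_nonneg_left hT1 (by positivity)
      have n2 : q ^ 4 * ‖2 * ((q ^ 2 : ℝ) : ℂ) * (cc P (2 * l + 1) - U 1 * mt q l)‖ ≤ 2 * C * q ^ (2 * l + 3) * T := by
        rw [norm_mul, norm_mul, Complex.norm_real, Real.norm_of_nonneg (by positivity)]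
        have h2 := (ihq l le_rfl).2 (by omega)
        calc q ^ 4 * (‖(2 : ℂ)‖ * q ^ 2 * ‖cc P (2 * l + 1) - U 1 * mt q l‖)
            = 2 * q ^ 2 * (q ^ 4 * ‖cc P (2 * l + 1) - U 1 * mt q l‖) := by
              rw [show ‖(2 : ℂ)‖ = 2 by simp]
              ring
          _ ≤ 2 * q ^ 2 * (C * q ^ (2 * l + 1) * T) := mul_le_mul_of_nonneg_left h2 (by positivity)
          _ = _ := by ring
      have n3 : q ^ 4 * ‖U 2 * cc P (2 * l + 1)‖ ≤ K * (1 + C) * q ^ (2 * l + 3) * T := by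
        rw [norm_mul]
        have h2 := hodd l le_rfl
        have h3 := hU 2 (by norm_num) (by omega)
        calc q ^ 4 * (‖U 2‖ * ‖cc P (2 * l + 1)‖) = q * ‖U 2‖ * (q ^ 3 * ‖cc P (2 * l + 1)‖) := by ring
          _ ≤ q * (K * q) * ((1 + C) * q ^ (2 * l + 1) * T) := mul_le_mul (mul_le_mul_of_nonneg_left h3 hq0.le) h2
              (by positivity) (by positivity)
          _ = _ := by ring
      have n4 : q ^ 4 * ‖∑ i ∈ range (2 * l + 1), P (i + 3) * cc P (2 * l + 1 - 1 - i)‖ ≤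
          (2 * l + 1 : ℕ) * (M * q ^ (2 * l + 3) * T) := by
        have h2 : ∀ i ∈ range (2 * l + 1), q ^ 4 * ‖P (i + 3) * cc P (2 * l + 1 - 1 - i)‖ ≤ M * q ^ (2 * l + 3) * T := by
          intro i hi
          have hi' := mem_range.mp hi
          have e4 : 2 * l + 1 - 1 - i = 2 * l - i := by omega
          rw [e4, norm_mul]
          have hTq : 0 ≤ q ^ (2 * l + 3) * T := by positivity
          have z1 : 0 ≤ B ^ (2 * l) := by positivity
          have z2 : 0 ≤ K * B ^ (2 * l) := by positivity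
          have z3 : 0 ≤ B * (1 + C) := by positivity
          have hMi : ∀ c : ℝ, c ≤ M → c * q ^ (2 * l + 3) * T ≤ M * q ^ (2 * l + 3) * T := by
            intro c hc
            rw [mul_assoc, mul_assoc]
            exact mul_le_mul_of_nonneg_right hc hTq
          rcases Nat.even_or_odd i with he | ho
          · -- even `i`: the term `U (i + 3)`
            have h3 : ¬ Even (i + 3) := by
              rw [Nat.even_add']
              simp only [show Odd 3 by decide, iff_true]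
              exact Nat.not_odd_iff_even.2 he
            have h4 : P (i + 3) = U (i + 3) := pw_odd h3
            rw [h4]
            rcases Nat.eq_zero_or_pos i with h0 | hpos
            · subst h0
              rw [Nat.sub_zero, zero_add]
              refine le_trans ?_ (hMi (B ^ (2 * l)) (by rw [hM]; linarith))
              calc q ^ 4 * (‖U 3‖ * ‖cc P (2 * l)‖) ≤ q ^ 4 * (‖U 3‖ * (B * q) ^ (2 * l)) := by
                    apply mul_le_mul_of_nonneg_left _ (by positivity)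
                    exact mul_le_mul_of_nonneg_left (hcc _ (by omega)) (norm_nonneg _)
                _ = B ^ (2 * l) * q ^ (2 * l + 3) * (‖U 3‖ * q) := by ring
                _ ≤ _ := mul_le_mul_of_nonneg_left hT3 (by positivity)
            · have hi2 : 2 ≤ i := by
                obtain ⟨c, hc⟩ := he
                omega
              refine le_trans ?_ (hMi (K * B ^ (2 * l)) (by rw [hM]; linarith))
              calc q ^ 4 * (‖U (i + 3)‖ * ‖cc P (2 * l - i)‖) ≤ q ^ 4 * (K * q * (B * q) ^ (2 * l - i)) := by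
                    apply mul_le_mul_of_nonneg_left _ (by positivity)
                    exact mul_le_mul (hU _ (by omega) (by omega)) (hcc _ (by omega)) (norm_nonneg _) (by positivity)
                _ = K * B ^ (2 * l - i) * q ^ (2 * l - i + 5) := by ring
                _ ≤ K * B ^ (2 * l) * q ^ (2 * l + 3) := by
                    apply mul_le_mul _ (hpow _ _ (by omega)) (by positivity) (by positivity)
                    exact mul_le_mul_of_nonneg_left (hBpow _ _ (by omega)) hK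
                _ ≤ K * B ^ (2 * l) * q ^ (2 * l + 3) * T := le_mul_of_one_le_right (by positivity) hT0
          · -- odd `i`
            obtain ⟨c, hc⟩ := ho
            have h5 : 2 * l - i = 2 * (l - c - 1) + 1 := by omega
            have h6 := hodd (l - c - 1) (by omega)
            refine le_trans ?_ (hMi (B * (1 + C)) (by rw [hM]; linarith))
            rw [h5]
            calc q ^ 4 * (‖P (i + 3)‖ * ‖cc P (2 * (l - c - 1) + 1)‖)
                = q * ‖P (i + 3)‖ * (q ^ 3 * ‖cc P (2 * (l - c - 1) + 1)‖) := by ring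
              _ ≤ q * (B * q ^ 2) * ((1 + C) * q ^ (2 * (l - c - 1) + 1) * T) :=
                  mul_le_mul (mul_le_mul_of_nonneg_left (hpb _ (by omega) (by omega)) hq0.le) h6
                    (by positivity) (by positivity)
              _ = B * (1 + C) * q ^ (2 * (l - c - 1) + 4) * T := by ring
              _ ≤ B * (1 + C) * q ^ (2 * l + 3) * T := by
                  apply mul_le_mul_of_nonneg_right _ (by linarith)
                  exact mul_le_mul_of_nonneg_left (hpow _ _ (by omega)) (by positivity)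
        calc q ^ 4 * ‖∑ i ∈ range (2 * l + 1), P (i + 3) * cc P (2 * l + 1 - 1 - i)‖
            ≤ q ^ 4 * ∑ i ∈ range (2 * l + 1), ‖P (i + 3) * cc P (2 * l + 1 - 1 - i)‖ :=
              mul_le_mul_of_nonneg_left (norm_sum_le _ _) (by positivity)
          _ = ∑ i ∈ range (2 * l + 1), q ^ 4 * ‖P (i + 3) * cc P (2 * l + 1 - 1 - i)‖ := by rw [mul_sum]
          _ ≤ ∑ i ∈ range (2 * l + 1), M * q ^ (2 * l + 3) * T := sum_le_sum h2
          _ = _ := by rw [sum_const, card_range, nsmul_eq_mul]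
      have n5 : ‖U 1 * (cc P (2 * l + 1 + 1) - mt q (l + 1)) - 2 * ((q ^ 2 : ℝ) : ℂ) * (cc P (2 * l + 1) - U 1 * mt q l) +
          U 2 * cc P (2 * l + 1) + ∑ i ∈ range (2 * l + 1), P (i + 3) * cc P (2 * l + 1 - 1 - i)‖ ≤
          ‖U 1 * (cc P (2 * l + 1 + 1) - mt q (l + 1))‖ + ‖2 * ((q ^ 2 : ℝ) : ℂ) * (cc P (2 * l + 1) - U 1 * mt q l)‖ +
          ‖U 2 * cc P (2 * l + 1)‖ + ‖∑ i ∈ range (2 * l + 1), P (i + 3) * cc P (2 * l + 1 - 1 - i)‖ := by
        refine (norm_add_le _ _).trans (add_le_add ((norm_add_le _ _).trans (add_le_add (norm_sub_le _ _) le_rfl)) le_rfl)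
      have n6 := mul_le_mul_of_nonneg_left n5 (show (0 : ℝ) ≤ q ^ 4 by positivity)
      have n9 : q ^ 4 * ‖U 1 * (cc P (2 * l + 1 + 1) - mt q (l + 1)) - 2 * ((q ^ 2 : ℝ) : ℂ) * (cc P (2 * l + 1) - U 1 * mt q l) +
          U 2 * cc P (2 * l + 1) + ∑ i ∈ range (2 * l + 1), P (i + 3) * cc P (2 * l + 1 - 1 - i)‖ ≤ CB * q ^ (2 * l + 3) * T := by
        refine n6.trans ?_
        have e5 : CB * q ^ (2 * l + 3) * T = CA * q ^ (2 * l + 3) * T + 2 * C * q ^ (2 * l + 3) * T +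
            K * (1 + C) * q ^ (2 * l + 3) * T + (2 * l + 1 : ℕ) * (M * q ^ (2 * l + 3) * T) := by
          rw [hCB]
          ring
        rw [e5, mul_add, mul_add, mul_add]
        linarith [n1, n2, n3, n4]
      refine n9.trans ?_
      have h5 : 0 ≤ CB * q ^ (2 * l + 3) * T := by positivity
      have h6 : (1 : ℝ) ≤ ((2 * l + 1 : ℕ) : ℝ) + 2 := by
        have : (0 : ℝ) ≤ ((2 * l + 1 : ℕ) : ℝ) := Nat.cast_nonneg _
        linarith
      have h7 : CB * q ^ (2 * l + 3) * T ≤ (C + CA + CB) * q ^ (2 * l + 3) * T := by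
        apply mul_le_mul_of_nonneg_right _ (by linarith)
        exact mul_le_mul_of_nonneg_right (by linarith) (by positivity)
      rw [show 2 * l + 1 + 2 = 2 * l + 3 by ring]
      refine h7.trans (le_mul_of_one_le_right (le_trans h5 h7) h6)

private theorem second_level (r : ℕ) (hr : Odd r) (_hr3 : 3 ≤ r) (K A : ℝ) (hK : 0 ≤ K) (hA : 0 ≤ A) :
    ∃ C q0 : ℝ, 0 ≤ C ∧ 1 ≤ q0 ∧ ∀ (q : ℝ) (U : ℕ → ℂ), q0 ≤ q →
      (∀ i, 1 ≤ i → i ≤ r → ‖U i‖ ≤ K * q) → ‖U 1‖ ≤ A → cc (pw ((q ^ 2 : ℝ) : ℂ) U) r = 0 →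
      ‖U 1‖ ≤ C * (‖U 3‖ / q ^ 2 + 1 / q ^ 3) := by
  obtain ⟨l, hl⟩ := hr
  obtain ⟨C, hC, h⟩ := main r K A hK hA l
  have hf : (0 : ℝ) < (l ! : ℝ) := by exact_mod_cast Nat.factorial_pos l
  refine ⟨2 * C * l !, 2 * C * l ! + 1, by positivity, by nlinarith [mul_nonneg hC hf.le], fun q U hq hU h1 h0 => ?_⟩
  have hCf : 0 ≤ C * (l ! : ℝ) := by positivity
  have hq1 : 1 ≤ q := by linarith
  have hq0 : 0 < q := by linarith
  have h2 := (h q U hq1 hU h1 l le_rfl).2 (by omega)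
  rw [← hl, h0, zero_sub, norm_neg, norm_mul, mt_norm hq1] at h2
  -- `‖U 1‖ q^3 ≤ C l! T`
  have h3 : ‖U 1‖ * q ^ 3 ≤ C * l ! * (‖U 1‖ * q ^ 2 + ‖U 3‖ * q + 1) := by
    have h4 : q ^ 4 * (‖U 1‖ * (q ^ (2 * l) / (l ! : ℝ))) = (‖U 1‖ * q ^ 3) * q ^ r / (l ! : ℝ) := by
      rw [hl]
      ring
    rw [h4, div_le_iff₀ hf] at h2
    have h5 : 0 < q ^ r := by positivity
    refine le_of_mul_le_mul_right (h2.trans (le_of_eq ?_)) h5
    ring
  have h6 : C * l ! * (‖U 1‖ * q ^ 2) ≤ ‖U 1‖ * q ^ 3 / 2 := by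
    have h7 : C * (l ! : ℝ) ≤ q / 2 := by linarith
    calc C * l ! * (‖U 1‖ * q ^ 2) ≤ q / 2 * (‖U 1‖ * q ^ 2) := mul_le_mul_of_nonneg_right h7 (by positivity)
      _ = _ := by ring
  have h8 : ‖U 1‖ * q ^ 3 ≤ 2 * C * l ! * (‖U 3‖ * q + 1) := by nlinarith [h3, h6]
  have h9 : 2 * C * l ! * (‖U 3‖ / q ^ 2 + 1 / q ^ 3) = 2 * C * l ! * (‖U 3‖ * q + 1) / q ^ 3 := by
    field_simp
  rw [h9, le_div_iff₀ (by positivity)]
  exact h8

theorem nz (r : ℕ) (hr : Odd r) (hr3 : 3 ≤ r) (A : ℝ) (hA : 1 ≤ A) : ∃ C N₀ : ℝ, 1 ≤ C ∧ 1 ≤ N₀ ∧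
    ∀ (N : ℝ) (U : ℕ → ℂ), N₀ ≤ N → ‖U 1‖ ≤ A → (∀ i, 1 ≤ i → i ≤ r → ‖U i‖ ≤ A * √N) →
      cc (pw N U) r = 0 → ‖U 1‖ ≤ C * (‖U 3‖ / N + 1 / (N * √N)) := by
  have hA0 : 0 ≤ A := by linarith
  obtain ⟨C, q0, hC, hq0, h⟩ := second_level r hr hr3 A A hA0 hA0
  refine ⟨C + 1, q0 ^ 2, by linarith, by nlinarith, fun N U hN h1 hU h0 => ?_⟩
  have hN1 : 1 ≤ N := le_trans (by nlinarith) hN
  have hs : √N ^ 2 = N := Real.sq_sqrt (by linarith)
  have hq : q0 ≤ √N := Real.le_sqrt_of_sq_le hN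
  have hs1 : 0 < √N := by linarith
  have h2 := h (√N) U hq hU h1 (by rw [hs]; exact h0)
  have e : ‖U 3‖ / √N ^ 2 + 1 / √N ^ 3 = ‖U 3‖ / N + 1 / (N * √N) := by
    rw [pow_succ √N 2, hs]
  rw [e] at h2
  refine h2.trans ?_
  have h3 : 0 ≤ ‖U 3‖ / N + 1 / (N * √N) := by positivity
  exact mul_le_mul_of_nonneg_right (by linarith) h3

end TightIndep.FX
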