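import Pool.Agent.Lib.MP_f31b39_co.FX.Sz
import Pool.Agent.Lib.MP_f31b39_co.FX.Nz

/-!
# FX-Pw: the pointwise bound of the logarithms
-/

namespace TightIndep.FX

open Finset

private theorem Pw_norm {n : ℕ} (x : ZMod n → ℝ) (j : ZMod n) (i : ℕ) : ‖xs x j i‖ = |x ((i : ZMod n) * j)| := by
  unfold xs
  rw [Complex.norm_real, Real.norm_eq_abs]

private theorem Pw_log {a c s : ℝ} (h0 : a ≠ 0) (hc : 0 < c) (hs : 0 < s) (h : |a| ≤ c * s) :
    Real.log |a| ≤ Real.log c + Real.log s := by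
  rw [← Real.log_mul hc.ne' hs.ne']
  exact Real.log_le_log (abs_pos.2 h0) h

theorem ptw (r : ℕ) (hr : Odd r) (hr3 : 3 ≤ r) (A : ℝ) (hA : 1 ≤ A) : ∃ C N₀ : ℝ, 0 ≤ C ∧ 1 ≤ N₀ ∧
    ∀ (n N : ℕ) [NeZero n] (ι : Type) [Fintype ι] [DecidableEq ι]
    (g : ι → ZMod n) (x : ZMod n → ℝ), Dat r n N g x → N₀ ≤ N → ∀ j : ZMod n, j ∉ Exc r n →
      Real.log |x j| ≤ C + Real.log N / 2 - (if |x j| ≤ A then Real.log N else 0) -
        (if |x j| ≤ A ∧ |x (3 * j)| ≤ A then Real.log N else 0) + (if x j = 0 then 2 * Real.log N else 0) := by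
  obtain ⟨K, hK, hszb⟩ := szb r (by omega)
  obtain ⟨C1, N1, hC1, hN1, hnz⟩ := nz r hr hr3 (max A K) (le_max_of_le_left hA)
  have hB1 : C1 * (K + 1) ≤ C1 * (C1 * (K + 1) + 1) :=
    mul_le_mul_of_nonneg_left (by nlinarith) (by linarith)
  have hB0 : K ≤ C1 * (K + 1) := by nlinarith
  refine ⟨Real.log (C1 * (C1 * (K + 1) + 1)), N1, Real.log_nonneg (by linarith), hN1, ?_⟩
  intro n N _ ι _ _ g x hD hN j hj
  have hNR : (1 : ℝ) ≤ N := hN1.trans hN
  have hN0 : (0 : ℝ) < N := by linarith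
  have hNn : 1 ≤ N := by exact_mod_cast hNR
  have hL : 0 ≤ Real.log N := Real.log_nonneg hNR
  have hs0 : 0 < √(N : ℝ) := Real.sqrt_pos.2 hN0
  have hs1 : 1 ≤ √(N : ℝ) := Real.one_le_sqrt.2 hNR
  have hss : √(N : ℝ) * √(N : ℝ) = N := Real.mul_self_sqrt hN0.le
  have hls : Real.log √(N : ℝ) = Real.log N / 2 := Real.log_sqrt hN0.le
  obtain ⟨a2, a1, ai⟩ := hszb n N ι g x hD hNn j hj j (Or.inl rfl)
  obtain ⟨b2, b1, bi⟩ := hszb n N ι g x hD hNn j hj (3 * j) (Or.inr rfl)
  -- the small root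
  have step : ∀ j' : ZMod n, 2 * j' ≠ 0 → |x j'| ≤ A → (∀ i : ℕ, 1 ≤ i → i ≤ r → |x ((i : ZMod n) * j')| ≤ K * √N) →
      |x j'| ≤ C1 * (|x (3 * j')| / N + 1 / (N * √N)) := by
    intro j' h2 hA' hi
    have e1 : ‖xs x j' 1‖ = |x j'| := by rw [Pw_norm, Nat.cast_one, one_mul]
    have e3 : ‖xs x j' 3‖ = |x (3 * j')| := by
      rw [Pw_norm]
      norm_num
    have h := hnz N (xs x j') hN ?_ ?_ (hD.eqn j' h2)
    · rw [e1, e3] at h
      exact h
    · rw [e1]
      exact hA'.trans (le_max_left _ _)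
    · intro i hi1 hir
      rw [Pw_norm]
      exact (hi i hi1 hir).trans (mul_le_mul_of_nonneg_right (le_max_right _ _) hs0.le)
  have inv1 : 1 / ((N : ℝ) * √N) ≤ 1 / √N := by
    apply one_div_le_one_div_of_le hs0
    nlinarith
  have inv2 : √(N : ℝ) / N = 1 / √N := by
    rw [div_eq_div_iff hN0.ne' hs0.ne', hss, one_mul]
  -- one step
  have one : ∀ j' : ZMod n, |x j'| ≤ C1 * (|x (3 * j')| / N + 1 / (N * √N)) → |x (3 * j')| ≤ K * √N →
      |x j'| ≤ C1 * (K + 1) * (1 / √N) := by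
    intro j' h h'
    have h1 : |x (3 * j')| / N ≤ K * (1 / √N) := by
      rw [← inv2, ← mul_div_assoc]
      exact div_le_div_of_nonneg_right h' hN0.le
    calc |x j'| ≤ C1 * (|x (3 * j')| / N + 1 / (N * √N)) := h
      _ ≤ C1 * (K * (1 / √N) + 1 / √N) := mul_le_mul_of_nonneg_left (add_le_add h1 inv1) (by linarith)
      _ = C1 * (K + 1) * (1 / √N) := by ring
  have hCpos : 0 < C1 * (K + 1) := by linarith
  have hC0 : 0 ≤ Real.log (C1 * (C1 * (K + 1) + 1)) := Real.log_nonneg (by linarith)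
  by_cases h0 : x j = 0
  · have hA0 : |x j| ≤ A := by rw [h0, abs_zero]; linarith
    rw [if_pos hA0, if_pos h0]
    have e : Real.log |x j| = 0 := by rw [h0, abs_zero, Real.log_zero]
    rw [e]
    split_ifs <;> linarith
  · rw [if_neg h0]
    by_cases hAj : |x j| ≤ A
    · rw [if_pos hAj]
      have s1 := step j a2 hAj ai
      by_cases hA3 : |x (3 * j)| ≤ A
      · rw [if_pos ⟨hAj, hA3⟩]
        have s3 := step (3 * j) b2 hA3 bi
        have h9 : |x (3 * (3 * j))| ≤ K * √N := by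
          have := bi 3 (by norm_num) hr3
          norm_num at this
          exact this
        have o3 := one (3 * j) s3 h9
        have h1 : |x j| ≤ C1 * (C1 * (K + 1) + 1) * (1 / (N * √N)) := by
          have h2 : |x (3 * j)| / N ≤ C1 * (K + 1) * (1 / (N * √N)) := by
            calc |x (3 * j)| / N ≤ C1 * (K + 1) * (1 / √N) / N := div_le_div_of_nonneg_right o3 hN0.le
              _ = C1 * (K + 1) * (1 / (N * √N)) := by
                field_simp
          calc |x j| ≤ C1 * (|x (3 * j)| / N + 1 / (N * √N)) := s1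
            _ ≤ C1 * (C1 * (K + 1) * (1 / (N * √N)) + 1 / (N * √N)) :=
              mul_le_mul_of_nonneg_left (add_le_add h2 le_rfl) (by linarith)
            _ = C1 * (C1 * (K + 1) + 1) * (1 / (N * √N)) := by ring
        have h2 := Pw_log h0 (by linarith) (by positivity) h1
        rw [one_div, Real.log_inv, Real.log_mul hN0.ne' hs0.ne', hls] at h2
        linarith
      · rw [if_neg (fun h => hA3 h.2)]
        have h1 := one j s1 b1
        have h2 := Pw_log h0 hCpos (by positivity) h1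
        rw [one_div, Real.log_inv, hls] at h2
        have h3 := Real.log_le_log hCpos hB1
        linarith
    · rw [if_neg hAj, if_neg (fun h => hAj h.1)]
      have h2 := Pw_log h0 (by linarith) hs0 a1
      rw [hls] at h2
      have h3 := Real.log_le_log (by linarith : 0 < K) (hB0.trans hB1)
      linarith

end TightIndep.FX
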