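import Mathlib

/-!
# FX-Om: the number of the prime divisors
-/

namespace TightIndep.FX

open Finset

theorem om (c : ℝ) (hc : 1 ≤ c) (ε : ℝ) (hε : 0 < ε) : ∃ C : ℝ, 1 ≤ C ∧ ∀ n : ℕ, 0 < n →
    c ^ n.primeFactors.card ≤ C * (n : ℝ) ^ ε := by
  have hc0 : 0 ≤ c := by linarith
  obtain ⟨P, hP⟩ : ∃ P : ℕ, c ≤ (P : ℝ) ^ ε := by
    refine ⟨⌈c ^ (1 / ε)⌉₊, ?_⟩
    have h1 : c ^ (1 / ε) ≤ (⌈c ^ (1 / ε)⌉₊ : ℝ) := Nat.le_ceil _
    have h2 : (c ^ (1 / ε)) ^ ε = c := by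
      rw [← Real.rpow_mul hc0, one_div_mul_cancel hε.ne', Real.rpow_one]
    calc c = (c ^ (1 / ε)) ^ ε := h2.symm
      _ ≤ _ := Real.rpow_le_rpow (by positivity) h1 hε.le
  refine ⟨c ^ P, one_le_pow₀ hc, fun n hn => ?_⟩
  have h1 : ∀ p ∈ n.primeFactors, c ≤ (if p < P then c else 1) * (p : ℝ) ^ ε := by
    intro p hp
    have hp1 : (1 : ℝ) ≤ p := by
      exact_mod_cast (Nat.prime_of_mem_primeFactors hp).one_lt.le
    have hpe : (1 : ℝ) ≤ (p : ℝ) ^ ε := Real.one_le_rpow hp1 hε.le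
    split_ifs with h
    · exact le_mul_of_one_le_right hc0 hpe
    · rw [one_mul]
      push Not at h
      refine hP.trans ?_
      exact Real.rpow_le_rpow (by positivity) (by exact_mod_cast h) hε.le
  have h2 : c ^ n.primeFactors.card ≤ ∏ p ∈ n.primeFactors, (if p < P then c else 1) * (p : ℝ) ^ ε := by
    rw [← prod_const]
    exact prod_le_prod (fun _ _ => hc0) h1
  rw [prod_mul_distrib] at h2
  have h3 : ∏ p ∈ n.primeFactors, (if p < P then c else 1) ≤ c ^ P := by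
    rw [prod_ite, prod_const, prod_const_one, mul_one]
    refine pow_le_pow_right₀ hc ?_
    calc #(n.primeFactors.filter fun p => p < P) ≤ #(range P) := by
          refine card_le_card fun p hp => ?_
          rw [mem_filter] at hp
          exact mem_range.2 hp.2
      _ = P := card_range P
  have h4 : ∏ p ∈ n.primeFactors, (p : ℝ) ^ ε ≤ (n : ℝ) ^ ε := by
    rw [Real.finsetProd_rpow _ _ (fun p _ => Nat.cast_nonneg p)]
    refine Real.rpow_le_rpow (prod_nonneg fun p _ => Nat.cast_nonneg p) ?_ hε.le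
    have h5 : ∏ p ∈ n.primeFactors, p ≤ n := Nat.le_of_dvd hn (Nat.prod_primeFactors_dvd n)
    rw [← Nat.cast_prod]
    exact Nat.cast_le.2 h5
  have h5 : (0 : ℝ) ≤ ∏ p ∈ n.primeFactors, (p : ℝ) ^ ε := prod_nonneg fun p _ => by positivity
  exact h2.trans (mul_le_mul h3 h4 h5 (by positivity))

end TightIndep.FX
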