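import Pool.Agent.Lib.MP_f31b39_co.FX.Zo
import Pool.Agent.Lib.MP_f31b39_co.FX.Om
import Pool.Agent.Lib.MP_f31b39_co.FX.Ds

/-!
# FX-Zr: few character sums are zero
-/

namespace TightIndep.FX

open Finset

private theorem card_ord {n : ℕ} [NeZero n] (d : ℕ) (hd : 0 < d) :
    (univ.filter fun j : ZMod n => addOrderOf j = d).card ≤ d := by
  refine le_trans (card_le_card ?_) (IsAddCyclic.card_nsmul_eq_zero_le (α := ZMod n) hd)
  intro j hj
  rw [mem_filter] at hj ⊢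
  refine ⟨mem_univ _, ?_⟩
  rw [← hj.2]
  exact addOrderOf_nsmul_eq_zero j

private theorem fib {n N W e : ℕ} [NeZero n] (x : ZMod n → ℝ) (hN : 1 ≤ N) (he : e ∈ n.divisors)
    (h : ∀ j : ZMod n, x j = 0 → 2 * N ≤ n / addOrderOf j * W) :
    ((((univ.filter fun j : ZMod n => x j = 0).filter fun j => n / addOrderOf j = e).card : ℕ) : ℝ) ≤
      n * √((W : ℝ) / (2 * N)) * (1 / √(e : ℝ)) := by
  have hn : 0 < n := Nat.pos_of_ne_zero (NeZero.ne n)
  have hed : e ∣ n := Nat.dvd_of_mem_divisors he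
  have he0 : 0 < e := Nat.pos_of_dvd_of_pos hed hn
  rcases Finset.eq_empty_or_nonempty ((univ.filter fun j : ZMod n => x j = 0).filter fun j => n / addOrderOf j = e) with h0 | ⟨j, hj⟩
  · rw [h0, card_empty, Nat.cast_zero]
    positivity
  · rw [mem_filter, mem_filter] at hj
    have h1 := h j hj.1.2
    rw [hj.2] at h1
    have h2 : (((univ.filter fun j : ZMod n => x j = 0).filter fun j => n / addOrderOf j = e).card) ≤ n / e := by
      refine le_trans (card_le_card ?_) (card_ord (n := n) (n / e) (Nat.div_pos (Nat.le_of_dvd hn hed) he0))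
      intro k hk
      rw [mem_filter, mem_filter] at hk
      rw [mem_filter]
      refine ⟨mem_univ _, ?_⟩
      have hk3 : addOrderOf k ∣ n := by
        have := addOrderOf_dvd_card (x := k)
        rwa [ZMod.card] at this
      rw [← hk.2, Nat.div_div_self hk3 hn.ne']
    have h3 : (1 : ℝ) / √(e : ℝ) ≤ √((W : ℝ) / (2 * N)) := by
      rw [← Real.sqrt_one, ← Real.sqrt_div zero_le_one]
      refine Real.sqrt_le_sqrt ?_
      have hN' : (0 : ℝ) < 2 * N := by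
        have : (1 : ℝ) ≤ N := by exact_mod_cast hN
        linarith
      have he' : (0 : ℝ) < e := by exact_mod_cast he0
      rw [div_le_div_iff₀ he' hN']
      have h4 : ((2 * N : ℕ) : ℝ) ≤ ((e * W : ℕ) : ℝ) := by exact_mod_cast h1
      push_cast at h4
      linarith
    have h5 : ((n / e : ℕ) : ℝ) = n * (1 / √(e : ℝ)) * (1 / √(e : ℝ)) := by
      rw [Nat.cast_div hed (by exact_mod_cast he0.ne'), mul_assoc, ← mul_div_mul_comm, one_mul, Real.mul_self_sqrt (Nat.cast_nonneg e),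
        mul_one_div]
    calc _ ≤ ((n / e : ℕ) : ℝ) := by exact_mod_cast h2
      _ = n * (1 / √(e : ℝ)) * (1 / √(e : ℝ)) := h5
      _ ≤ _ := by gcongr

theorem zr (r : ℕ) (hr : 2 ≤ r) : ∃ C : ℝ, 0 ≤ C ∧ ∀ (n N : ℕ) [NeZero n] (ι : Type) [Fintype ι] [DecidableEq ι]
    (g : ι → ZMod n) (x : ZMod n → ℝ), Dat r n N g x → 1 ≤ N →
      ((univ.filter fun j : ZMod n => x j = 0).card : ℝ) ≤ C * n / (N : ℝ) ^ (1 / 4 : ℝ) := by
  have hr0 : (0 : ℝ) < r := by exact_mod_cast (by omega : 0 < r)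
  obtain ⟨C1, hC1, hom⟩ := om 8 (by norm_num) (1 / (4 * r)) (by positivity)
  have hK : (0 : ℝ) ≤ ((3 : ℝ) ^ (r + 1) * 2 ^ r) ^ (1 / (4 * r) : ℝ) := by positivity
  refine ⟨C1 * ((3 : ℝ) ^ (r + 1) * 2 ^ r) ^ (1 / (4 * r) : ℝ), mul_nonneg (by linarith) hK, ?_⟩
  intro n N _ ι _ _ g x hD hN
  have hn : 0 < n := Nat.pos_of_ne_zero (NeZero.ne n)
  have hN1 : (1 : ℝ) ≤ N := by exact_mod_cast hN
  have hN0 : (0 : ℝ) < N := by linarith
  have hx0 : x 0 ≠ 0 := by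
    intro h
    have h1 := hD.hx 0
    rw [h] at h1
    simp only [zero_mul, AddChar.map_zero_eq_one, sum_const, card_univ, nsmul_eq_mul, mul_one, Complex.ofReal_zero] at h1
    have h2 : Fintype.card ι = 0 := by exact_mod_cast h1.symm
    have h3 := hD.lo
    omega
  have hz : ∀ j : ZMod n, x j = 0 → 2 * N ≤ n / addOrderOf j * 2 ^ n.primeFactors.card := fun j h =>
    zo g x hD j (by rintro rfl; exact hx0 h) h
  set ω := n.primeFactors.card with hω
  have hdvd : ∀ j : ZMod n, n / addOrderOf j ∈ n.divisors := by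
    intro j
    have := addOrderOf_dvd_card (x := j)
    rw [ZMod.card] at this
    exact Nat.mem_divisors.2 ⟨Nat.div_dvd_of_dvd this, hn.ne'⟩
  have hS : ((univ.filter fun j : ZMod n => x j = 0).card : ℝ) ≤ n * √(((2 ^ ω : ℕ) : ℝ) / (2 * N)) * 4 ^ ω := by
    rw [card_eq_sum_card_fiberwise (f := fun j : ZMod n => n / addOrderOf j) (t := n.divisors) (fun j _ => hdvd j), Nat.cast_sum]
    refine le_trans (sum_le_sum fun e he => fib x hN he hz) ?_
    rw [← mul_sum]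
    exact mul_le_mul_of_nonneg_left (ds n hn) (by positivity)
  have h8 : √(((2 ^ ω : ℕ) : ℝ) / (2 * N)) * 4 ^ ω ≤ 8 ^ ω / √(N : ℝ) := by
    have h1 : √(((2 ^ ω : ℕ) : ℝ) / (2 * N)) ≤ 2 ^ ω / √(N : ℝ) := by
      rw [Real.sqrt_div (by positivity)]
      have h2 : √(((2 ^ ω : ℕ) : ℝ)) ≤ 2 ^ ω := by
        rw [Real.sqrt_le_left (by positivity)]
        push_cast
        have : (1 : ℝ) ≤ 2 ^ ω := one_le_pow₀ (by norm_num)
        nlinarith
      have h3 : √(N : ℝ) ≤ √(2 * N : ℝ) := Real.sqrt_le_sqrt (by linarith)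
      exact div_le_div₀ (by positivity) h2 (Real.sqrt_pos.2 hN0) h3
    calc _ ≤ 2 ^ ω / √(N : ℝ) * 4 ^ ω := mul_le_mul_of_nonneg_right h1 (by positivity)
      _ = 8 ^ ω / √(N : ℝ) := by
        rw [div_mul_eq_mul_div, ← mul_pow]
        norm_num
  have hn2 : (n : ℝ) ^ (1 / (4 * r) : ℝ) ≤ ((3 : ℝ) ^ (r + 1) * 2 ^ r) ^ (1 / (4 * r) : ℝ) * (N : ℝ) ^ (1 / 4 : ℝ) := by
    have h1 : (n : ℝ) ≤ ((3 : ℝ) ^ (r + 1) * 2 ^ r) * (N : ℝ) ^ r := by
      have h2 : n ≤ 3 ^ (r + 1) * (2 * N) ^ r := le_trans hD.nhi (Nat.mul_le_mul_left _ (Nat.pow_le_pow_left (by omega) r))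
      have h3 : (n : ℝ) ≤ ((3 ^ (r + 1) * (2 * N) ^ r : ℕ) : ℝ) := by exact_mod_cast h2
      push_cast at h3
      rw [mul_pow] at h3
      linarith
    refine le_trans (Real.rpow_le_rpow (Nat.cast_nonneg n) h1 (by positivity)) (le_of_eq ?_)
    rw [Real.mul_rpow (by positivity) (by positivity), ← Real.rpow_natCast (N : ℝ) r, ← Real.rpow_mul hN0.le]
    congr 2
    field_simp
  have hsq : √(N : ℝ) = (N : ℝ) ^ (1 / 4 : ℝ) * (N : ℝ) ^ (1 / 4 : ℝ) := by
    rw [← Real.rpow_add hN0, Real.sqrt_eq_rpow]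
    norm_num
  have hq : (0 : ℝ) < (N : ℝ) ^ (1 / 4 : ℝ) := Real.rpow_pos_of_pos hN0 _
  calc ((univ.filter fun j : ZMod n => x j = 0).card : ℝ) ≤ n * √(((2 ^ ω : ℕ) : ℝ) / (2 * N)) * 4 ^ ω := hS
    _ = n * (√(((2 ^ ω : ℕ) : ℝ) / (2 * N)) * 4 ^ ω) := by ring
    _ ≤ n * (8 ^ ω / √(N : ℝ)) := mul_le_mul_of_nonneg_left h8 (Nat.cast_nonneg n)
    _ ≤ n * ((C1 * (((3 : ℝ) ^ (r + 1) * 2 ^ r) ^ (1 / (4 * r) : ℝ) * (N : ℝ) ^ (1 / 4 : ℝ))) / √(N : ℝ)) := by
      refine mul_le_mul_of_nonneg_left (div_le_div_of_nonneg_right ?_ (Real.sqrt_nonneg _)) (Nat.cast_nonneg n)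
      exact le_trans (hom n hn) (mul_le_mul_of_nonneg_left hn2 (by linarith))
    _ = _ := by
      rw [hsq]
      field_simp

end TightIndep.FX
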