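import Pool.Agent.Lib.MP_f31b39_co.FX.Cn
import Pool.Agent.Lib.MP_f31b39_co.FX.Pw
import Pool.Agent.Lib.MP_f31b39_co.FX.Zr

/-!
# FX-Fi: the contradiction
-/

namespace TightIndep.FX

open Finset

private theorem Fi_ite {α : Type} (T : Finset α) (p : α → Prop) [DecidablePred p] (L : ℝ) :
    ∑ j ∈ T, (if p j then L else 0) = ((T.filter p).card : ℝ) * L := by
  rw [← sum_filter, sum_const, nsmul_eq_mul]

private theorem Fi_card {n : ℕ} [NeZero n] (E T : Finset (ZMod n)) (hT : ∀ j, j ≠ 0 → j ∉ E → j ∈ T)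
    (p : ZMod n → Prop) [DecidablePred p] :
    ((univ.filter p).card : ℝ) ≤ ((T.filter p).card : ℝ) + E.card + 1 := by
  classical
  have h1 : (univ.filter p) ⊆ (T.filter p ∪ E) ∪ {0} := by
    intro j hj
    rw [mem_filter] at hj
    by_cases h0 : j = 0
    · exact mem_union_right _ (mem_singleton.2 h0)
    · refine mem_union_left _ ?_
      by_cases hE : j ∈ E
      · exact mem_union_right _ hE
      · exact mem_union_left _ (mem_filter.2 ⟨hT j h0 hE, hj.2⟩)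
  have h2 := (card_le_card h1).trans ((card_union_le _ _).trans (Nat.add_le_add_right (card_union_le _ _) _))
  rw [card_singleton] at h2
  exact_mod_cast h2

private theorem Fi_main {r n N : ℕ} [NeZero n] {ι : Type} [Fintype ι] [DecidableEq ι] {g : ι → ZMod n} {x : ZMod n → ℝ}
    (hD : Dat r n N g x) (hN : 1 ≤ N) {A C F L : ℝ} (hC : 0 ≤ C) (hF : (((6 * r) ^ 2 : ℕ) : ℝ) = F) (hL : L = Real.log N)
    (hpt : ∀ j : ZMod n, j ∉ Exc r n → Real.log |x j| ≤ C + Real.log N / 2 - (if |x j| ≤ A then Real.log N else 0) -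
        (if |x j| ≤ A ∧ |x (3 * j)| ≤ A then Real.log N else 0) + (if x j = 0 then 2 * Real.log N else 0)) :
    0 ≤ C * n + L / 2 * n - (((univ.filter fun j : ZMod n => |x j| ≤ A).card : ℝ) - F - 1) * L -
      (((univ.filter fun j : ZMod n => |x j| ≤ A ∧ |x (3 * j)| ≤ A).card : ℝ) - F - 1) * L +
      ((univ.filter fun j : ZMod n => x j = 0).card : ℝ) * (2 * L) + F * (2 + L) := by
  classical
  have hNr : (1 : ℝ) ≤ N := by exact_mod_cast hN
  have hL0 : 0 ≤ L := by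
    rw [hL]
    exact Real.log_nonneg hNr
  rw [← hL] at hpt
  have hEc : ((Exc r n).card : ℝ) ≤ F := by
    rw [← hF]
    exact_mod_cast exc_card r n
  have h0 := lg g x hD.hx
  rw [← sum_filter_add_sum_filter_not _ (fun j => j ∈ Exc r n)] at h0
  have hE : ∑ j ∈ ((univ : Finset (ZMod n)).erase 0).filter (fun j => j ∈ Exc r n), Real.log |x j| ≤ F * (2 + L) := by
    have h1 : ∀ j ∈ ((univ : Finset (ZMod n)).erase 0).filter (fun j => j ∈ Exc r n), Real.log |x j| ≤ 2 + L := by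
      intro j _
      have h2 := x_le hD hN j
      have h3 : Real.log (4 * N) ≤ 2 + L := by
        rw [Real.log_mul (by norm_num) (by positivity), ← hL]
        have h4 : Real.log 4 ≤ 2 := by
          have h5 := Real.log_two_lt_d9
          have h6 : Real.log 4 = 2 * Real.log 2 := by
            rw [show (4 : ℝ) = 2 ^ 2 by norm_num, Real.log_pow]
            norm_num
          rw [h6]
          linarith
        linarith
      rcases (abs_nonneg (x j)).eq_or_lt with h4 | h4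
      · rw [← h4, Real.log_zero]
        positivity
      · exact (Real.log_le_log h4 h2).trans h3
    refine (sum_le_card_nsmul _ _ _ h1).trans ?_
    rw [nsmul_eq_mul]
    refine mul_le_mul_of_nonneg_right ?_ (by positivity)
    refine le_trans ?_ hEc
    exact_mod_cast card_le_card (fun j hj => (mem_filter.1 hj).2)
  obtain ⟨T, hT⟩ : ∃ T, T = ((univ : Finset (ZMod n)).erase 0).filter (fun j => j ∉ Exc r n) := ⟨_, rfl⟩
  rw [← hT] at h0
  have hTn : (T.card : ℝ) ≤ n := by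
    have h1 := card_le_univ T
    rw [ZMod.card] at h1
    exact_mod_cast h1
  have hTm : ∀ j : ZMod n, j ≠ 0 → j ∉ Exc r n → j ∈ T := by
    intro j h1 h2
    rw [hT, mem_filter, mem_erase]
    exact ⟨⟨h1, mem_univ j⟩, h2⟩
  have hTs : ∑ j ∈ T, Real.log |x j| ≤ T.card * C + T.card * (L / 2) -
      ((T.filter fun j : ZMod n => |x j| ≤ A).card : ℝ) * L -
      ((T.filter fun j : ZMod n => |x j| ≤ A ∧ |x (3 * j)| ≤ A).card : ℝ) * L +
      ((T.filter fun j : ZMod n => x j = 0).card : ℝ) * (2 * L) := by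
    have h1 : ∀ j ∈ T, Real.log |x j| ≤ C + L / 2 - (if |x j| ≤ A then L else 0) -
        (if |x j| ≤ A ∧ |x (3 * j)| ≤ A then L else 0) + (if x j = 0 then 2 * L else 0) := by
      intro j hj
      rw [hT, mem_filter] at hj
      exact hpt j hj.2
    refine (sum_le_sum h1).trans (le_of_eq ?_)
    rw [sum_add_distrib, sum_sub_distrib, sum_sub_distrib, sum_add_distrib, Fi_ite, Fi_ite, Fi_ite, sum_const, sum_const,
      nsmul_eq_mul, nsmul_eq_mul]
  have c1 := Fi_card (Exc r n) T hTm (fun j : ZMod n => |x j| ≤ A)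
  have c2 := Fi_card (Exc r n) T hTm (fun j : ZMod n => |x j| ≤ A ∧ |x (3 * j)| ≤ A)
  have c3 : ((T.filter fun j : ZMod n => x j = 0).card : ℝ) ≤ ((univ.filter fun j : ZMod n => x j = 0).card : ℝ) := by
    exact_mod_cast card_le_card (filter_subset_filter _ (subset_univ T))
  have d0 := mul_le_mul_of_nonneg_right hTn hC
  have d0' := mul_le_mul_of_nonneg_right hTn (show 0 ≤ L / 2 by positivity)
  have d1 : (((univ.filter fun j : ZMod n => |x j| ≤ A).card : ℝ) - F - 1) * L ≤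
      ((T.filter fun j : ZMod n => |x j| ≤ A).card : ℝ) * L := mul_le_mul_of_nonneg_right (by linarith) hL0
  have d2 : (((univ.filter fun j : ZMod n => |x j| ≤ A ∧ |x (3 * j)| ≤ A).card : ℝ) - F - 1) * L ≤
      ((T.filter fun j : ZMod n => |x j| ≤ A ∧ |x (3 * j)| ≤ A).card : ℝ) * L := mul_le_mul_of_nonneg_right (by linarith) hL0
  have d3 := mul_le_mul_of_nonneg_right c3 (show 0 ≤ 2 * L by positivity)
  linarith

private theorem Fi_lim (C1 C2 B : ℝ) {δ : ℝ} (hδ : 0 < δ) :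
    ∃ N₁ : ℝ, ∀ N : ℝ, N₁ ≤ N → 2 * C1 / √N + 2 * C2 / N ^ (1 / 4 : ℝ) + B / N ≤ δ / 2 := by
  have h1 : Filter.Tendsto (fun N : ℝ => 2 * C1 / √N) Filter.atTop (nhds 0) :=
    Real.tendsto_sqrt_atTop.const_div_atTop _
  have h2 : Filter.Tendsto (fun N : ℝ => 2 * C2 / N ^ (1 / 4 : ℝ)) Filter.atTop (nhds 0) :=
    (tendsto_rpow_atTop (by norm_num)).const_div_atTop _
  have h3 : Filter.Tendsto (fun N : ℝ => B / N) Filter.atTop (nhds 0) := Filter.tendsto_id.const_div_atTop _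
  have h4 := (h1.add h2).add h3
  rw [add_zero, add_zero] at h4
  have h5 := h4.eventually_le_const (show (0 : ℝ) < δ / 2 by positivity)
  exact Filter.eventually_atTop.1 h5

theorem fi (r : ℕ) (hr : Odd r) (hr3 : 3 ≤ r) (w κ : ℝ) (P : Polynomial ℝ) (c : ℕ → ℝ) (hR : Rad r w κ P c)
    (hw : 1 / 2 < w + w ^ 2) :
    ∃ M : ℕ, ∀ (n N : ℕ) [NeZero n] (ι : Type) [Fintype ι] [DecidableEq ι]
    (g : ι → ZMod n) (x : ZMod n → ℝ), Dat r n N g x → N ≤ M := by
  obtain ⟨A, C1, hA, hC1, hcn⟩ := cn r (by omega) w κ P c hR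
  obtain ⟨C, N₀, hC, hN₀, hpt⟩ := ptw r hr hr3 A hA
  obtain ⟨C2, hC2, hzr⟩ := zr r (by omega)
  obtain ⟨F, hF⟩ : ∃ F : ℝ, (((6 * r) ^ 2 : ℕ) : ℝ) = F := ⟨_, rfl⟩
  obtain ⟨R, hRf⟩ : ∃ R : ℝ, R = (r.factorial : ℝ) := ⟨_, rfl⟩
  have hF0 : 0 ≤ F := by
    rw [← hF]
    positivity
  have hR0 : 0 < R := by
    rw [hRf]
    positivity
  obtain ⟨δ, hδ⟩ : ∃ δ, δ = w + w ^ 2 - 1 / 2 := ⟨_, rfl⟩
  have hδ0 : 0 < δ := by
    rw [hδ]
    linarith
  obtain ⟨N₁, hN₁⟩ := Fi_lim C1 C2 ((3 * F + 2) * R) hδ0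
  obtain ⟨M, hM⟩ := exists_nat_ge (max (max N₀ N₁) (Real.exp (2 * (C + 2 * F * R) / δ)))
  refine ⟨M, fun n N _ ι _ _ g x hD => ?_⟩
  by_contra hcon
  have hNM : (M : ℝ) < N := by exact_mod_cast not_le.1 hcon
  have k0 : N₀ ≤ N := ((le_max_left _ _).trans (le_max_left _ _)).trans (hM.trans hNM.le)
  have k1 : N₁ ≤ N := ((le_max_right _ _).trans (le_max_left _ _)).trans (hM.trans hNM.le)
  have k2 : Real.exp (2 * (C + 2 * F * R) / δ) < N := lt_of_le_of_lt ((le_max_right _ _).trans hM) hNM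
  have hNr : (1 : ℝ) ≤ N := hN₀.trans k0
  have hN : 1 ≤ N := by exact_mod_cast hNr
  have hN0 : (0 : ℝ) < N := by linarith
  have hn0 : (0 : ℝ) < n := by exact_mod_cast Nat.pos_of_ne_zero (NeZero.ne n)
  obtain ⟨L, hL⟩ : ∃ L, L = Real.log N := ⟨_, rfl⟩
  have hL0 : 0 ≤ L := by
    rw [hL]
    exact Real.log_nonneg hNr
  have hLb : 2 * (C + 2 * F * R) / δ < L := by
    rw [hL]
    exact (Real.lt_log_iff_exp_lt hN0).2 k2
  have hmain := Fi_main hD hN hC hF hL (hpt n N ι g x hD k0)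
  obtain ⟨e1, e2⟩ := hcn n N ι g x hD hN
  have e3 := hzr n N ι g x hD hN
  have e4 := hN₁ N k1
  -- `R n ≥ N`
  have hRn : (N : ℝ) ≤ R * n := by
    have h1 : N ≤ r.factorial * n := (Nat.le_self_pow (by omega) N).trans hD.nlo
    rw [hRf]
    exact_mod_cast h1
  obtain ⟨s1, hs1⟩ : ∃ s1, s1 = ((univ.filter fun j : ZMod n => |x j| ≤ A).card : ℝ) := ⟨_, rfl⟩
  obtain ⟨s2, hs2⟩ : ∃ s2, s2 = ((univ.filter fun j : ZMod n => |x j| ≤ A ∧ |x (3 * j)| ≤ A).card : ℝ) := ⟨_, rfl⟩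
  obtain ⟨z, hz⟩ : ∃ z, z = ((univ.filter fun j : ZMod n => x j = 0).card : ℝ) := ⟨_, rfl⟩
  rw [← hs1] at e1 hmain
  rw [← hs2] at e2 hmain
  rw [← hz] at e3 hmain
  have f1 : (w * n - C1 * n / √N) * L ≤ s1 * L := mul_le_mul_of_nonneg_right e1 hL0
  have f2 : (w ^ 2 * n - C1 * n / √N) * L ≤ s2 * L := mul_le_mul_of_nonneg_right e2 hL0
  have f3 : z * (2 * L) ≤ C2 * n / (N : ℝ) ^ (1 / 4 : ℝ) * (2 * L) := mul_le_mul_of_nonneg_right e3 (by positivity)
  have f4 : (2 * C1 / √N + 2 * C2 / (N : ℝ) ^ (1 / 4 : ℝ) + (3 * F + 2) * R / N) * (n * L) ≤ δ / 2 * (n * L) :=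
    mul_le_mul_of_nonneg_right e4 (by positivity)
  have f5 : (3 * F + 2) * L ≤ (3 * F + 2) * R / N * (n * L) := by
    have h1 : (3 * F + 2) * R / N * (n * L) = (3 * F + 2) * L * (R * n / N) := by
      field_simp
    rw [h1]
    have h2 : 1 ≤ R * n / N := (one_le_div₀ hN0).2 hRn
    have h3 : 0 ≤ (3 * F + 2) * L := by positivity
    exact le_mul_of_one_le_right h3 h2
  have f6 : 2 * F ≤ 2 * F * R * n := by
    have h2 : 1 ≤ R * n := hNr.trans hRn
    rw [mul_assoc (2 * F)]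
    exact le_mul_of_one_le_right (by positivity) h2
  have f7 : (C + 2 * F * R) * n < δ / 2 * (n * L) := by
    rw [div_lt_iff₀ hδ0] at hLb
    have h1 := mul_lt_mul_of_pos_right hLb (show (0 : ℝ) < n / 2 by positivity)
    have h2 : 2 * (C + 2 * F * R) * ((n : ℝ) / 2) = (C + 2 * F * R) * n := by ring
    have h3 : L * δ * ((n : ℝ) / 2) = δ / 2 * (n * L) := by ring
    rwa [h2, h3] at h1
  have g1 : C1 * n / √N * L = 2 * C1 / √N * (n * L) / 2 := by ring
  have g2 : C2 * n / (N : ℝ) ^ (1 / 4 : ℝ) * (2 * L) = 2 * C2 / (N : ℝ) ^ (1 / 4 : ℝ) * (n * L) := by ring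
  rw [sub_mul, g1] at f1 f2
  rw [g2] at f3
  have g3 : (w * n * L + w ^ 2 * n * L) = (δ + 1 / 2) * (n * L) := by
    rw [hδ]
    ring
  have g4 : (2 * C1 / √N + 2 * C2 / (N : ℝ) ^ (1 / 4 : ℝ) + (3 * F + 2) * R / N) * (n * L) =
      2 * C1 / √N * (n * L) + 2 * C2 / (N : ℝ) ^ (1 / 4 : ℝ) * (n * L) + (3 * F + 2) * R / N * (n * L) := by ring
  rw [g4] at f4
  have g5 : C * n + L / 2 * n - (s1 - F - 1) * L - (s2 - F - 1) * L + z * (2 * L) + F * (2 + L) =
      C * n + 1 / 2 * (n * L) - s1 * L - s2 * L + z * (2 * L) + (3 * F + 2) * L + 2 * F := by ring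
  rw [g5] at hmain
  linarith

end TightIndep.FX
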