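import Pool.Agent.Lib.MP_f31b39_co.FX.Defs

/-!
# FX-Gr: the characters of a given order
-/

namespace TightIndep.FX

open Finset

private theorem ord_aux {n d : ℕ} [NeZero n] [NeZero d] (hd : d ∣ n) (u : (ZMod d)ˣ) :
    addOrderOf (((n / d * (u : ZMod d).val : ℕ)) : ZMod n) = d := by
  have hn : n ≠ 0 := NeZero.ne n
  have hd0 : d ≠ 0 := NeZero.ne d
  obtain ⟨e, rfl⟩ := hd
  have he : 0 < e := Nat.pos_of_ne_zero (fun h => hn (by rw [h, mul_zero]))
  have hdp : 0 < d := Nat.pos_of_ne_zero hd0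
  rw [ZMod.addOrderOf_coe _ hn, Nat.mul_div_cancel_left e hdp, mul_comm d e, Nat.gcd_mul_left]
  have hc : Nat.gcd d (u : ZMod d).val = 1 := by
    rw [Nat.gcd_comm]
    exact ZMod.val_coe_unit_coprime u
  rw [hc, mul_one, Nat.mul_div_cancel_left d he]

private theorem inj_aux {n d : ℕ} [NeZero n] [NeZero d] (hd : d ∣ n) :
    Function.Injective (fun u : (ZMod d)ˣ => (((n / d * (u : ZMod d).val : ℕ)) : ZMod n)) := by
  intro u v h
  have hn : n ≠ 0 := NeZero.ne n
  have hd0 : d ≠ 0 := NeZero.ne d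
  obtain ⟨e, rfl⟩ := hd
  have he : e ≠ 0 := fun h => hn (by rw [h, mul_zero])
  have hdp : 0 < d := Nat.pos_of_ne_zero hd0
  simp only [] at h
  rw [Nat.mul_div_cancel_left e hdp, ZMod.natCast_eq_natCast_iff, mul_comm d e] at h
  have h2 : (u : ZMod d).val ≡ (v : ZMod d).val [MOD d] := Nat.ModEq.mul_left_cancel' he h
  have h3 : (u : ZMod d).val = (v : ZMod d).val :=
    Nat.ModEq.eq_of_lt_of_lt h2 (ZMod.val_lt _) (ZMod.val_lt _)
  exact Units.ext (ZMod.val_injective d h3)

theorem grp {n d : ℕ} [NeZero n] [NeZero d] (hd : d ∣ n) (F : ZMod n → ℝ) :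
    ∑ j ∈ univ.filter (fun j : ZMod n => addOrderOf j = d), F j =
      ∑ u : (ZMod d)ˣ, F (((n / d * (u : ZMod d).val : ℕ)) : ZMod n) := by
  have himg : (univ : Finset (ZMod d)ˣ).image
      (fun u : (ZMod d)ˣ => (((n / d * (u : ZMod d).val : ℕ)) : ZMod n)) =
      univ.filter (fun j : ZMod n => addOrderOf j = d) := by
    apply Finset.eq_of_subset_of_card_le
    · intro x hx
      obtain ⟨u, -, rfl⟩ := Finset.mem_image.mp hx
      exact Finset.mem_filter.mpr ⟨Finset.mem_univ _, ord_aux hd u⟩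
    · rw [Finset.card_image_of_injective _ (inj_aux hd), Finset.card_univ,
        ZMod.card_units_eq_totient]
      apply le_of_eq
      apply IsAddCyclic.card_addOrderOf_eq_totient
      rw [ZMod.card]
      exact hd
  rw [← himg, Finset.sum_image (fun a _ b _ h => inj_aux hd h)]

end TightIndep.FX
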