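import Pool.Agent.Lib.MP_f31b39_co.FX.Gr
import Pool.Agent.Lib.MP_f31b39_co.FX.Ch
import Pool.Agent.Lib.MP_f31b39_co.NO.Norm

/-!
# FX-Lg: the sum of the logarithms is not negative
-/

namespace TightIndep.FX

open Finset

/-- If one value at a generator is not zero, the norm of the product is at least one. -/
private theorem Lg_norm {n d : ℕ} [NeZero n] [NeZero d] (hd : d ∣ n) {ι : Type} [Fintype ι] (g : ι → ZMod n)
    (x : ZMod n → ℝ) (hx : ∀ j, (x j : ℂ) = ∑ i, ZMod.stdAddChar (j * g i))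
    (h0 : ∃ u : (ZMod d)ˣ, x (((n / d * (u : ZMod d).val : ℕ)) : ZMod n) ≠ 0) :
    1 ≤ |∏ u : (ZMod d)ˣ, x (((n / d * (u : ZMod d).val : ℕ)) : ZMod n)| := by
  refine NO.norm_ge (n := d) (fun i => ZMod.castHom hd (ZMod d) (g i))
    (fun c : ZMod d => x (((n / d * c.val : ℕ)) : ZMod n)) (fun c => ?_) h0
  rw [hx]
  exact sum_congr rfl fun i _ => chr hd c (g i)

private theorem Lg_ne {n d : ℕ} [NeZero n] [NeZero d] (hd : d ∣ n) {ι : Type} [Fintype ι] (g : ι → ZMod n)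
    (x : ZMod n → ℝ) (hx : ∀ j, (x j : ℂ) = ∑ i, ZMod.stdAddChar (j * g i))
    (h0 : ∃ u : (ZMod d)ˣ, x (((n / d * (u : ZMod d).val : ℕ)) : ZMod n) ≠ 0) (u : (ZMod d)ˣ) :
    x (((n / d * (u : ZMod d).val : ℕ)) : ZMod n) ≠ 0 := by
  intro h1
  have h2 := Lg_norm hd g x hx h0
  rw [prod_eq_zero (mem_univ u) h1, abs_zero] at h2
  exact absurd h2 (by norm_num)

/-- Each element of order `d` is one of the multiples. -/
private theorem Lg_ex {n d : ℕ} [NeZero n] [NeZero d] (hd : d ∣ n) (j : ZMod n) (hj : addOrderOf j = d) :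
    ∃ u : (ZMod d)ˣ, (((n / d * (u : ZMod d).val : ℕ)) : ZMod n) = j := by
  by_contra hcon
  push Not at hcon
  have h1 := grp hd (fun k : ZMod n => if k = j then (1 : ℝ) else 0)
  rw [sum_eq_single_of_mem j (mem_filter.2 ⟨mem_univ _, hj⟩) (fun k _ hk => if_neg hk), if_pos rfl,
    sum_eq_zero fun u _ => if_neg (hcon u)] at h1
  exact one_ne_zero h1

theorem lgd {n d : ℕ} [NeZero n] (hd : d ∣ n) {ι : Type} [Fintype ι] (g : ι → ZMod n) (x : ZMod n → ℝ)
    (hx : ∀ j, (x j : ℂ) = ∑ i, ZMod.stdAddChar (j * g i)) :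
    0 ≤ ∑ j ∈ univ.filter (fun j : ZMod n => addOrderOf j = d), Real.log |x j| := by
  have hd0 : NeZero d := ⟨fun h => NeZero.ne n (Nat.eq_zero_of_zero_dvd (h ▸ hd))⟩
  rw [grp hd (fun j => Real.log |x j|)]
  by_cases h0 : ∃ u : (ZMod d)ˣ, x (((n / d * (u : ZMod d).val : ℕ)) : ZMod n) ≠ 0
  · have h1 := Lg_norm hd g x hx h0
    have h2 := Lg_ne hd g x hx h0
    rw [← Real.log_prod fun u _ => abs_ne_zero.2 (h2 u), ← abs_prod]
    exact Real.log_nonneg h1
  · push Not at h0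
    rw [sum_eq_zero]
    intro u _
    rw [h0 u, abs_zero, Real.log_zero]

theorem zero_all {n : ℕ} [NeZero n] {ι : Type} [Fintype ι] (g : ι → ZMod n) (x : ZMod n → ℝ)
    (hx : ∀ j, (x j : ℂ) = ∑ i, ZMod.stdAddChar (j * g i)) (j j' : ZMod n) (h : addOrderOf j = addOrderOf j')
    (h0 : x j = 0) : x j' = 0 := by
  have hd : addOrderOf j ∣ n := by
    have := addOrderOf_dvd_card (x := j)
    rwa [ZMod.card] at this
  have hd0 : NeZero (addOrderOf j) := ⟨fun h => NeZero.ne n (Nat.eq_zero_of_zero_dvd (h ▸ hd))⟩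
  obtain ⟨u, hu⟩ := Lg_ex hd j rfl
  obtain ⟨u', hu'⟩ := Lg_ex hd j' h.symm
  by_contra h1
  refine Lg_ne hd g x hx ⟨u', ?_⟩ u ?_
  · rw [hu']
    exact h1
  · rw [hu]
    exact h0

theorem lg {n : ℕ} [NeZero n] {ι : Type} [Fintype ι] (g : ι → ZMod n) (x : ZMod n → ℝ)
    (hx : ∀ j, (x j : ℂ) = ∑ i, ZMod.stdAddChar (j * g i)) :
    0 ≤ ∑ j ∈ (univ : Finset (ZMod n)).erase 0, Real.log |x j| := by
  have hn : n ≠ 0 := NeZero.ne n
  have hmap : ∀ h ∈ (univ : Finset (ZMod n)).erase 0, addOrderOf h ∈ n.divisors.erase 1 := by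
    intro h hh
    rw [mem_erase] at hh ⊢
    refine ⟨fun h1 => hh.1 (AddMonoid.addOrderOf_eq_one_iff.1 h1), ?_⟩
    rw [Nat.mem_divisors]
    refine ⟨?_, hn⟩
    have := addOrderOf_dvd_card (x := h)
    rwa [ZMod.card] at this
  rw [← sum_fiberwise_of_maps_to hmap]
  refine sum_nonneg fun d hd => ?_
  rw [mem_erase, Nat.mem_divisors] at hd
  have h2 : ((univ : Finset (ZMod n)).erase 0).filter (fun h => addOrderOf h = d) =
      univ.filter (fun h : ZMod n => addOrderOf h = d) := by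
    ext h
    simp only [mem_filter, mem_erase, mem_univ, and_true, true_and]
    refine ⟨fun h => h.2, fun h3 => ⟨fun h4 => hd.1 ?_, h3⟩⟩
    rw [← h3, h4, addOrderOf_zero]
  rw [h2]
  exact lgd hd.2.1 g x hx

end TightIndep.FX
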