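import Pool.Agent.Lib.MP_f31b39_co.FX.Ex

/-!
# FX-Me: the means of `P (y j)` and of `P (y j) P (y (3 j))`
-/

namespace TightIndep.FX

open Finset

private theorem Me_GG0 (z : ℂ) : (GG 0).eval z = 1 := by
  have h : GG 0 = 1 := by rw [GG]
  rw [h, Polynomial.eval_one]

private theorem Me_cnt {r N k l c : ℕ} {q : ℝ} (hN : 1 ≤ N) (hq2 : q ^ 2 = N) (hk : k < r)
    (hc : c ≤ 3 * (2 * N + 3) ^ min k l) : (c : ℝ) ≤ 3 * 5 ^ r * q ^ (2 * min k l) := by
  have h1 : c ≤ 3 * (5 * N) ^ min k l := hc.trans (Nat.mul_le_mul_left _ (Nat.pow_le_pow_left (by omega) _))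
  have h2 : (c : ℝ) ≤ 3 * (5 * N) ^ min k l := by exact_mod_cast h1
  have h3 : (5 : ℝ) ^ min k l ≤ 5 ^ r := pow_le_pow_right₀ (by norm_num) (by omega)
  have h4 : (0 : ℝ) ≤ (N : ℝ) ^ min k l := by positivity
  calc (c : ℝ) ≤ 3 * (5 * N) ^ min k l := h2
    _ = 3 * 5 ^ min k l * (N : ℝ) ^ min k l := by rw [mul_pow]; ring
    _ ≤ 3 * 5 ^ r * (N : ℝ) ^ min k l := by
        refine mul_le_mul_of_nonneg_right ?_ h4
        linarith
    _ = 3 * 5 ^ r * q ^ (2 * min k l) := by rw [pow_mul, hq2]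

private theorem Me_key {r n N : ℕ} [NeZero n] {ι : Type} [Fintype ι] [DecidableEq ι] {g : ι → ZMod n} {x : ZMod n → ℝ}
    (hD : Dat r n N g x) (hN : 1 ≤ N) {q C0 : ℝ} (hq1 : 1 ≤ q) (hq2 : q ^ 2 = N) (S : ℕ → ℕ → ℂ)
    (hS : ∀ k l : ℕ, k < r → l < r → ‖S k l - ((q : ℂ) ^ (k + l))⁻¹ *
      ∑ j : ZMod n, cc (pw N (xs x j)) k * cc (pw N (xs x (3 * j))) l‖ ≤ C0 * n / q) :
    (∀ k l : ℕ, k < r → l < r → k ≠ l → ‖S k l‖ ≤ (C0 + 3 * 5 ^ r) * n / q) ∧
      ∀ k : ℕ, k < r → -((C0 + 3 * 5 ^ r) * n / q) ≤ (S k k).re := by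
  have hq : 0 < q := by linarith
  have hn : (0 : ℝ) ≤ n := Nat.cast_nonneg _
  have hcast : ∀ (k l c : ℕ), ((q : ℂ) ^ (k + l))⁻¹ * ((n : ℂ) * c) = (((q ^ (k + l))⁻¹ * (n * c) : ℝ) : ℂ) := by
    intro k l c
    push_cast
    ring
  constructor
  · intro k l hk hl hkl
    obtain ⟨c, hc, hcl⟩ := hD.orth k l hk.le hl.le
    have h1 := hS k l hk hl
    rw [hc, hcast] at h1
    have h2 := Me_cnt (l := l) hN hq2 hk hcl
    have h0 : 0 ≤ (q ^ (k + l))⁻¹ * (n * c : ℝ) := by positivity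
    have h3 : (q ^ (k + l))⁻¹ * (n * c : ℝ) ≤ 3 * 5 ^ r * n / q := by
      have h4 : q ^ (2 * min k l) * q ≤ q ^ (k + l) := by
        rw [← pow_succ]
        exact pow_le_pow_right₀ hq1 (by omega)
      have h5 : (q ^ (k + l))⁻¹ * q ^ (2 * min k l) ≤ 1 / q := by
        rw [le_div_iff₀ hq, mul_assoc, inv_mul_le_iff₀ (by positivity), mul_one]
        exact h4
      calc (q ^ (k + l))⁻¹ * (n * c : ℝ) ≤ (q ^ (k + l))⁻¹ * (n * (3 * 5 ^ r * q ^ (2 * min k l))) := by gcongr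
        _ = 3 * 5 ^ r * n * ((q ^ (k + l))⁻¹ * q ^ (2 * min k l)) := by ring
        _ ≤ 3 * 5 ^ r * n * (1 / q) := by gcongr
        _ = 3 * 5 ^ r * n / q := by ring
    calc ‖S k l‖ = ‖(S k l - (((q ^ (k + l))⁻¹ * (n * c) : ℝ) : ℂ)) + (((q ^ (k + l))⁻¹ * (n * c) : ℝ) : ℂ)‖ := by
          rw [sub_add_cancel]
      _ ≤ C0 * n / q + 3 * 5 ^ r * n / q := by
          refine (norm_add_le _ _).trans (add_le_add h1 ?_)
          rw [Complex.norm_of_nonneg h0]
          exact h3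
      _ = (C0 + 3 * 5 ^ r) * n / q := by ring
  · intro k hk
    obtain ⟨c, hc, hcl⟩ := hD.orth k k hk.le hk.le
    have h1 := hS k k hk hk
    rw [hc, hcast] at h1
    have h0 : 0 ≤ (q ^ (k + k))⁻¹ * (n * c : ℝ) := by positivity
    have h2 := (abs_le.1 ((Complex.abs_re_le_norm _).trans h1)).1
    rw [Complex.sub_re, Complex.ofReal_re] at h2
    have h3 : (C0 + 3 * 5 ^ r) * n / q = C0 * n / q + 3 * 5 ^ r * n / q := by ring
    have h4 : 0 ≤ 3 * 5 ^ r * (n : ℝ) / q := by positivity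
    linarith

theorem me (r : ℕ) (hr : 2 ≤ r) (w κ : ℝ) (P : Polynomial ℝ) (c : ℕ → ℝ) (hR : Rad r w κ P c) :
    ∃ C : ℝ, 0 ≤ C ∧ ∀ (n N : ℕ) [NeZero n] (ι : Type) [Fintype ι] [DecidableEq ι]
    (g : ι → ZMod n) (x : ZMod n → ℝ), Dat r n N g x → 1 ≤ N →
      w * n - C * n / √N ≤ ∑ j : ZMod n, P.eval (x j / √N) ∧
      w ^ 2 * n - C * n / √N ≤ ∑ j : ZMod n, P.eval (x j / √N) * P.eval (x (3 * j) / √N) := by
  obtain ⟨C0, hC0, hex⟩ := ex r hr
  obtain ⟨A, hA⟩ : ∃ A : ℝ, A = ∑ k ∈ range r, |c k| := ⟨_, rfl⟩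
  have hA0 : 0 ≤ A := by rw [hA]; exact Finset.sum_nonneg fun _ _ => abs_nonneg _
  obtain ⟨C1, hC1⟩ : ∃ C1 : ℝ, C1 = C0 + 3 * 5 ^ r := ⟨_, rfl⟩
  have hC1' : 0 ≤ C1 := by rw [hC1]; positivity
  refine ⟨A * C1 + A ^ 2 * C1, by positivity, ?_⟩
  intro n N _ ι _ _ g x hD hN
  have hex' := hex n N ι g x hD hN
  obtain ⟨q, hq⟩ : ∃ q : ℝ, q = √(N : ℝ) := ⟨_, rfl⟩
  have hq1 : 1 ≤ q := by rw [hq]; exact Real.one_le_sqrt.2 (by exact_mod_cast hN)
  have hq2 : q ^ 2 = N := by rw [hq]; exact Real.sq_sqrt (Nat.cast_nonneg _)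
  have hqpos : 0 < q := by linarith
  have hn : (0 : ℝ) ≤ n := Nat.cast_nonneg _
  rw [← hq] at hex' ⊢
  obtain ⟨S, hSdef⟩ : ∃ S : ℕ → ℕ → ℂ, S = fun k l => ∑ j : ZMod n, (GG k).eval (((x j / q : ℝ)) : ℂ) *
    (GG l).eval (((x (3 * j) / q : ℝ)) : ℂ) := ⟨_, rfl⟩
  have hS : ∀ k l : ℕ, S k l = ∑ j : ZMod n, (GG k).eval (((x j / q : ℝ)) : ℂ) *
    (GG l).eval (((x (3 * j) / q : ℝ)) : ℂ) := fun k l => by rw [hSdef]
  obtain ⟨hoff, hdiag⟩ := Me_key hD hN hq1 hq2 S fun k l hk hl => by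
    rw [hS]
    exact hex' k l hk hl
  rw [← hC1] at hoff hdiag
  obtain ⟨B, hB⟩ : ∃ B : ℝ, B = C1 * n / q := ⟨_, rfl⟩
  have hB0 : 0 ≤ B := by rw [hB]; positivity
  rw [← hB] at hoff hdiag
  have h00 : S 0 0 = n := by
    rw [hS]
    simp only [Me_GG0, mul_one, Finset.sum_const, Finset.card_univ, ZMod.card, nsmul_eq_mul]
  have hr0 : 0 < r := by omega
  have hw : c 0 = w := hR.wei
  have hoff' : ∀ k l : ℕ, k < r → l < r → k ≠ l → |(S k l).re| ≤ B := fun k l hk hl hkl =>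
    (Complex.abs_re_le_norm _).trans (hoff k l hk hl hkl)
  constructor
  · have e1 : ((∑ j : ZMod n, P.eval (x j / q) : ℝ) : ℂ) = ∑ k ∈ range r, (c k : ℂ) * S k 0 := by
      rw [Complex.ofReal_sum, Finset.sum_congr rfl fun j _ => hR.exp (x j / q), Finset.sum_comm]
      refine Finset.sum_congr rfl fun k _ => ?_
      rw [hS, Finset.mul_sum]
      exact Finset.sum_congr rfl fun j _ => by rw [Me_GG0, mul_one]
    have e2 : ∑ j : ZMod n, P.eval (x j / q) = ∑ k ∈ range r, c k * (S k 0).re := by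
      have h := congrArg Complex.re e1
      rw [Complex.ofReal_re, Complex.re_sum] at h
      rw [h]
      exact Finset.sum_congr rfl fun k _ => Complex.re_ofReal_mul _ _
    have e3 : ∀ k ∈ range r, (if k = 0 then w * n else 0) - |c k| * B ≤ c k * (S k 0).re := by
      intro k hk
      have hk' := Finset.mem_range.1 hk
      rcases eq_or_ne k 0 with rfl | hk0
      · rw [if_pos rfl, h00, Complex.natCast_re, hw]
        have := mul_nonneg (abs_nonneg w) hB0
        linarith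
      · rw [if_neg hk0]
        have h1 := hoff' k 0 hk' hr0 hk0
        have h2 : |c k * (S k 0).re| ≤ |c k| * B := by
          rw [abs_mul]
          exact mul_le_mul_of_nonneg_left h1 (abs_nonneg _)
        have := (abs_le.1 h2).1
        linarith
    have e4 := Finset.sum_le_sum e3
    rw [Finset.sum_sub_distrib, Finset.sum_ite_eq' (range r) 0, if_pos (Finset.mem_range.2 hr0), ← Finset.sum_mul, ← hA,
      ← e2] at e4
    refine le_trans ?_ e4
    have h5 : (A * C1 + A ^ 2 * C1) * n / q = A * B + A ^ 2 * B := by rw [hB]; ring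
    have h6 : 0 ≤ A ^ 2 * B := by positivity
    linarith
  · have e1 : ((∑ j : ZMod n, P.eval (x j / q) * P.eval (x (3 * j) / q) : ℝ) : ℂ) =
        ∑ k ∈ range r, ∑ l ∈ range r, ((c k * c l : ℝ) : ℂ) * S k l := by
      rw [Complex.ofReal_sum]
      have h1 : ∀ j : ZMod n, ((P.eval (x j / q) * P.eval (x (3 * j) / q) : ℝ) : ℂ) =
          ∑ k ∈ range r, ∑ l ∈ range r, ((c k * c l : ℝ) : ℂ) * ((GG k).eval (((x j / q : ℝ)) : ℂ) *
            (GG l).eval (((x (3 * j) / q : ℝ)) : ℂ)) := by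
        intro j
        rw [Complex.ofReal_mul, hR.exp (x j / q), hR.exp (x (3 * j) / q), Finset.sum_mul_sum]
        refine Finset.sum_congr rfl fun k _ => Finset.sum_congr rfl fun l _ => ?_
        rw [Complex.ofReal_mul]
        ring
      rw [Finset.sum_congr rfl fun j _ => h1 j, Finset.sum_comm]
      refine Finset.sum_congr rfl fun k _ => ?_
      rw [Finset.sum_comm]
      refine Finset.sum_congr rfl fun l _ => ?_
      rw [hS, Finset.mul_sum]
    have e2 : ∑ j : ZMod n, P.eval (x j / q) * P.eval (x (3 * j) / q) =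
        ∑ k ∈ range r, ∑ l ∈ range r, (c k * c l) * (S k l).re := by
      have h := congrArg Complex.re e1
      rw [Complex.ofReal_re, Complex.re_sum] at h
      rw [h]
      refine Finset.sum_congr rfl fun k _ => ?_
      rw [Complex.re_sum]
      exact Finset.sum_congr rfl fun l _ => Complex.re_ofReal_mul _ _
    have e3 : ∀ k ∈ range r, ∀ l ∈ range r,
        (if k = 0 then (if l = 0 then w ^ 2 * n else 0) else 0) - |c k| * |c l| * B ≤ (c k * c l) * (S k l).re := by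
      intro k hk l hl
      have hk' := Finset.mem_range.1 hk
      have hl' := Finset.mem_range.1 hl
      have hp : 0 ≤ |c k| * |c l| * B := mul_nonneg (mul_nonneg (abs_nonneg _) (abs_nonneg _)) hB0
      rcases eq_or_ne k l with rfl | hkl
      · rcases eq_or_ne k 0 with rfl | hk0
        · rw [if_pos rfl, if_pos rfl, h00, Complex.natCast_re, hw]
          rw [hw] at hp
          have : w * w * n = w ^ 2 * n := by ring
          linarith
        · rw [if_neg hk0, ← abs_mul, abs_mul_self]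
          have h1 := mul_le_mul_of_nonneg_left (hdiag k hk') (mul_self_nonneg (c k))
          linarith
      · have h0 : (if k = 0 then (if l = 0 then w ^ 2 * (n : ℝ) else 0) else 0) = 0 := by
          split_ifs with h1 h2
          · exact absurd (h1.trans h2.symm) hkl
          · rfl
          · rfl
        rw [h0]
        have h1 := hoff' k l hk' hl' hkl
        have h2 : |c k * c l * (S k l).re| ≤ |c k| * |c l| * B := by
          rw [abs_mul, abs_mul]
          exact mul_le_mul_of_nonneg_left h1 (mul_nonneg (abs_nonneg _) (abs_nonneg _))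
        have := (abs_le.1 h2).1
        linarith
    have e4 : ∑ k ∈ range r, ∑ l ∈ range r, ((if k = 0 then (if l = 0 then w ^ 2 * (n : ℝ) else 0) else 0) - |c k| * |c l| * B) ≤
        ∑ k ∈ range r, ∑ l ∈ range r, (c k * c l) * (S k l).re :=
      Finset.sum_le_sum fun k hk => Finset.sum_le_sum fun l hl => e3 k hk l hl
    have e5 : ∑ k ∈ range r, ∑ l ∈ range r, ((if k = 0 then (if l = 0 then w ^ 2 * (n : ℝ) else 0) else 0) - |c k| * |c l| * B) =
        w ^ 2 * n - A * A * B := by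
      have h1 : ∀ k ∈ range r, ∑ l ∈ range r, ((if k = 0 then (if l = 0 then w ^ 2 * (n : ℝ) else 0) else 0) - |c k| * |c l| * B) =
          (if k = 0 then w ^ 2 * (n : ℝ) else 0) - |c k| * A * B := by
        intro k _
        rw [Finset.sum_sub_distrib]
        congr 1
        · split_ifs
          · rw [Finset.sum_ite_eq' (range r) 0, if_pos (Finset.mem_range.2 hr0)]
          · exact Finset.sum_const_zero
        · rw [← Finset.sum_mul, ← Finset.mul_sum, ← hA]
      rw [Finset.sum_congr rfl h1, Finset.sum_sub_distrib, Finset.sum_ite_eq' (range r) 0, if_pos (Finset.mem_range.2 hr0),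
        ← Finset.sum_mul, ← Finset.sum_mul, ← hA]
    rw [e5, ← e2] at e4
    refine le_trans ?_ e4
    have h5 : (A * C1 + A ^ 2 * C1) * n / q = A * B + A ^ 2 * B := by rw [hB]; ring
    have h6 : 0 ≤ A * B := by positivity
    have h7 : A * A * B = A ^ 2 * B := by ring
    linarith

end TightIndep.FX
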