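import Pool.Agent.Lib.MP_f31b39_co.FX.Defs
import Pool.Agent.Lib.MP_f31b39_co.NO.Dif
import Pool.Agent.Lib.MP_f31b39_co.AS.Newton
import Pool.Agent.Lib.MP_f31b39_co.AS.Sph

/-!
# FX-RpE: the coefficients as character sums over balls, even case
-/

namespace TightIndep.FX

open Finset

private theorem rpe_sum {n : ℕ} [NeZero n] {m : ℕ} (a : Fin m → ZMod n) (j : ZMod n) :
    ∑ i, (ZMod.stdAddChar (j * NO.sg a i) : ℂ) =
      1 + ∑ i, (ZMod.stdAddChar (j * a i) + (ZMod.stdAddChar (j * a i) : ℂ)⁻¹) := by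
  rw [Fintype.sum_option, Fintype.sum_prod_type]
  congr 1
  · simp [NO.sg]
  · refine Finset.sum_congr rfl fun i _ => ?_
    rw [Fintype.sum_bool]
    simp only [NO.sg]
    rw [mul_neg, AddChar.map_neg_eq_inv]

private theorem rpe_mul {n : ℕ} [NeZero n] {m : ℕ} (a : Fin m → ZMod n) (j : ZMod n) (k : ℕ) :
    ∑ i, (ZMod.stdAddChar ((k : ZMod n) * j * NO.sg a i) : ℂ) =
      1 + ∑ i, ((ZMod.stdAddChar (j * a i) : ℂ) ^ k + ((ZMod.stdAddChar (j * a i) : ℂ)⁻¹) ^ k) := by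
  rw [rpe_sum]
  congr 1
  refine Finset.sum_congr rfl fun i _ => ?_
  have h1 : (ZMod.stdAddChar ((k : ZMod n) * j * a i) : ℂ) = (ZMod.stdAddChar (j * a i) : ℂ) ^ k := by
    rw [← AddChar.map_nsmul_eq_pow, nsmul_eq_mul, mul_assoc]
  rw [h1, inv_pow]

private theorem rpe_real {n : ℕ} [NeZero n] {m : ℕ} (a : Fin m → ZMod n) (j : ZMod n) :
    (((∑ i, (ZMod.stdAddChar (j * NO.sg a i) : ℂ)).re : ℝ) : ℂ) = ∑ i, (ZMod.stdAddChar (j * NO.sg a i) : ℂ) := by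
  rw [← Complex.conj_eq_iff_re, rpe_sum, map_add, map_one, map_sum]
  congr 1
  refine Finset.sum_congr rfl fun i _ => ?_
  rw [map_add, ← AddChar.map_neg_eq_inv, ← AddChar.map_neg_eq_conj, ← AddChar.map_neg_eq_conj, neg_neg, add_comm]

private theorem rpe_map_sum {n : ℕ} [NeZero n] {ι : Type} (s : Finset ι) (f : ι → ZMod n) :
    (ZMod.stdAddChar (∑ i ∈ s, f i) : ℂ) = ∏ i ∈ s, (ZMod.stdAddChar (f i) : ℂ) := by
  classical
  induction s using Finset.induction_on with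
  | empty => rw [Finset.sum_empty, Finset.prod_empty, AddChar.map_zero_eq_one]
  | insert i s hi ih => rw [Finset.sum_insert hi, Finset.prod_insert hi, AddChar.map_add_eq_mul, ih]

private theorem rpe_mon {n : ℕ} [NeZero n] {m : ℕ} (a : Fin m → ZMod n) (j : ZMod n) (v : Fin m → ℤ) :
    mon (fun i => (ZMod.stdAddChar (j * a i) : ℂ)) v = ZMod.stdAddChar (j * ∑ i, v i • a i) := by
  unfold mon
  rw [Finset.mul_sum, rpe_map_sum]
  refine prod_congr rfl fun i _ => ?_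
  rw [mul_smul_comm, AddChar.map_zsmul_eq_zpow]

theorem rpE {n m : ℕ} [NeZero n] (a : Fin m → ZMod n) : ∃ x : ZMod n → ℝ,
    (∀ j, (x j : ℂ) = ∑ i, ZMod.stdAddChar (j * NO.sg a i)) ∧
    ∀ (j : ZMod n) (k : ℕ), cc (pw m (xs x j)) k =
      ∑ v ∈ ball m k, (ZMod.stdAddChar (j * ∑ i, v i • a i) : ℂ) := by
  refine ⟨fun j => (∑ i, (ZMod.stdAddChar (j * NO.sg a i) : ℂ)).re, fun j => rpe_real a j, fun j k => ?_⟩
  have hx : ∀ i, (ZMod.stdAddChar (j * a i) : ℂ) ≠ 0 := by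
    intro i h0
    have h1 : (ZMod.stdAddChar (j * a i + -(j * a i)) : ℂ) = 1 := by rw [add_neg_cancel, AddChar.map_zero_eq_one]
    rw [AddChar.map_add_eq_mul, h0, zero_mul] at h1
    exact zero_ne_one h1
  have e : xs (fun j => (∑ i, (ZMod.stdAddChar (j * NO.sg a i) : ℂ)).re) j =
      fun i => 1 + ∑ l, ((ZMod.stdAddChar (j * a l) : ℂ) ^ i + ((ZMod.stdAddChar (j * a l) : ℂ)⁻¹) ^ i) := by
    funext i
    unfold xs
    rw [rpe_real, rpe_mul]
  rw [e, ← newton_even _ hx, ← sum_ball]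
  exact Finset.sum_congr rfl fun v _ => rpe_mon a j v

end TightIndep.FX
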