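import Pool.Agent.Lib.MP_f31b39_co.FX.Defs
import Pool.Agent.Lib.MP_f31b39_co.NO.Dif
import Pool.Agent.Lib.MP_f31b39_co.AS.Newton
import Pool.Agent.Lib.MP_f31b39_co.AS.Sph
import Pool.Agent.Lib.MP_f31b39_co.AS.DSph

/-!
# FX-RpO: the coefficients as character sums over balls, odd case
-/

namespace TightIndep.FX

open Finset

private theorem rpO_pow {n : ℕ} [NeZero n] (k : ℕ) (j g : ZMod n) :
    (ZMod.stdAddChar (j * g) : ℂ) ^ k = ZMod.stdAddChar ((k : ZMod n) * j * g) := by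
  rw [← AddChar.map_nsmul_eq_pow, nsmul_eq_mul, mul_assoc]

private theorem rpO_ne {n : ℕ} [NeZero n] (g : ZMod n) : (ZMod.stdAddChar g : ℂ) ≠ 0 := by
  intro h0
  have h1 : (ZMod.stdAddChar (g + -g) : ℂ) = 1 := by
    rw [add_neg_cancel, AddChar.map_zero_eq_one]
  rw [AddChar.map_add_eq_mul, h0, zero_mul] at h1
  exact zero_ne_one h1

private theorem rpO_sum {n : ℕ} [NeZero n] {m : ℕ} (a : Fin m → ZMod n) (j : ZMod n) :
    ∑ i, (ZMod.stdAddChar (j * NO.sg a (some i)) : ℂ) =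
      ∑ i, ((ZMod.stdAddChar (j * a i) : ℂ) + (ZMod.stdAddChar (j * a i) : ℂ)⁻¹) := by
  rw [Fintype.sum_prod_type]
  refine sum_congr rfl fun i _ => ?_
  rw [Fintype.sum_bool]
  show (ZMod.stdAddChar (j * a i) : ℂ) + ZMod.stdAddChar (j * -a i) = _
  rw [mul_neg, AddChar.map_neg_eq_inv]

private theorem rpO_real {n : ℕ} [NeZero n] {m : ℕ} (a : Fin m → ZMod n) (j : ZMod n) :
    ((∑ i, 2 * (ZMod.stdAddChar (j * a i) : ℂ).re : ℝ) : ℂ) =
      ∑ i, (ZMod.stdAddChar (j * NO.sg a (some i)) : ℂ) := by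
  rw [rpO_sum]
  push_cast
  refine sum_congr rfl fun i _ => ?_
  rw [← AddChar.map_neg_eq_inv, AddChar.map_neg_eq_conj, Complex.add_conj]
  push_cast
  ring

private theorem rpO_mon {n : ℕ} [NeZero n] {m : ℕ} (a : Fin m → ZMod n) (j : ZMod n)
    (v : Fin m → ℤ) : mon (fun i => (ZMod.stdAddChar (j * a i) : ℂ)) v =
      ZMod.stdAddChar (j * ∑ i, v i • a i) := by
  unfold mon
  rw [mul_sum, addChar_map_sum]
  refine prod_congr rfl fun i _ => ?_
  rw [← AddChar.map_zsmul_eq_zpow, mul_smul_comm]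

private theorem rpO_coeff {m : ℕ} (y : Fin m → ℂ) (k : ℕ) :
    ∑ v ∈ (ball m k).filter (fun v => nrm v % 2 = k % 2), mon y v =
      PowerSeries.coeff k (EE y * geo2) := by
  have h0 : ∀ v ∈ (ball m k).filter (fun v => nrm v % 2 = k % 2), nrm v ∈ range (k + 1) := by
    intro v hv
    rw [mem_filter, mem_ball] at hv
    rw [mem_range]
    omega
  rw [← sum_fiberwise_of_maps_to h0, PowerSeries.coeff_mul,
    Finset.Nat.sum_antidiagonal_eq_sum_range_succ
      (fun i j => PowerSeries.coeff i (EE y) * PowerSeries.coeff j geo2)]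
  refine sum_congr rfl fun i hi => ?_
  rw [mem_range] at hi
  by_cases h : i % 2 = k % 2
  · have h1 : ((ball m k).filter (fun v => nrm v % 2 = k % 2)).filter (fun v => nrm v = i) =
        (ball m i).filter (fun v => nrm v = i) := by
      ext v
      rw [mem_filter, mem_filter, mem_filter, mem_ball, mem_ball]
      constructor
      · rintro ⟨_, h3⟩
        exact ⟨h3.le, h3⟩
      · rintro ⟨_, h3⟩
        refine ⟨⟨by omega, ?_⟩, h3⟩
        rw [h3, h]
    have h2 : Even (k - i) := by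
      rw [Nat.even_iff]
      omega
    rw [h1, sum_sphere, geo2, PowerSeries.coeff_mk, if_pos h2, mul_one]
  · have h1 : ((ball m k).filter (fun v => nrm v % 2 = k % 2)).filter (fun v => nrm v = i) = ∅ := by
      rw [filter_eq_empty_iff]
      intro v hv h3
      rw [mem_filter] at hv
      exact h (by rw [← h3]; exact hv.2)
    have h2 : ¬ Even (k - i) := by
      rw [Nat.even_iff]
      omega
    rw [h1, sum_empty, geo2, PowerSeries.coeff_mk, if_neg h2, mul_zero]

theorem rpO {n m : ℕ} [NeZero n] (a : Fin (m + 1) → ZMod n) : ∃ x : ZMod n → ℝ,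
    (∀ j, (x j : ℂ) = ∑ i, ZMod.stdAddChar (j * NO.sg a (some i))) ∧
    ∀ (j : ZMod n) (k : ℕ), cc (pw m (xs x j)) k =
      ∑ v ∈ (ball (m + 1) k).filter (fun v => nrm v % 2 = k % 2), (ZMod.stdAddChar (j * ∑ i, v i • a i) : ℂ) := by
  refine ⟨fun j => ∑ i, 2 * (ZMod.stdAddChar (j * a i) : ℂ).re, fun j => rpO_real a j, fun j k => ?_⟩
  have h1 : xs (fun j => ∑ i, 2 * (ZMod.stdAddChar (j * a i) : ℂ).re) j =
      fun k => ∑ i, ((ZMod.stdAddChar (j * a i) : ℂ) ^ k + (ZMod.stdAddChar (j * a i) : ℂ)⁻¹ ^ k) := by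
    funext k
    unfold xs
    rw [rpO_real, rpO_sum]
    refine sum_congr rfl fun i _ => ?_
    rw [inv_pow, rpO_pow]
  rw [h1, ← newton_odd _ (fun i => rpO_ne _) k, ← rpO_coeff]
  exact sum_congr rfl fun v _ => rpO_mon a j v

end TightIndep.FX
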