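import Pool.Agent.Lib.MP_f31b39_co.FX.Defs

/-!
# FX-Sz: all character sums are `O(√N)`
-/

namespace TightIndep.FX

open Finset

theorem cc_one (r : ℕ) (hr : 1 ≤ r) : ∃ K : ℝ, 1 ≤ K ∧ ∀ (N : ℝ) (U : ℕ → ℂ), 1 ≤ N →
    (∀ i, 2 ≤ i → i ≤ r → ‖U i‖ ≤ 4 * N) → cc (pw N U) r = 0 → ‖U 1‖ ≤ K * √N := by
  have hf0 : (0 : ℝ) < (r.factorial : ℝ) := by exact_mod_cast r.factorial_pos
  have hr0 : (0 : ℝ) ≤ (r : ℝ) := Nat.cast_nonneg r
  refine ⟨3 * r * (r.factorial : ℝ) + 4, by nlinarith [mul_nonneg hr0 hf0.le], ?_⟩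
  intro N U hN hU h0
  by_contra hlt
  push Not at hlt
  set K : ℝ := 3 * r * (r.factorial : ℝ) + 4 with hKdef
  set V : ℝ := ‖U 1‖ with hV
  have hK4 : 4 ≤ K := by
    rw [hKdef]
    nlinarith [mul_nonneg hr0 hf0.le]
  have hK0 : 0 < K := by linarith
  have hs1 : 1 ≤ √N := by
    rw [show (1 : ℝ) = √1 by simp]
    exact Real.sqrt_le_sqrt hN
  have hVK : K ≤ V := by nlinarith
  have hV1 : 1 ≤ V := by linarith
  have hV0 : 0 < V := by linarith
  have hN2 : K ^ 2 * N ≤ V ^ 2 := by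
    have h1 : (K * √N) ^ 2 ≤ V ^ 2 := pow_le_pow_left₀ (by positivity) hlt.le 2
    rwa [mul_pow, Real.sq_sqrt (by linarith)] at h1
  set P : ℕ → ℂ := pw (N : ℂ) U with hP
  have hP1 : P 1 = U 1 := by
    rw [hP]
    simp [pw]
  have hPi : ∀ i, 2 ≤ i → i ≤ r → ‖P i‖ ≤ 3 / K * V ^ i := by
    intro i hi hir
    have h1 : ‖P i‖ ≤ 4 * N + 2 * N := by
      rw [hP]
      unfold pw
      refine (norm_sub_le _ _).trans (add_le_add (hU i hi hir) ?_)
      split_ifs
      · rw [norm_mul, Complex.norm_real, Real.norm_of_nonneg (by linarith)]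
        simp
      · rw [norm_zero]
        linarith
    have h2 : 4 * N + 2 * N ≤ 3 / K * V ^ 2 := by
      rw [div_mul_eq_mul_div, le_div_iff₀ hK0]
      have t2 : 2 * (N * K) ≤ K ^ 2 * N := by
        have : 2 * K ≤ K ^ 2 := by nlinarith
        nlinarith
      nlinarith
    have h3 : V ^ 2 ≤ V ^ i := pow_le_pow_right₀ hV1 hi
    calc ‖P i‖ ≤ 3 / K * V ^ 2 := h1.trans h2
      _ ≤ 3 / K * V ^ i := mul_le_mul_of_nonneg_left h3 (by positivity)
  have hd1 : 3 / K ≤ 1 := by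
    rw [div_le_one hK0]
    linarith
  have hPa : ∀ i, 1 ≤ i → i ≤ r → ‖P i‖ ≤ V ^ i := by
    intro i hi hir
    rcases Nat.lt_or_ge i 2 with h2 | h2
    · have h3 : i = 1 := by omega
      rw [h3, hP1, pow_one]
    · calc ‖P i‖ ≤ 3 / K * V ^ i := hPi i h2 hir
        _ ≤ 1 * V ^ i := mul_le_mul_of_nonneg_right hd1 (by positivity)
        _ = V ^ i := one_mul _
  have hcc : ∀ k, k ≤ r → ‖cc P k‖ ≤ V ^ k := by
    intro k
    induction k using Nat.strong_induction_on with
    | _ k ih =>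
      intro hk
      rcases k with _ | k
      · rw [cc_zero]
        simp
      · rw [cc_succ, norm_div]
        have hk1 : ‖((k : ℂ) + 1)‖ = (k : ℝ) + 1 := by
          rw [show ((k : ℂ) + 1) = (((k : ℝ) + 1 : ℝ) : ℂ) by push_cast; rfl, Complex.norm_real,
            Real.norm_of_nonneg (by positivity)]
        rw [hk1, div_le_iff₀ (by positivity)]
        refine (norm_sum_le _ _).trans ?_
        have h1 : ∀ i ∈ range (k + 1), ‖P (i + 1) * cc P (k - i)‖ ≤ V ^ (k + 1) := by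
          intro i hi
          have hi' : i ≤ k := by
            have := mem_range.mp hi
            omega
          rw [norm_mul]
          have e : V ^ (k + 1) = V ^ (i + 1) * V ^ (k - i) := by
            rw [← pow_add]
            congr 1
            omega
          rw [e]
          exact mul_le_mul (hPa _ (by omega) (by omega)) (ih _ (by omega) (by omega))
            (norm_nonneg _) (by positivity)
        refine (sum_le_sum h1).trans (le_of_eq ?_)
        rw [sum_const, card_range, nsmul_eq_mul]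
        push_cast
        ring
  have hmain : ∀ k, k ≤ r → ‖cc P k - U 1 ^ k / (k.factorial : ℂ)‖ ≤ 3 / K * k * V ^ k := by
    intro k
    induction k with
    | zero =>
      intro _
      rw [cc_zero]
      simp
    | succ k ih =>
      intro hk
      have hk1 : ‖((k : ℂ) + 1)‖ = (k : ℝ) + 1 := by
        rw [show ((k : ℂ) + 1) = (((k : ℝ) + 1 : ℝ) : ℂ) by push_cast; rfl, Complex.norm_real,
          Real.norm_of_nonneg (by positivity)]
      have hkne : ((k : ℂ) + 1) ≠ 0 := by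
        intro h
        rw [h, norm_zero] at hk1
        have : (0 : ℝ) ≤ (k : ℝ) := Nat.cast_nonneg k
        linarith
      have hfne : (k.factorial : ℂ) ≠ 0 := by exact_mod_cast k.factorial_ne_zero
      have e1 : cc P (k + 1) - U 1 ^ (k + 1) / ((k + 1).factorial : ℂ) =
          ((∑ i ∈ range k, P (i + 2) * cc P (k - (i + 1))) +
            U 1 * (cc P k - U 1 ^ k / (k.factorial : ℂ))) / ((k : ℂ) + 1) := by
        rw [cc_succ, sum_range_succ', Nat.factorial_succ]
        push_cast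
        rw [Nat.sub_zero, hP1]
        field_simp
        ring
      rw [e1, norm_div, hk1, div_le_iff₀ (by positivity)]
      have h1 : ‖∑ i ∈ range k, P (i + 2) * cc P (k - (i + 1))‖ ≤ k * (3 / K * V ^ (k + 1)) := by
        refine (norm_sum_le _ _).trans ?_
        have h2 : ∀ i ∈ range k, ‖P (i + 2) * cc P (k - (i + 1))‖ ≤ 3 / K * V ^ (k + 1) := by
          intro i hi
          have hi' : i < k := mem_range.mp hi
          rw [norm_mul]
          have e : V ^ (k + 1) = V ^ (i + 2) * V ^ (k - (i + 1)) := by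
            rw [← pow_add]
            congr 1
            omega
          rw [e, ← mul_assoc]
          exact mul_le_mul (hPi _ (by omega) (by omega)) (hcc _ (by omega))
            (norm_nonneg _) (by positivity)
        refine (sum_le_sum h2).trans (le_of_eq ?_)
        rw [sum_const, card_range, nsmul_eq_mul]
      have h3 : ‖U 1 * (cc P k - U 1 ^ k / (k.factorial : ℂ))‖ ≤ V * (3 / K * k * V ^ k) := by
        rw [norm_mul]
        exact mul_le_mul_of_nonneg_left (ih (by omega)) hV0.le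
      refine (norm_add_le _ _).trans ((add_le_add h1 h3).trans ?_)
      have e2 : (k : ℝ) * (3 / K * V ^ (k + 1)) + V * (3 / K * k * V ^ k) =
          (2 * k) * (3 / K * V ^ (k + 1)) := by ring
      have e3 : 3 / K * ((k + 1 : ℕ) : ℝ) * V ^ (k + 1) * ((k : ℝ) + 1) =
          ((k : ℝ) + 1) ^ 2 * (3 / K * V ^ (k + 1)) := by push_cast; ring
      rw [e2, e3]
      refine mul_le_mul_of_nonneg_right ?_ (by positivity)
      nlinarith [sq_nonneg ((k : ℝ))]
  have hfin := hmain r le_rfl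
  rw [h0, zero_sub, norm_neg, norm_div, norm_pow] at hfin
  have hfn : ‖(r.factorial : ℂ)‖ = (r.factorial : ℝ) := by
    rw [Complex.norm_natCast]
  rw [hfn, ← hV, div_le_iff₀ hf0] at hfin
  have hVr : 0 < V ^ r := pow_pos hV0 r
  have h5 : V ^ r * 1 ≤ V ^ r * (3 / K * r * (r.factorial : ℝ)) := by
    calc V ^ r * 1 = V ^ r := mul_one _
      _ ≤ 3 / K * r * V ^ r * (r.factorial : ℝ) := hfin
      _ = V ^ r * (3 / K * r * (r.factorial : ℝ)) := by ring
  have h6 := le_of_mul_le_mul_left h5 hVr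
  have h7 : 3 / K * r * (r.factorial : ℝ) = (3 * r * (r.factorial : ℝ)) / K := by ring
  rw [h7, le_div_iff₀ hK0, one_mul] at h6
  rw [hKdef] at h6
  linarith

/-- the trivial bound -/
private lemma triv {r n N : ℕ} [NeZero n] {ι : Type} [Fintype ι] [DecidableEq ι] {g : ι → ZMod n} {x : ZMod n → ℝ}
    (D : Dat r n N g x) (hN : 1 ≤ N) (j : ZMod n) : |x j| ≤ 4 * (N : ℝ) := by
  have h1 : ‖((x j : ℝ) : ℂ)‖ ≤ (Fintype.card ι : ℝ) := by
    rw [D.hx j]
    refine (norm_sum_le _ _).trans ?_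
    have h2 : ∀ i ∈ (univ : Finset ι), ‖ZMod.stdAddChar (j * g i)‖ ≤ (1 : ℝ) := by
      intro i _
      rw [AddChar.norm_apply]
    refine (sum_le_sum h2).trans (le_of_eq ?_)
    rw [sum_const, card_univ, nsmul_eq_mul, mul_one]
  rw [Complex.norm_real, Real.norm_eq_abs] at h1
  have h3 : (Fintype.card ι : ℝ) ≤ 2 * N + 2 := by exact_mod_cast D.hi
  have h4 : (1 : ℝ) ≤ N := by exact_mod_cast hN
  linarith

theorem sz (r : ℕ) (hr : 1 ≤ r) : ∃ K : ℝ, 1 ≤ K ∧ ∀ (n N : ℕ) [NeZero n] (ι : Type) [Fintype ι] [DecidableEq ι]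
    (g : ι → ZMod n) (x : ZMod n → ℝ), Dat r n N g x → 1 ≤ N → ∀ j : ZMod n, 2 * j ≠ 0 → |x j| ≤ K * √N := by
  obtain ⟨K, hK, h⟩ := cc_one r hr
  refine ⟨K, hK, ?_⟩
  intro n N _ ι _ _ g x D hN j hj
  have h1 := h (N : ℝ) (xs x j) (by exact_mod_cast hN) (fun i _ _ => ?_) (by
    have := D.eqn j hj
    simpa using this)
  · have e : xs x j 1 = ((x j : ℝ) : ℂ) := by
      unfold xs
      rw [Nat.cast_one, one_mul]
    rw [e, Complex.norm_real, Real.norm_eq_abs] at h1
    exact h1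
  · unfold xs
    rw [Complex.norm_real, Real.norm_eq_abs]
    exact triv D hN _

theorem szb (r : ℕ) (hr : 1 ≤ r) : ∃ K : ℝ, 1 ≤ K ∧ ∀ (n N : ℕ) [NeZero n] (ι : Type) [Fintype ι] [DecidableEq ι]
    (g : ι → ZMod n) (x : ZMod n → ℝ), Dat r n N g x → 1 ≤ N → ∀ j : ZMod n, j ∉ Exc r n →
      ∀ j' : ZMod n, (j' = j ∨ j' = 3 * j) → 2 * j' ≠ 0 ∧ |x j'| ≤ K * √N ∧
        ∀ i : ℕ, 1 ≤ i → i ≤ r → |x ((i : ZMod n) * j')| ≤ K * √N := by
  obtain ⟨K, hK, h⟩ := sz r hr
  refine ⟨K, hK, ?_⟩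
  intro n N _ ι _ _ g x D hN j hj j' hj'
  have h1 : ∀ k : ℕ, 1 ≤ k → k ≤ 6 * r → (k : ZMod n) * j ≠ 0 := by
    intro k h1 h2 h3
    apply hj
    simp only [Exc, mem_filter, mem_univ, true_and]
    exact ⟨k, mem_Icc.mpr ⟨h1, h2⟩, h3⟩
  have h2 : ∀ i : ℕ, 1 ≤ i → i ≤ r → 2 * ((i : ZMod n) * j') ≠ 0 := by
    intro i hi hir
    rcases hj' with rfl | rfl
    · intro h0
      apply h1 (2 * i) (by omega) (by omega)
      push_cast
      rw [← h0]
      ring
    · intro h0
      apply h1 (6 * i) (by omega) (by omega)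
      push_cast
      rw [← h0]
      ring
  have h3 : 2 * j' ≠ 0 := by
    have := h2 1 le_rfl hr
    simpa using this
  exact ⟨h3, h n N ι g x D hN j' h3, fun i hi hir => h n N ι g x D hN _ (h2 i hi hir)⟩

end TightIndep.FX
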