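import Pool.Agent.Lib.MP_f31b39_co.FX.Lg
import Pool.Agent.Lib.MP_f31b39_co.FX.Zm

/-!
# FX-Zo: the order of a zero
-/

namespace TightIndep.FX

open Finset

private theorem zo_fib {n d : ℕ} [NeZero n] [NeZero d] (hd : d ∣ n) (h : ZMod d) :
    (univ.filter fun y : ZMod n => ZMod.castHom hd (ZMod d) y = h).card ≤ n / d := by
  rw [← Finset.card_range (n / d)]
  have hd0 : 0 < d := Nat.pos_of_ne_zero (NeZero.ne d)
  have hv : ∀ y : ZMod n, ZMod.castHom hd (ZMod d) y = h → y.val % d = h.val := by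
    intro y hy
    rw [ZMod.castHom_apply, ← ZMod.natCast_val] at hy
    rw [← hy, ZMod.val_natCast]
  refine Finset.card_le_card_of_injOn (fun y => y.val / d) ?_ ?_
  · intro y _
    have h1 : y.val < n := ZMod.val_lt y
    have h2 : y.val / d < n / d := Nat.div_lt_div_of_lt_of_dvd hd h1
    exact Finset.mem_coe.2 (mem_range.2 h2)
  · intro y hy z hz hyz
    simp only [coe_filter, mem_univ, true_and, Set.mem_setOf_eq] at hy hz
    have h1 : y.val / d = z.val / d := hyz
    apply ZMod.val_injective n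
    rw [← Nat.div_add_mod y.val d, ← Nat.div_add_mod z.val d, h1, hv y hy, hv z hz]

theorem zo {r n N : ℕ} [NeZero n] {ι : Type} [Fintype ι] [DecidableEq ι] (g : ι → ZMod n) (x : ZMod n → ℝ)
    (hD : Dat r n N g x) (j : ZMod n) (hj : j ≠ 0) (h0 : x j = 0) :
    2 * N ≤ n / addOrderOf j * 2 ^ n.primeFactors.card := by
  obtain ⟨d, hdef⟩ : ∃ d, d = addOrderOf j := ⟨_, rfl⟩
  rw [← hdef]
  have hd : d ∣ n := by
    rw [hdef]
    have h1 := addOrderOf_dvd_card (x := j)
    rwa [ZMod.card] at h1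
  have hn0 : n ≠ 0 := NeZero.ne n
  have hd0 : d ≠ 0 := fun h => hn0 (Nat.eq_zero_of_zero_dvd (h ▸ hd))
  have hd1 : d ≠ 1 := by
    intro h
    rw [hdef, AddMonoid.addOrderOf_eq_one_iff] at h
    exact hj h
  haveI : NeZero d := ⟨hd0⟩
  have hx' : ∀ c : ZMod d, ((x (((n / d * c.val : ℕ)) : ZMod n) : ℝ) : ℂ) =
      ∑ i, ZMod.stdAddChar (c * ZMod.castHom hd (ZMod d) (g i)) := by
    intro c
    rw [hD.hx]
    exact Finset.sum_congr rfl fun i _ => chr hd c (g i)
  have hc : ∀ h : ZMod d, h ≠ 0 → (univ.filter fun p : ι × ι =>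
      ZMod.castHom hd (ZMod d) (g p.1) - ZMod.castHom hd (ZMod d) (g p.2) = h).card ≤ 2 * (n / d) := by
    intro h hh
    have h1 := Finset.card_le_mul_card_image_of_maps_to (f := fun p : ι × ι => g p.1 - g p.2)
      (s := univ.filter fun p : ι × ι => ZMod.castHom hd (ZMod d) (g p.1) - ZMod.castHom hd (ZMod d) (g p.2) = h)
      (t := univ.filter fun y : ZMod n => ZMod.castHom hd (ZMod d) y = h) (fun p hp => by
        rw [mem_filter] at hp ⊢
        refine ⟨mem_univ _, ?_⟩
        rw [map_sub]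
        exact hp.2) 2 (fun y hy => by
        rw [mem_filter] at hy
        have hy0 : y ≠ 0 := by
          rintro rfl
          exact hh (by rw [← hy.2, map_zero])
        refine le_trans (Finset.card_le_card ?_) (hD.dif y hy0)
        intro p hp
        rw [mem_filter] at hp ⊢
        exact ⟨mem_univ _, hp.2⟩)
    exact h1.trans (Nat.mul_le_mul_left 2 (zo_fib hd h))
  have key := zm (n := d) (by omega) (fun i => ZMod.castHom hd (ZMod d) (g i)) (2 * (n / d)) hc
    (fun c => x (((n / d * c.val : ℕ)) : ZMod n)) hx'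
  have hz : ∑ u : (ZMod d)ˣ, x (((n / d * (u : ZMod d).val : ℕ)) : ZMod n) ^ 2 = 0 := by
    rw [← grp hd fun y => x y ^ 2]
    refine Finset.sum_eq_zero fun y hy => ?_
    rw [mem_filter] at hy
    rw [zero_all g x hD.hx j y (by rw [hy.2, hdef]) h0]
    norm_num
  rw [hz] at key
  have hφ : (0 : ℝ) < Nat.totient d := by exact_mod_cast Nat.totient_pos.2 (Nat.pos_of_ne_zero hd0)
  have h2 : (Fintype.card ι : ℝ) - ((2 * (n / d) : ℕ) : ℝ) * 2 ^ d.primeFactors.card / 2 ≤ 0 := by
    by_contra h3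
    push Not at h3
    have := mul_pos hφ h3
    linarith
  have h3 : (Fintype.card ι : ℝ) ≤ ((n / d * 2 ^ d.primeFactors.card : ℕ) : ℝ) := by
    rw [Nat.cast_mul, Nat.cast_pow]
    rw [Nat.cast_mul] at h2
    push_cast at h2 ⊢
    linarith
  have h4 : Fintype.card ι ≤ n / d * 2 ^ d.primeFactors.card := by exact_mod_cast h3
  have h5 : 2 ^ d.primeFactors.card ≤ 2 ^ n.primeFactors.card :=
    Nat.pow_le_pow_right (by norm_num) (Finset.card_le_card (Nat.primeFactors_mono hd hn0))
  exact hD.lo.trans (h4.trans (Nat.mul_le_mul_left _ h5))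

end TightIndep.FX
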